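import Pool.Agent.Nao.Zl

/-! A vector which no Sylow subgroup fixes, groups of odd order. -/

set_option autoImplicit false

namespace Pool.Agent.Nao

open Pool.Agent.Nan Pool.Agent.Nas

section
variable {p : ℕ} [Fact p.Prime] {L W : Type} [Group L] [Finite L] [AddCommGroup W]
  [Module (ZMod p) W] [Finite W] [Nontrivial W] {ρ : Representation (ZMod p) L W}
  {U : Subgroup L}

/-- `x` has prime order `≥ 3` which does not divide `card U`. -/
def Pe (U : Subgroup L) (x : L) : Prop :=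
  x ≠ 1 ∧ ∃ l : ℕ, l.Prime ∧ 3 ≤ l ∧ ¬ l ∣ Nat.card U ∧ x ^ l = 1

private theorem cn_dvd (h : QP ρ U) {E : Subgroup L} {n : ℕ} {M : Fin n → Subgroup L}
    (hE : SE U E n M) (e : ℕ) (he : U.relIndex E = e ^ 2) (s : ℕ) (hs : s.Prime) (hse : s ∣ e) :
    s ∣ Nat.card U := by
  obtain ⟨e', -, he', hd⟩ := sq_ex ⟨qp_cyc h, hE.UE, hE.cU, hE.com, hE.cen⟩
  have h1 : e = e' := by
    rw [he] at he'
    exact Nat.pow_left_injective two_ne_zero he'
  exact hd s hs (h1 ▸ hse)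

omit [Finite L] in
private theorem cn_odd (ho : ¬ 2 ∣ Nat.card L) {E : Subgroup L} (e : ℕ)
    (he : U.relIndex E = e ^ 2) : ¬ 2 ∣ e := by
  intro h2
  apply ho
  have h3 : U.relIndex E ∣ Nat.card L :=
    (Subgroup.relIndex_dvd_card U E).trans (Subgroup.card_subgroup_dvd_card E)
  rw [he] at h3
  exact (h2.trans (dvd_pow_self e two_ne_zero)).trans h3

private theorem cn_notE (h : QP ρ U) {E : Subgroup L} {n : ℕ} {M : Fin n → Subgroup L}
    (hE : SE U E n M) (e : ℕ) (he : U.relIndex E = e ^ 2) (l : ℕ) (hl : l.Prime)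
    (hlU : ¬ l ∣ Nat.card U) (x : L) (hx1 : x ≠ 1) (hx : x ^ l = 1) : x ∉ E := by
  intro hxE
  have h1 : orderOf x = l := by
    haveI : Fact l.Prime := ⟨hl⟩
    exact orderOf_eq_prime hx hx1
  have h2 : l ∣ Nat.card E := by
    rw [← h1]
    exact Subgroup.orderOf_dvd_natCard E hxE
  rw [← Subgroup.relIndex_bot_left, ← Subgroup.relIndex_mul_relIndex ⊥ U E bot_le hE.UE,
    Subgroup.relIndex_bot_left, he] at h2
  rcases (Nat.Prime.dvd_mul hl).1 h2 with h3 | h3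
  · exact hlU h3
  · exact hlU (cn_dvd h hE e he l hl (hl.dvd_of_dvd_pow h3))

/-- The elements of `Pe` in a coset of `E` have the same order. -/
private theorem cn_same (h : QP ρ U) {E : Subgroup L} {n : ℕ} {M : Fin n → Subgroup L}
    (hE : SE U E n M) (e : ℕ) (he : U.relIndex E = e ^ 2) (l m : ℕ) (hl : l.Prime) (hm : m.Prime)
    (hlU : ¬ l ∣ Nat.card U) (x y : L) (hx1 : x ≠ 1) (hx : x ^ l = 1) (hy : y ^ m = 1)
    (hxy : x⁻¹ * y ∈ E) : y ^ l = 1 := by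
  haveI := hE.nor
  by_cases hlm : l = m
  · rw [hlm]; exact hy
  exfalso
  apply cn_notE h hE e he l hl hlU x hx1 hx
  have h1 : (QuotientGroup.mk x : L ⧸ E) = QuotientGroup.mk y := QuotientGroup.eq.2 hxy
  have h2 : (QuotientGroup.mk x : L ⧸ E) ^ l = 1 := by
    rw [← QuotientGroup.mk_pow, hx]; rfl
  have h3 : (QuotientGroup.mk x : L ⧸ E) ^ m = 1 := by
    rw [h1, ← QuotientGroup.mk_pow, hy]; rfl
  have h4 : orderOf (QuotientGroup.mk x : L ⧸ E) = 1 := Nat.eq_one_of_dvd_coprimes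
    ((Nat.coprime_primes hl hm).2 hlm) (orderOf_dvd_of_pow_eq_one h2) (orderOf_dvd_of_pow_eq_one h3)
  exact (QuotientGroup.eq_one_iff x).1 (orderOf_eq_one_iff.1 h4)

private theorem cn_cos (h : QP ρ U) {E : Subgroup L} {n : ℕ} {M : Fin n → Subgroup L}
    (hE : SE U E n M) (e : ℕ) (he : U.relIndex E = e ^ 2) (D : Subgroup L)
    (hD : ∀ x, Pe U x → (∀ u ∈ U, x * u = u * x) → x ∈ D) :
    Nat.card {x : L // Pe U x ∧ ∀ u ∈ U, x * u = u * x} ≤ e ^ 2 * E.relIndex D := by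
  classical
  haveI := hE.nor
  haveI := Fintype.ofFinite L
  haveI : Fintype (L ⧸ E) := Fintype.ofFinite _
  have h1 : Nat.card {x : L // Pe U x ∧ ∀ u ∈ U, x * u = u * x} =
      (Finset.univ.filter fun x : L => Pe U x ∧ ∀ u ∈ U, x * u = u * x).card := by
    rw [Nat.card_eq_fintype_card, Fintype.card_subtype]
  rw [h1]
  set T := Finset.univ.filter fun x : L => Pe U x ∧ ∀ u ∈ U, x * u = u * x with hT
  have h2 : T.card ≤ e ^ 2 * (T.image (QuotientGroup.mk' E)).card := by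
    apply Finset.card_le_mul_card_image
    intro b hb
    obtain ⟨x, hx, rfl⟩ := Finset.mem_image.1 hb
    obtain ⟨-, ⟨hx1, l, hl, hl3, hlU, hxl⟩, hxu⟩ := Finset.mem_filter.1 hx
    have h3 := cos_cnt (qp_cyc h) hE l hl hlU x
    rw [he] at h3
    refine le_trans ?_ h3
    rw [Nat.card_eq_fintype_card, Fintype.card_subtype]
    apply Finset.card_le_card
    intro y hy
    rw [Finset.mem_filter] at hy
    obtain ⟨hyT, hyx⟩ := hy
    obtain ⟨-, ⟨hy1, m, hm, hm3, hmU, hym⟩, hyu⟩ := Finset.mem_filter.1 hyT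
    have hxy : x⁻¹ * y ∈ E := QuotientGroup.eq.1 hyx.symm
    exact Finset.mem_filter.2 ⟨Finset.mem_univ _, hyu,
      cn_same h hE e he l m hl hm hlU x y hx1 hxl hym hxy, hxy⟩
  refine h2.trans (Nat.mul_le_mul_left _ ?_)
  have h4 : E.relIndex D = Nat.card (D.map (QuotientGroup.mk' E)) := by
    rw [← Subgroup.relIndex_bot_left, ← Subgroup.relIndex_comap, MonoidHom.comap_bot,
      QuotientGroup.ker_mk']
  rw [h4]
  calc (T.image (QuotientGroup.mk' E)).card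
      ≤ (Finset.univ.filter fun q : L ⧸ E => q ∈ D.map (QuotientGroup.mk' E)).card := by
        apply Finset.card_le_card
        intro q hq
        obtain ⟨x, hx, rfl⟩ := Finset.mem_image.1 hq
        obtain ⟨-, hxP, hxu⟩ := Finset.mem_filter.1 hx
        exact Finset.mem_filter.2 ⟨Finset.mem_univ _, Subgroup.mem_map_of_mem _ (hD x hxP hxu)⟩
    _ = Nat.card (D.map (QuotientGroup.mk' E)) := by
        rw [Nat.card_eq_fintype_card, ← Fintype.card_subtype]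

private theorem cn_exp (e s d : ℕ) (he : e < 9) (he0 : 0 < e) (he2 : ¬ 2 ∣ e) (hs : s.Prime)
    (h : s ^ d ∣ e ^ 2) : d ≤ 2 := by
  by_contra hd
  have h3 : s ^ 3 ∣ e ^ 2 := (pow_dvd_pow s (by omega)).trans h
  have h4 : s ∣ e := hs.dvd_of_dvd_pow ((dvd_pow_self s (by norm_num)).trans h3)
  have h5 := Nat.le_of_dvd he0 h4
  have h6 := hs.two_le
  interval_cases e <;> first
    | omega
    | (interval_cases s <;> revert h3 h4 hs <;> norm_num)

private theorem cn_exp9 (s d : ℕ) (hs : s.Prime) (h : s ^ d ∣ 9 ^ 2) : d ≤ 4 := by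
  by_contra hd
  have h3 : s ^ 5 ∣ 9 ^ 2 := (pow_dvd_pow s (by omega)).trans h
  have h4 : s ∣ 9 := hs.dvd_of_dvd_pow ((dvd_pow_self s (by norm_num)).trans h3)
  have h5 : s ∣ 3 ^ 2 := by norm_num; exact h4
  have h6 : s = 3 := (Nat.prime_dvd_prime_iff_eq hs Nat.prime_three).1 (hs.dvd_of_dvd_pow h5)
  rw [h6] at h3
  revert h3
  norm_num

/-- The number of the elements of prime order in the centralizer of `U`. -/
theorem pe_cnt (h : QP ρ U) (hs : Group.IsSolvable L) (ho : ¬ 2 ∣ Nat.card L) {E : Subgroup L}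
    {n : ℕ} {M : Fin n → Subgroup L} (hE : SE U E n M) (hn : 0 < n) (e : ℕ)
    (he : U.relIndex E = e ^ 2) :
    4 * Nat.card {x : L // Pe U x ∧ ∀ u ∈ U, x * u = u * x} ≤ e ^ 8 ∧
      (e ≤ 9 → Nat.card {x : L // Pe U x ∧ ∀ u ∈ U, x * u = u * x} ≤ e ^ 4) := by
  have he2 := cn_odd ho e he
  have he0 : 0 < e := by
    rcases Nat.eq_zero_or_pos e with h0 | h0
    · exact absurd ⟨0, by rw [h0]⟩ he2
    · exact h0
  constructor
  · have h1 := cs_ob hs h.ab.nor hE hn (U.relIndex E) (ob _) le_rfl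
    have h2 := cn_cos h hE e he (Subgroup.centralizer (U : Set L)) (by
      intro x _ hx
      rw [Subgroup.mem_centralizer_iff]
      intro u hu
      exact (hx u hu).symm)
    rw [he] at h1
    calc 4 * Nat.card {x : L // Pe U x ∧ ∀ u ∈ U, x * u = u * x}
        ≤ 4 * (e ^ 2 * E.relIndex (Subgroup.centralizer (U : Set L))) :=
          Nat.mul_le_mul_left _ h2
      _ = e ^ 2 * (4 * E.relIndex (Subgroup.centralizer (U : Set L))) := by ring
      _ ≤ e ^ 2 * (e ^ 2) ^ 3 := Nat.mul_le_mul_left _ h1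
      _ = e ^ 8 := by ring
  · intro he9
    have hdv : ∀ i, U.relIndex (M i) ∣ e ^ 2 := by
      intro i
      rw [← he, hE.card]
      exact Finset.dvd_prod_of_mem _ (Finset.mem_univ i)
    have key : ∃ D : Subgroup L, E.relIndex D ≤ U.relIndex E ∧
        ∀ x, Pe U x → (∀ u ∈ U, x * u = u * x) → x ∈ D := by
      rcases Nat.lt_or_ge e 9 with he8 | he8
      · obtain ⟨D, -, hD1, hD2⟩ := cs_zl hs h.ab.nor hE ho 2 (by norm_num) (by
          intro i s d hs hi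
          exact cn_exp e s d he8 he0 he2 hs (hi ▸ hdv i))
        refine ⟨D, hD1, ?_⟩
        rintro x ⟨hx1, l, hl, hl3, hlU, hxl⟩ hxu
        exact hD2 l x hl hl3 (by omega) hxu hxl
      · have he9' : e = 9 := by omega
        obtain ⟨D, -, hD1, hD2⟩ := cs_zl hs h.ab.nor hE ho 4 (by norm_num) (by
          intro i s d hs hi
          have h3 := hdv i
          rw [hi, he9'] at h3
          exact cn_exp9 s d hs h3)
        refine ⟨D, hD1, ?_⟩
        rintro x ⟨hx1, l, hl, hl3, hlU, hxl⟩ hxu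
        refine hD2 l x hl hl3 ?_ hxu hxl
        have h3 : l ≠ 3 := by
          intro h3
          apply hlU
          rw [h3]
          exact cn_dvd h hE e he 3 Nat.prime_three (by rw [he9']; norm_num)
        have h4 : l ≠ 4 := by
          intro h4
          rw [h4] at hl
          norm_num at hl
        omega
    obtain ⟨D, hD1, hD2⟩ := key
    have h2 := cn_cos h hE e he D hD2
    rw [he] at hD1
    calc Nat.card {x : L // Pe U x ∧ ∀ u ∈ U, x * u = u * x}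
        ≤ e ^ 2 * E.relIndex D := h2
      _ ≤ e ^ 2 * e ^ 2 := Nat.mul_le_mul_left _ hD1
      _ = e ^ 4 := by ring

/-- Double counting. -/
private theorem cn_dbl (h : QP ρ U) {E : Subgroup L} {n : ℕ} {M : Fin n → Subgroup L}
    (hE : SE U E n M) (e : ℕ) (he : U.relIndex E = e ^ 2) (c : ℕ)
    (hc : ∀ l : ℕ, l.Prime → 3 ≤ l → ¬ l ∣ Nat.card U → c + 1 ≤ l) :
    c * Nat.card {w : W // ∃ x : L, Pe U x ∧ (∀ u ∈ U, x * u = u * x) ∧ ρ x w = w} ≤
      Nat.card {x : L // Pe U x ∧ ∀ u ∈ U, x * u = u * x} * Nat.sqrt (Nat.card W) := by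
  classical
  haveI := Fintype.ofFinite L
  haveI := Fintype.ofFinite W
  have h1 : Nat.card {x : L // Pe U x ∧ ∀ u ∈ U, x * u = u * x} =
      (Finset.univ.filter fun x : L => Pe U x ∧ ∀ u ∈ U, x * u = u * x).card := by
    rw [Nat.card_eq_fintype_card, Fintype.card_subtype]
  have h2 : Nat.card {w : W // ∃ x : L, Pe U x ∧ (∀ u ∈ U, x * u = u * x) ∧ ρ x w = w} =
      (Finset.univ.filter fun w : W =>
        ∃ x : L, Pe U x ∧ (∀ u ∈ U, x * u = u * x) ∧ ρ x w = w).card := by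
    rw [Nat.card_eq_fintype_card, Fintype.card_subtype]
  rw [h1, h2, mul_comm c]
  refine Finset.card_mul_le_card_mul (fun (w : W) (x : L) => ρ x w = w) ?_ ?_
  · intro w hw
    obtain ⟨-, x, ⟨hx1, l, hl, hl3, hlU, hxl⟩, hxu, hxw⟩ := Finset.mem_filter.1 hw
    have hcl := hc l hl hl3 hlU
    have hord : orderOf x = l := by
      haveI : Fact l.Prime := ⟨hl⟩
      exact orderOf_eq_prime hxl hx1
    have hpw : ∀ i : ℕ, ρ (x ^ i) w = w := by
      intro i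
      induction i with
      | zero => rw [pow_zero, map_one]; rfl
      | succ i ih => rw [pow_succ, map_mul, Module.End.mul_apply, hxw, ih]
    have hpu : ∀ i : ℕ, ∀ u ∈ U, x ^ i * u = u * x ^ i := fun i u hu =>
      Commute.pow_left (show Commute x u from hxu u hu) i
    have h3 : ((Finset.range c).image fun i => x ^ (i + 1)) ⊆
        Finset.bipartiteAbove (fun (w : W) (x : L) => ρ x w = w)
          (Finset.univ.filter fun x : L => Pe U x ∧ ∀ u ∈ U, x * u = u * x) w := by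
      intro y hy
      obtain ⟨i, hi, rfl⟩ := Finset.mem_image.1 hy
      rw [Finset.mem_range] at hi
      rw [Finset.mem_bipartiteAbove, Finset.mem_filter]
      refine ⟨⟨Finset.mem_univ _, ⟨?_, l, hl, hl3, hlU, ?_⟩, hpu _⟩, hpw _⟩
      · intro h0
        have h4 := Nat.le_of_dvd (Nat.succ_pos i) (orderOf_dvd_of_pow_eq_one h0)
        omega
      · rw [← pow_mul, mul_comm, pow_mul, hxl, one_pow]
    have h4 : ((Finset.range c).image fun i => x ^ (i + 1)).card = c := by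
      rw [Finset.card_image_of_injOn, Finset.card_range]
      intro i hi j hj hij
      rw [Finset.coe_range, Set.mem_Iio] at hi hj
      have hij' : x ^ (i + 1) = x ^ (j + 1) := hij
      have h5 := pow_injOn_Iio_orderOf (x := x) (show i + 1 ∈ Set.Iio (orderOf x) by
        rw [Set.mem_Iio]; omega) (show j + 1 ∈ Set.Iio (orderOf x) by
        rw [Set.mem_Iio]; omega) hij'
      omega
    calc c = _ := h4.symm
      _ ≤ _ := Finset.card_le_card h3
  · intro x hx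
    obtain ⟨-, ⟨hx1, l, hl, hl3, hlU, hxl⟩, hxu⟩ := Finset.mem_filter.1 hx
    have h3 := fix_half h hE l hl (by omega) hlU x hxu hxl
      (cn_notE h hE e he l hl hlU x hx1 hxl)
    rw [Nat.le_sqrt']
    refine le_trans (Nat.pow_le_pow_left ?_ 2) h3
    rw [Nat.card_eq_fintype_card, Fintype.card_subtype]
    apply Finset.card_le_card
    intro w hw
    rw [Finset.mem_bipartiteBelow] at hw
    exact Finset.mem_filter.2 ⟨Finset.mem_univ _, hw.2⟩

/-- The vectors which are fixed by an element of prime order in the centralizer of `U`. -/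
theorem bad_cen (h : QP ρ U) (hs : Group.IsSolvable L) (ho : ¬ 2 ∣ Nat.card L) {E : Subgroup L}
    {n : ℕ} {M : Fin n → Subgroup L} (hE : SE U E n M) (hn : 0 < n) (e : ℕ)
    (he : U.relIndex E = e ^ 2) :
    (e < 5 → Nat.card {w : W // ∃ x : L, Pe U x ∧ (∀ u ∈ U, x * u = u * x) ∧ ρ x w = w} = 0) ∧
    (e < 9 → 2 * Nat.card {w : W // ∃ x : L, Pe U x ∧ (∀ u ∈ U, x * u = u * x) ∧ ρ x w = w}
      ≤ e ^ 4 * Nat.sqrt (Nat.card W)) ∧
    (e = 9 → 4 * Nat.card {w : W // ∃ x : L, Pe U x ∧ (∀ u ∈ U, x * u = u * x) ∧ ρ x w = w}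
      ≤ e ^ 4 * Nat.sqrt (Nat.card W)) ∧
    8 * Nat.card {w : W // ∃ x : L, Pe U x ∧ (∀ u ∈ U, x * u = u * x) ∧ ρ x w = w}
      ≤ e ^ 8 * Nat.sqrt (Nat.card W) := by
  have he2 := cn_odd ho e he
  have he0 : 0 < e := by
    rcases Nat.eq_zero_or_pos e with h0 | h0
    · exact absurd ⟨0, by rw [h0]⟩ he2
    · exact h0
  obtain ⟨hc1, hc2⟩ := pe_cnt h hs ho hE hn e he
  have hd2 := cn_dbl h hE e he 2 (fun l _ hl3 _ => hl3)
  refine ⟨?_, ?_, ?_, ?_⟩
  · intro he5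
    rw [Nat.card_eq_zero]
    left
    constructor
    rintro ⟨w, x, ⟨hx1, l, hl, hl3, hlU, hxl⟩, hxu, -⟩
    have hle : ¬ l ∣ e := fun hle => hlU (cn_dvd h hE e he l hl hle)
    obtain ⟨s, k, hsp, hk, hske, hls⟩ := prm_act (qp_cyc h) hE e he l hl hle x hxu hxl
      (cn_notE h hE e he l hl hlU x hx1 hxl)
    exact zl2_three e l s k he0 (by omega) he2 hl hl3 hsp hk hske hls
  · intro he9
    exact hd2.trans (Nat.mul_le_mul_right _ (hc2 (by omega)))
  · intro he9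
    refine (cn_dbl h hE e he 4 ?_).trans (Nat.mul_le_mul_right _ (hc2 (by omega)))
    intro l hl hl3 hlU
    have h3 : l ≠ 3 := by
      intro h3
      apply hlU
      rw [h3]
      exact cn_dvd h hE e he 3 Nat.prime_three (by rw [he9]; norm_num)
    have h4 : l ≠ 4 := by
      intro h4
      rw [h4] at hl
      norm_num at hl
    omega
  · calc 8 * Nat.card {w : W // ∃ x : L, Pe U x ∧ (∀ u ∈ U, x * u = u * x) ∧ ρ x w = w}
        = 4 * (2 * Nat.card {w : W // ∃ x : L, Pe U x ∧ (∀ u ∈ U, x * u = u * x) ∧ ρ x w = w}) := by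
          ring
      _ ≤ 4 * (Nat.card {x : L // Pe U x ∧ ∀ u ∈ U, x * u = u * x} * Nat.sqrt (Nat.card W)) :=
          Nat.mul_le_mul_left _ hd2
      _ = 4 * Nat.card {x : L // Pe U x ∧ ∀ u ∈ U, x * u = u * x} * Nat.sqrt (Nat.card W) := by
          ring
      _ ≤ e ^ 8 * Nat.sqrt (Nat.card W) := Nat.mul_le_mul_right _ hc1

omit [Finite W] [Nontrivial W] [Fact p.Prime] [Module (ZMod p) W] [AddCommGroup W] in
private theorem cn3_nor (hU : Ab U) : (Subgroup.centralizer (U : Set L)).Normal := by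
  haveI := hU.nor
  infer_instance

private theorem cn3_ndvd (hU : Ab U) (l : ℕ) (hl : l.Prime) (x : L) (hx : x ^ l = 1)
    (hxc : x ∉ Subgroup.centralizer (U : Set L)) :
    l ∣ (Subgroup.centralizer (U : Set L)).index := by
  haveI := cn3_nor hU
  have h1 : (QuotientGroup.mk x : L ⧸ Subgroup.centralizer (U : Set L)) ≠ 1 := by
    intro h
    exact hxc ((QuotientGroup.eq_one_iff x).mp h)
  have h2 : (QuotientGroup.mk x : L ⧸ Subgroup.centralizer (U : Set L)) ^ l = 1 := by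
    rw [← QuotientGroup.mk_pow, hx]
    rfl
  have h4 : orderOf (QuotientGroup.mk x : L ⧸ Subgroup.centralizer (U : Set L)) = l := by
    haveI : Fact l.Prime := ⟨hl⟩
    exact orderOf_eq_prime h2 h1
  rw [Subgroup.index_eq_card, ← h4]
  exact orderOf_dvd_natCard _

private theorem cn3_card (h : QP ρ U) (hs : Group.IsSolvable L) (ho : ¬ 2 ∣ Nat.card L)
    (hp3 : 3 ≤ p) {E : Subgroup L} {n : ℕ}
    {M : Fin n → Subgroup L} (hE : SE U E n M) (hn : 0 < n) (e a : ℕ)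
    (he : U.relIndex E = e ^ 2) (hU : Nat.card U ∣ p ^ a - 1) (ha : 0 < a)
    (hC : (Subgroup.centralizer (U : Set L)).index ∣ a) :
    8 * Nat.card L ≤ a * (p ^ a - 1) * e ^ 8 := by
  haveI := h.ab.nor
  have h1 := cs_ob hs h.ab.nor hE hn (U.relIndex E) (ob _) le_rfl
  have hEC : E ≤ Subgroup.centralizer (U : Set L) := by
    intro x hx
    rw [Subgroup.mem_centralizer_iff]
    intro u hu
    exact (hE.cU x hx u hu).symm
  have h2 : Nat.card L = Nat.card U * (U.relIndex E * (E.relIndex (Subgroup.centralizer (U : Set L)) *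
      (Subgroup.centralizer (U : Set L)).index)) := by
    rw [Subgroup.relIndex_mul_index hEC, Subgroup.relIndex_mul_index hE.UE, Subgroup.card_mul_index]
  have hp : 2 ≤ p := (Fact.out : p.Prime).two_le
  have hpo : Odd p := (Fact.out : p.Prime).odd_of_ne_two (by omega)
  have hpa : 0 < p ^ a - 1 := by
    have : 2 ^ 1 ≤ p ^ a := (Nat.pow_le_pow_left hp 1).trans
      (Nat.pow_le_pow_right (by omega) ha)
    omega
  have h3 : 2 * Nat.card U ≤ p ^ a - 1 := by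
    have hoU : ¬ 2 ∣ Nat.card U := fun h2 => ho (h2.trans (Subgroup.card_subgroup_dvd_card U))
    have h5 : Nat.Coprime 2 (Nat.card U) := (Nat.Prime.coprime_iff_not_dvd Nat.prime_two).2 hoU
    have h6 : 2 ∣ p ^ a - 1 := by
      have h7 : Odd (p ^ a) := hpo.pow
      obtain ⟨k, hk⟩ := h7
      exact ⟨k, by omega⟩
    exact Nat.le_of_dvd hpa (Nat.Coprime.mul_dvd_of_dvd_of_dvd h5 h6 hU)
  have h4 : (Subgroup.centralizer (U : Set L)).index ≤ a := Nat.le_of_dvd ha hC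
  rw [he] at h1 h2
  rw [h2]
  calc 8 * (Nat.card U * (e ^ 2 * (E.relIndex (Subgroup.centralizer (U : Set L)) *
      (Subgroup.centralizer (U : Set L)).index)))
      = 2 * Nat.card U * (e ^ 2 * ((4 * E.relIndex (Subgroup.centralizer (U : Set L))) *
      (Subgroup.centralizer (U : Set L)).index)) := by ring
    _ ≤ (p ^ a - 1) * (e ^ 2 * ((e ^ 2) ^ 3 * a)) :=
        Nat.mul_le_mul h3 (Nat.mul_le_mul_left _ (Nat.mul_le_mul h1 h4))
    _ = a * (p ^ a - 1) * e ^ 8 := by ring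

private theorem cn3_fix (P : L → Prop) (t : ℕ)
    (ht : ∀ x, P x → Nat.card {w : W // ρ x w = w} ≤ t) :
    Nat.card {w : W // ∃ x : L, P x ∧ ρ x w = w} ≤ Nat.card L * t := by
  classical
  haveI := Fintype.ofFinite L
  haveI := Fintype.ofFinite W
  have h1 : Nat.card {w : W // ∃ x : L, P x ∧ ρ x w = w} =
      (Finset.univ.filter fun w : W => ∃ x : L, P x ∧ ρ x w = w).card := by
    rw [Nat.card_eq_fintype_card, Fintype.card_subtype]
  have h2 : (Finset.univ.filter fun w : W => ∃ x : L, P x ∧ ρ x w = w) ⊆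
      (Finset.univ.filter P).biUnion fun x : L => Finset.univ.filter fun w : W => ρ x w = w := by
    intro w hw
    rw [Finset.mem_filter] at hw
    obtain ⟨-, x, hx, hw⟩ := hw
    rw [Finset.mem_biUnion]
    exact ⟨x, Finset.mem_filter.mpr ⟨Finset.mem_univ _, hx⟩,
      Finset.mem_filter.mpr ⟨Finset.mem_univ _, hw⟩⟩
  rw [h1]
  calc (Finset.univ.filter fun w : W => ∃ x : L, P x ∧ ρ x w = w).card
      ≤ ((Finset.univ.filter P).biUnion
        fun x : L => Finset.univ.filter fun w : W => ρ x w = w).card := Finset.card_le_card h2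
    _ ≤ (Finset.univ.filter P).card * t := by
        apply Finset.card_biUnion_le_card_mul
        intro x hx
        rw [Finset.mem_filter] at hx
        have h3 := ht x hx.2
        rwa [Nat.card_eq_fintype_card, Fintype.card_subtype] at h3
    _ ≤ Nat.card L * t := by
        apply Nat.mul_le_mul_right
        rw [Nat.card_eq_fintype_card]
        exact Finset.card_le_univ _

private theorem cn3_t (V k : ℕ) (hk : 0 < k) :
    ∃ t : ℕ, t ^ k ≤ V ∧ ∀ s : ℕ, s ^ k ≤ V → s ≤ t := by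
  refine ⟨Nat.findGreatest (fun s => s ^ k ≤ V) V, ?_, ?_⟩
  · exact Nat.findGreatest_spec (P := fun s => s ^ k ≤ V) (m := 0) (Nat.zero_le _)
      (by rw [zero_pow hk.ne']; exact Nat.zero_le _)
  · intro s hs2
    exact Nat.le_findGreatest ((Nat.le_self_pow hk.ne' s).trans hs2) hs2

/-- The vectors which are fixed by an element of prime order outside the centralizer. -/
theorem bad_gal (h : QP ρ U) (hs : Group.IsSolvable L) (ho : ¬ 2 ∣ Nat.card L) (hp3 : 3 ≤ p)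
    {E : Subgroup L} {n : ℕ}
    {M : Fin n → Subgroup L} (hE : SE U E n M) (hn : 0 < n) (e a : ℕ)
    (he : U.relIndex E = e ^ 2) (ha : Nat.card (AA ρ U) = p ^ a) :
    ((∀ l : ℕ, l.Prime → 3 ≤ l → l ∣ a → l ∣ Nat.card U) →
      Nat.card {w : W // ∃ x : L, Pe U x ∧ (∃ u ∈ U, x * u ≠ u * x) ∧ ρ x w = w} = 0) ∧
    ∃ t : ℕ, t ^ 3 ≤ Nat.card W ∧ (3 ∣ Nat.card U → t ^ 5 ≤ Nat.card W) ∧
      8 * Nat.card {w : W // ∃ x : L, Pe U x ∧ (∃ u ∈ U, x * u ≠ u * x) ∧ ρ x w = w} ≤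
        a * (p ^ a - 1) * e ^ 8 * t := by
  obtain ⟨b, hb, hU, hC, hAA, -, hfix⟩ := qp_gal h
  have hp : 2 ≤ p := (Fact.out : p.Prime).two_le
  have hab : b = a := Nat.pow_right_injective hp (hAA.symm.trans ha)
  subst hab
  have hnc : ∀ x : L, (∃ u ∈ U, x * u ≠ u * x) → x ∉ Subgroup.centralizer (U : Set L) := by
    rintro x ⟨u, hu, hxu⟩ hx
    rw [Subgroup.mem_centralizer_iff] at hx
    exact hxu (hx u hu).symm
  constructor
  · intro hb10
    rw [Nat.card_eq_zero]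
    left
    constructor
    rintro ⟨w, x, ⟨hx1, l, hl, hl3, hlU, hxl⟩, hxu, -⟩
    exact hlU (hb10 l hl hl3 ((cn3_ndvd h.ab l hl x hxl (hnc x hxu)).trans hC))
  · have hW : 0 < Nat.card W := Nat.card_pos
    obtain ⟨k, hk3, hk5, hkl⟩ : ∃ k : ℕ, 3 ≤ k ∧ (3 ∣ Nat.card U → 5 ≤ k) ∧
        ∀ l : ℕ, l.Prime → 3 ≤ l → ¬ l ∣ Nat.card U → k ≤ l := by
      by_cases h3 : 3 ∣ Nat.card U
      · refine ⟨5, by norm_num, fun _ => le_rfl, ?_⟩
        intro l hl hl3 hlU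
        have h4 : l ≠ 3 := fun h4 => hlU (h4 ▸ h3)
        have h5 : l ≠ 4 := by
          intro h5
          rw [h5] at hl
          norm_num at hl
        omega
      · exact ⟨3, le_rfl, fun h4 => absurd h4 h3, fun l _ hl3 _ => hl3⟩
    obtain ⟨t, ht, ht2⟩ := cn3_t (Nat.card W) k (by omega)
    have hpt : ∀ m : ℕ, m ≤ k → 0 < m → t ^ m ≤ Nat.card W := by
      intro m hm hm0
      rcases Nat.eq_zero_or_pos t with h0 | h0
      · rw [h0, zero_pow hm0.ne']; exact Nat.zero_le _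
      · exact (Nat.pow_le_pow_right h0 hm).trans ht
    refine ⟨t, hpt 3 hk3 (by norm_num), fun h3 => hpt 5 (hk5 h3) (by norm_num), ?_⟩
    have h1 : Nat.card {w : W // ∃ x : L, (Pe U x ∧ ∃ u ∈ U, x * u ≠ u * x) ∧ ρ x w = w} ≤
        Nat.card L * t := by
      apply cn3_fix
      rintro x ⟨⟨hx1, l, hl, hl3, hlU, hxl⟩, hxu⟩
      apply ht2
      refine le_trans (Nat.pow_le_pow_right ?_ (hkl l hl hl3 hlU)) (hfix l x hl hxl (hnc x hxu))
      haveI : Nonempty {w : W // ρ x w = w} := ⟨⟨0, map_zero _⟩⟩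
      exact Nat.card_pos
    have h2 : Nat.card {w : W // ∃ x : L, Pe U x ∧ (∃ u ∈ U, x * u ≠ u * x) ∧ ρ x w = w} =
        Nat.card {w : W // ∃ x : L, (Pe U x ∧ ∃ u ∈ U, x * u ≠ u * x) ∧ ρ x w = w} := by
      apply Nat.card_congr
      apply Equiv.subtypeEquivRight
      intro w
      constructor
      · rintro ⟨x, h1, h2, h3⟩
        exact ⟨x, ⟨h1, h2⟩, h3⟩
      · rintro ⟨x, ⟨h1, h2⟩, h3⟩
        exact ⟨x, h1, h2, h3⟩
    rw [h2]
    calc 8 * Nat.card {w : W // ∃ x : L, (Pe U x ∧ ∃ u ∈ U, x * u ≠ u * x) ∧ ρ x w = w}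
        ≤ 8 * (Nat.card L * t) := Nat.mul_le_mul_left 8 h1
      _ = 8 * Nat.card L * t := by ring
      _ ≤ b * (p ^ b - 1) * e ^ 8 * t :=
        Nat.mul_le_mul_right t (cn3_card h hs ho hp3 hE hn e b he hU hb hC)

/-- From `c * b ≤ x * r`, `x + c ≤ c * y`, `y ≤ r`, `r * r ≤ V`, `2 ≤ r`. -/
private theorem cn4_g (c b x y r V : ℕ) (hc : 0 < c) (h1 : c * b ≤ x * r) (h2 : x + c ≤ c * y)
    (h3 : y ≤ r) (h4 : r * r ≤ V) (h5 : 2 ≤ r) : b + 1 < V := by
  have h6 : (x + c) * r ≤ c * y * r := Nat.mul_le_mul_right r h2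
  have h7 : c * y * r ≤ c * (r * r) := by
    rw [mul_assoc]
    exact Nat.mul_le_mul_left c (Nat.mul_le_mul_right r h3)
  have h8 : c * (r * r) ≤ c * V := Nat.mul_le_mul_left c h4
  have h9 : c * (b + r) ≤ c * V := by
    calc c * (b + r) = c * b + c * r := by ring
      _ ≤ x * r + c * r := by omega
      _ = (x + c) * r := by ring
      _ ≤ c * V := by omega
  have h10 : b + r ≤ V := Nat.le_of_mul_le_mul_left h9 hc
  omega

private theorem cn4_k (k : ℕ) (hk : 13 ≤ k) : (2 * k + 1) ^ 8 + 8 ≤ 8 * 7 ^ k := by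
  induction k, hk using Nat.le_induction with
  | base => norm_num
  | succ n hn ih =>
    have h1 : (27 * (2 * (n + 1) + 1)) ^ 8 ≤ (29 * (2 * n + 1)) ^ 8 :=
      Nat.pow_le_pow_left (by omega) 8
    rw [mul_pow, mul_pow] at h1
    have h2 : (7:ℕ) ^ (n + 1) = 7 ^ n * 7 := pow_succ _ _
    rw [h2]
    norm_num at h1
    omega

private theorem cn4_m (k : ℕ) (hk : 5 ≤ k) : (2 * k + 1) ^ 8 ≤ 20 * 27 ^ k := by
  induction k, hk using Nat.le_induction with
  | base => norm_num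
  | succ n hn ih =>
    have h1 : (11 * (2 * (n + 1) + 1)) ^ 8 ≤ (13 * (2 * n + 1)) ^ 8 :=
      Nat.pow_le_pow_left (by omega) 8
    rw [mul_pow, mul_pow] at h1
    have h2 : (27:ℕ) ^ (n + 1) = 27 ^ n * 27 := pow_succ _ _
    rw [h2]
    norm_num at h1
    omega

/-- `a ^ 3 ≤ 3 ^ a`. -/
private theorem cn4_a3 (a : ℕ) (ha : 3 ≤ a) : a ^ 3 ≤ 3 ^ a := by
  induction a, ha using Nat.le_induction with
  | base => norm_num
  | succ n hn ih =>
    have h1 : (3 * (n + 1)) ^ 3 ≤ (4 * n) ^ 3 := Nat.pow_le_pow_left (by omega) 3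
    rw [mul_pow, mul_pow] at h1
    have h2 : (3:ℕ) ^ (n + 1) = 3 ^ n * 3 := pow_succ _ _
    rw [h2]
    norm_num at h1
    omega

/-- `a ^ 5 ≤ 5 ^ a`. -/
private theorem cn4_a5 (a : ℕ) (ha : 5 ≤ a) : a ^ 5 ≤ 5 ^ a := by
  induction a, ha using Nat.le_induction with
  | base => norm_num
  | succ n hn ih =>
    have h1 : (5 * (n + 1)) ^ 5 ≤ (6 * n) ^ 5 := Nat.pow_le_pow_left (by omega) 5
    rw [mul_pow, mul_pow] at h1
    have h2 : (5:ℕ) ^ (n + 1) = 5 ^ n * 5 := pow_succ _ _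
    rw [h2]
    norm_num at h1
    omega

/-- `e ^ 8 ≤ 5 ^ (4 e - 6)`. -/
private theorem cn4_e5 (e : ℕ) (he : 3 ≤ e) : e ^ 8 ≤ 5 ^ (4 * e - 6) := by
  induction e, he using Nat.le_induction with
  | base => norm_num
  | succ n hn ih =>
    have h1 : (3 * (n + 1)) ^ 8 ≤ (4 * n) ^ 8 := Nat.pow_le_pow_left (by omega) 8
    rw [mul_pow, mul_pow] at h1
    have h2 : (5:ℕ) ^ (4 * (n + 1) - 6) = 5 ^ (4 * n - 6) * 625 := by
      rw [show 4 * (n + 1) - 6 = 4 * n - 6 + 4 by omega, pow_add]; norm_num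
    rw [h2]
    norm_num at h1
    omega

/-- `e ^ 8 ≤ 2 * 3 ^ (2 e - 4)`. -/
private theorem cn4_e3 (e : ℕ) (he : 11 ≤ e) : e ^ 8 ≤ 2 * 3 ^ (2 * e - 4) := by
  induction e, he using Nat.le_induction with
  | base => norm_num
  | succ n hn ih =>
    have h1 : (11 * (n + 1)) ^ 8 ≤ (12 * n) ^ 8 := Nat.pow_le_pow_left (by omega) 8
    rw [mul_pow, mul_pow] at h1
    have h2 : (3:ℕ) ^ (2 * (n + 1) - 4) = 3 ^ (2 * n - 4) * 9 := by
      rw [show 2 * (n + 1) - 4 = 2 * n - 4 + 2 by omega, pow_add]; norm_num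
    rw [h2]
    norm_num at h1
    omega

/-- Case `3 ∣ e`. -/
private theorem cn4_h5 (a e p : ℕ) (ha : 5 ≤ a) (he : 3 ≤ e) (hp : 5 ≤ p) :
    (a * e ^ 8) ^ 5 * (p ^ a) ^ 5 ≤ (p ^ a) ^ (4 * e) := by
  have h1 := cn4_a5 a ha
  have h2 := cn4_e5 e he
  have h3 : (e ^ 8) ^ 5 ≤ (5 ^ (4 * e - 6)) ^ a :=
    (Nat.pow_le_pow_left h2 5).trans (Nat.pow_le_pow_right (by positivity) ha)
  have h4 : (a * e ^ 8) ^ 5 ≤ (p ^ a) ^ (4 * e - 5) := by
    calc (a * e ^ 8) ^ 5 = a ^ 5 * (e ^ 8) ^ 5 := mul_pow _ _ _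
      _ ≤ 5 ^ a * (5 ^ (4 * e - 6)) ^ a := Nat.mul_le_mul h1 h3
      _ = (5 ^ a) ^ (4 * e - 5) := by
        rw [← mul_pow, ← pow_mul, ← pow_succ', ← pow_mul, show 4 * e - 6 + 1 = 4 * e - 5 by omega,
          mul_comm]
      _ ≤ (p ^ a) ^ (4 * e - 5) := Nat.pow_le_pow_left (Nat.pow_le_pow_left hp a) _
  calc (a * e ^ 8) ^ 5 * (p ^ a) ^ 5 ≤ (p ^ a) ^ (4 * e - 5) * (p ^ a) ^ 5 :=
        Nat.mul_le_mul_right _ h4
    _ = (p ^ a) ^ (4 * e) := by rw [← pow_add]; congr 1; omega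

/-- Case `¬ 3 ∣ e`, `e ≥ 11`. -/
private theorem cn4_h3 (a e p : ℕ) (ha : 3 ≤ a) (he : 11 ≤ e) (hp : 3 ≤ p) :
    (a * e ^ 8) ^ 3 ≤ 8 * (p ^ a) ^ (2 * e - 3) := by
  have h1 := cn4_a3 a ha
  have h2 := cn4_e3 e he
  have h3 : (e ^ 8) ^ 3 ≤ 8 * (3 ^ (2 * e - 4)) ^ a := by
    calc (e ^ 8) ^ 3 ≤ (2 * 3 ^ (2 * e - 4)) ^ 3 := Nat.pow_le_pow_left h2 3
      _ = 8 * (3 ^ (2 * e - 4)) ^ 3 := by rw [mul_pow]; norm_num
      _ ≤ 8 * (3 ^ (2 * e - 4)) ^ a :=
        Nat.mul_le_mul_left 8 (Nat.pow_le_pow_right (by positivity) ha)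
  calc (a * e ^ 8) ^ 3 = a ^ 3 * (e ^ 8) ^ 3 := mul_pow _ _ _
    _ ≤ 3 ^ a * (8 * (3 ^ (2 * e - 4)) ^ a) := Nat.mul_le_mul h1 h3
    _ = 8 * (3 ^ a * (3 ^ (2 * e - 4)) ^ a) := by ring
    _ = 8 * (3 ^ a) ^ (2 * e - 3) := by
      rw [← mul_pow, ← pow_mul 3 a, ← pow_succ', ← pow_mul, show 2 * e - 4 + 1 = 2 * e - 3 by omega,
        mul_comm a]
    _ ≤ 8 * (p ^ a) ^ (2 * e - 3) :=
      Nat.mul_le_mul_left 8 (Nat.pow_le_pow_left (Nat.pow_le_pow_left hp a) _)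

private theorem cn4_small (l a : ℕ) (hl : l.Prime) (hl3 : 3 ≤ l) (ha : 0 < a) (hla : l ∣ a)
    (ha5 : a ≤ 5) : (a = 3 ∧ l = 3) ∨ (a = 5 ∧ l = 5) := by
  have h1 := Nat.le_of_dvd ha hla
  interval_cases a <;> interval_cases l <;> first
    | omega
    | (exfalso; revert hl; norm_num; done)
    | (exfalso; omega)
    | simp

private theorem cn4_five (a p : ℕ) (hp : p.Prime) (hp3 : 3 ≤ p) (h3 : a = 3 ∨ 6 ≤ a)
    (hd : 5 ∣ p ^ a - 1) : (a * 5 ^ 8) ^ 3 ≤ 8 * (p ^ a) ^ (2 * 5 - 3) := by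
  rcases h3 with rfl | h6
  · have hp11 : 11 ≤ p := by
      by_contra hlt
      have h10 : p ≤ 10 := by omega
      interval_cases p <;> revert hp hd <;> norm_num
    calc (3 * 5 ^ 8) ^ 3 ≤ 8 * (11 ^ 3) ^ (2 * 5 - 3) := by norm_num
      _ ≤ 8 * (p ^ 3) ^ (2 * 5 - 3) :=
        Nat.mul_le_mul_left 8 (Nat.pow_le_pow_left (Nat.pow_le_pow_left hp11 3) _)
  · have h1 := cn4_a3 a (by omega)
    have h2 : (5 ^ 8) ^ 3 ≤ (3 ^ 6) ^ a :=
      le_trans (by norm_num) (Nat.pow_le_pow_right (by norm_num) h6 : ((3:ℕ) ^ 6) ^ 6 ≤ (3 ^ 6) ^ a)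
    calc (a * 5 ^ 8) ^ 3 = a ^ 3 * (5 ^ 8) ^ 3 := mul_pow _ _ _
      _ ≤ 3 ^ a * (3 ^ 6) ^ a := Nat.mul_le_mul h1 h2
      _ = (3 ^ a) ^ (2 * 5 - 3) := by
        rw [← mul_pow, ← pow_succ', ← pow_mul, ← pow_mul, mul_comm a]
      _ ≤ (p ^ a) ^ (2 * 5 - 3) := Nat.pow_le_pow_left (Nat.pow_le_pow_left hp3 a) _
      _ ≤ 8 * (p ^ a) ^ (2 * 5 - 3) := Nat.le_mul_of_pos_left _ (by norm_num)

private theorem cn4_seven (a p : ℕ) (hp : p.Prime) (hp3 : 3 ≤ p) (h3 : a = 3 ∨ 5 ≤ a)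
    (hd : 7 ∣ p ^ a - 1) : (a * 7 ^ 8) ^ 3 ≤ 8 * (p ^ a) ^ (2 * 7 - 3) := by
  rcases h3 with rfl | h6
  · have hp11 : 5 ≤ p := by
      by_contra hlt
      have h10 : p ≤ 4 := by omega
      interval_cases p <;> revert hp hd <;> norm_num
    calc (3 * 7 ^ 8) ^ 3 ≤ 8 * (5 ^ 3) ^ (2 * 7 - 3) := by norm_num
      _ ≤ 8 * (p ^ 3) ^ (2 * 7 - 3) :=
        Nat.mul_le_mul_left 8 (Nat.pow_le_pow_left (Nat.pow_le_pow_left hp11 3) _)
  · have h1 := cn4_a3 a (by omega)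
    have h2 : (7 ^ 8) ^ 3 ≤ (3 ^ 10) ^ a :=
      le_trans (by norm_num) (Nat.pow_le_pow_right (by norm_num) h6 :
        ((3:ℕ) ^ 10) ^ 5 ≤ (3 ^ 10) ^ a)
    calc (a * 7 ^ 8) ^ 3 = a ^ 3 * (7 ^ 8) ^ 3 := mul_pow _ _ _
      _ ≤ 3 ^ a * (3 ^ 10) ^ a := Nat.mul_le_mul h1 h2
      _ = (3 ^ a) ^ (2 * 7 - 3) := by
        rw [← mul_pow, ← pow_succ', ← pow_mul, ← pow_mul, mul_comm a]
      _ ≤ (p ^ a) ^ (2 * 7 - 3) := Nat.pow_le_pow_left (Nat.pow_le_pow_left hp3 a) _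
      _ ≤ 8 * (p ^ a) ^ (2 * 7 - 3) := Nat.le_mul_of_pos_left _ (by norm_num)

/-- The bad vectors of the second kind. -/
private theorem cn4_bg (p a e V bg t : ℕ) (hp : p.Prime) (hp3 : 3 ≤ p) (ha : 0 < a) (he : 3 ≤ e)
    (heo : ¬ 2 ∣ e) (hd : ∀ s : ℕ, s.Prime → s ∣ e → s ∣ p ^ a - 1) (hV : (p ^ a) ^ e ≤ V)
    (l : ℕ) (hl : l.Prime) (hl3 : 3 ≤ l) (hla : l ∣ a) (hle : ¬ l ∣ e) (h6 : t ^ 3 ≤ V)
    (h6' : 3 ∣ e → t ^ 5 ≤ V) (h7 : 8 * bg ≤ a * (p ^ a - 1) * e ^ 8 * t) : 4 * bg ≤ V := by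
  have hQ : a * (p ^ a - 1) * e ^ 8 ≤ a * e ^ 8 * p ^ a := by
    calc a * (p ^ a - 1) * e ^ 8 = a * e ^ 8 * (p ^ a - 1) := by ring
      _ ≤ a * e ^ 8 * p ^ a := Nat.mul_le_mul_left _ (Nat.sub_le _ _)
  have h8 : 8 * bg ≤ a * e ^ 8 * p ^ a * t := h7.trans (Nat.mul_le_mul_right t hQ)
  by_cases h3e : 3 ∣ e
  · have hl3' : l ≠ 3 := fun h => hle (h ▸ h3e)
    have ha5 : 5 ≤ a := by
      by_contra hlt
      rcases cn4_small l a hl hl3 ha hla (by omega) with h | h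
      · exact hl3' h.2
      · omega
    have hp5 : 5 ≤ p := by
      have h9 : p ≠ 3 := by
        intro h9
        have h10 := hd 3 Nat.prime_three h3e
        rw [h9] at h10
        have h11 : 3 ∣ 3 ^ a := dvd_pow_self 3 (by omega)
        have h12 : 1 ≤ 3 ^ a := Nat.one_le_pow _ _ (by norm_num)
        omega
      have h10 : p ≠ 4 := by
        intro h10
        rw [h10] at hp
        norm_num at hp
      omega
    have h9 := cn4_h5 a e p ha5 he hp5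
    have h10 : (a * e ^ 8 * p ^ a * t) ^ 5 ≤ V ^ 5 := by
      calc (a * e ^ 8 * p ^ a * t) ^ 5 = (a * e ^ 8) ^ 5 * (p ^ a) ^ 5 * t ^ 5 := by
            rw [mul_pow, mul_pow]
        _ ≤ (p ^ a) ^ (4 * e) * V := Nat.mul_le_mul h9 (h6' h3e)
        _ ≤ V ^ 4 * V := by
          apply Nat.mul_le_mul_right
          rw [mul_comm 4 e, pow_mul]
          exact Nat.pow_le_pow_left hV 4
        _ = V ^ 5 := (pow_succ V 4).symm
    have h11 : a * e ^ 8 * p ^ a * t ≤ V := (Nat.pow_le_pow_iff_left (by norm_num)).1 h10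
    omega
  · have h9 : (a * e ^ 8) ^ 3 ≤ 8 * (p ^ a) ^ (2 * e - 3) := by
      have h5 : e = 5 ∨ e = 7 ∨ 11 ≤ e := by omega
      rcases h5 with rfl | rfl | he11
      · refine cn4_five a p hp hp3 ?_ (hd 5 Nat.prime_five (dvd_refl 5))
        by_contra hc
        rcases cn4_small l a hl hl3 ha hla (by omega) with h | h
        · exact hc (Or.inl h.1)
        · exact hle (by rw [h.2])
      · refine cn4_seven a p hp hp3 ?_ (hd 7 (by norm_num) (dvd_refl 7))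
        by_contra hc
        rcases cn4_small l a hl hl3 ha hla (by omega) with h | h
        · exact hc (Or.inl h.1)
        · exact hc (Or.inr h.1.ge)
      · refine cn4_h3 a e p ?_ he11 hp3
        exact hl3.trans (Nat.le_of_dvd ha hla)
    have h10 : (a * e ^ 8 * p ^ a * t) ^ 3 ≤ (2 * V) ^ 3 := by
      calc (a * e ^ 8 * p ^ a * t) ^ 3 = (a * e ^ 8) ^ 3 * (p ^ a) ^ 3 * t ^ 3 := by
            rw [mul_pow, mul_pow]
        _ ≤ 8 * (p ^ a) ^ (2 * e - 3) * (p ^ a) ^ 3 * V :=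
          Nat.mul_le_mul (Nat.mul_le_mul_right _ h9) h6
        _ = 8 * ((p ^ a) ^ e) ^ 2 * V := by
          rw [mul_assoc 8, ← pow_add, ← pow_mul ((p ^ a)) e 2, show 2 * e - 3 + 3 = e * 2 by omega]
        _ ≤ 8 * V ^ 2 * V := by
          apply Nat.mul_le_mul_right
          exact Nat.mul_le_mul_left 8 (Nat.pow_le_pow_left hV 2)
        _ = (2 * V) ^ 3 := by ring
    have h11 : a * e ^ 8 * p ^ a * t ≤ 2 * V := (Nat.pow_le_pow_iff_left (by norm_num)).1 h10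
    omega

private theorem cn4_q (p a s : ℕ) (hpo : (p ^ a) % 2 = 1) (hQ3 : 3 ≤ p ^ a) (hs : s.Prime)
    (hs2 : s ≠ 2) (h : s ∣ p ^ a - 1) : 2 * s + 1 ≤ p ^ a := by
  have h1 : 2 ∣ p ^ a - 1 := by omega
  have h2 : 2 * s ∣ p ^ a - 1 := Nat.Coprime.mul_dvd_of_dvd_of_dvd
    ((Nat.coprime_primes Nat.prime_two hs).2 hs2.symm) h1 h
  have h3 := Nat.le_of_dvd (by omega) h2
  omega

/-- Numbers. -/
theorem cn_num (p a e V bk bg t : ℕ) (hp : p.Prime) (hp3 : 3 ≤ p) (ha : 0 < a) (he : 3 ≤ e)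
    (heo : ¬ 2 ∣ e) (hd : ∀ s : ℕ, s.Prime → s ∣ e → s ∣ p ^ a - 1) (hV : (p ^ a) ^ e ≤ V)
    (h1 : e < 5 → bk = 0) (h2 : e < 9 → 2 * bk ≤ e ^ 4 * Nat.sqrt V)
    (h3 : e = 9 → 4 * bk ≤ e ^ 4 * Nat.sqrt V) (h4 : 8 * bk ≤ e ^ 8 * Nat.sqrt V)
    (h5 : (∀ l : ℕ, l.Prime → 3 ≤ l → l ∣ a → l ∣ e) → bg = 0) (h6 : t ^ 3 ≤ V)
    (h6' : 3 ∣ e → t ^ 5 ≤ V) (h7 : 8 * bg ≤ a * (p ^ a - 1) * e ^ 8 * t) :
    bk + bg + 1 < V := by
  have hpo : (p ^ a) % 2 = 1 := by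
    have h8 : Odd (p ^ a) := (hp.odd_of_ne_two (by omega)).pow
    exact Nat.odd_iff.1 h8
  have hQ3 : 3 ≤ p ^ a := hp3.trans (Nat.le_self_pow ha.ne' p)
  set r := Nat.sqrt V with hr
  have hrr : r * r ≤ V := Nat.sqrt_le V
  have hle : ∀ y : ℕ, y * y ≤ V → y ≤ r := fun y hy => Nat.le_sqrt.2 hy
  have hq : ∀ s : ℕ, s.Prime → s ∣ e → 2 * s + 1 ≤ p ^ a := by
    intro s hs hse
    exact cn4_q p a s hpo hQ3 hs (fun h => heo (h ▸ hse)) (hd s hs hse)
  have hV3 : 3 ^ 3 ≤ V := (Nat.pow_le_pow_left hQ3 3).trans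
    ((Nat.pow_le_pow_right (by omega) he).trans hV)
  by_cases hbg : bg = 0
  · rw [hbg, add_zero]
    have hr2 : 2 ≤ r := hle 2 (by omega)
    have hcase : e = 3 ∨ e = 5 ∨ e = 7 ∨ e = 9 ∨ e = 11 ∨ e = 13 ∨ e = 15 ∨ e = 17 ∨ e = 19 ∨
        e = 21 ∨ e = 23 ∨ e = 25 ∨ 27 ≤ e := by omega
    rcases hcase with rfl | rfl | rfl | rfl | rfl | rfl | rfl | rfl | rfl | rfl | rfl | rfl | he27
    · rw [h1 (by norm_num)]
      omega
    · have hQ := hq 5 Nat.prime_five (dvd_refl 5)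
      exact cn4_g 2 bk (5 ^ 4) 401 r V (by norm_num) (h2 (by norm_num)) (by norm_num)
        (hle _ ((by norm_num : 401 * 401 ≤ (2 * 5 + 1) ^ 5).trans
          ((Nat.pow_le_pow_left hQ 5).trans hV))) hrr hr2
    · have hQ := hq 7 (by norm_num) (dvd_refl 7)
      exact cn4_g 2 bk (7 ^ 4) 1202 r V (by norm_num) (h2 (by norm_num)) (by norm_num)
        (hle _ ((by norm_num : 1202 * 1202 ≤ (2 * 7 + 1) ^ 7).trans
          ((Nat.pow_le_pow_left hQ 7).trans hV))) hrr hr2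
    · have hQ := hq 3 Nat.prime_three (by norm_num)
      exact cn4_g 4 bk (9 ^ 4) 1642 r V (by norm_num) (h3 rfl) (by norm_num)
        (hle _ ((by norm_num : 1642 * 1642 ≤ (2 * 3 + 1) ^ 9).trans
          ((Nat.pow_le_pow_left hQ 9).trans hV))) hrr hr2
    · have hQ := hq 11 (by norm_num) (dvd_refl 11)
      exact cn4_g 8 bk (11 ^ 8) 26794862 r V (by norm_num) h4 (by norm_num)
        (hle _ ((by norm_num : 26794862 * 26794862 ≤ (2 * 11 + 1) ^ 11).trans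
          ((Nat.pow_le_pow_left hQ 11).trans hV))) hrr hr2
    · have hQ := hq 13 (by norm_num) (dvd_refl 13)
      exact cn4_g 8 bk (13 ^ 8) 101966342 r V (by norm_num) h4 (by norm_num)
        (hle _ ((by norm_num : 101966342 * 101966342 ≤ (2 * 13 + 1) ^ 13).trans
          ((Nat.pow_le_pow_left hQ 13).trans hV))) hrr hr2
    · have hQ5 := hd 5 (by norm_num) (by norm_num)
      have hQ3' := hd 3 (by norm_num) (by norm_num)
      have hQ : 31 ≤ p ^ a := by omega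
      exact cn4_g 8 bk (15 ^ 8) (31 ^ 7) r V (by norm_num) h4 (by norm_num)
        (hle _ ((by norm_num : 31 ^ 7 * 31 ^ 7 ≤ 31 ^ 15).trans
          ((Nat.pow_le_pow_left hQ 15).trans hV))) hrr hr2
    · have hQ := hq 17 (by norm_num) (dvd_refl 17)
      exact cn4_g 8 bk (17 ^ 8) (35 ^ 8) r V (by norm_num) h4 (by norm_num)
        (hle _ ((by norm_num : 35 ^ 8 * 35 ^ 8 ≤ (2 * 17 + 1) ^ 17).trans
          ((Nat.pow_le_pow_left hQ 17).trans hV))) hrr hr2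
    · have hQ := hq 19 (by norm_num) (dvd_refl 19)
      exact cn4_g 8 bk (19 ^ 8) (39 ^ 9) r V (by norm_num) h4 (by norm_num)
        (hle _ ((by norm_num : 39 ^ 9 * 39 ^ 9 ≤ (2 * 19 + 1) ^ 19).trans
          ((Nat.pow_le_pow_left hQ 19).trans hV))) hrr hr2
    · have hQ := hq 7 (by norm_num) (by norm_num)
      exact cn4_g 8 bk (21 ^ 8) (15 ^ 10) r V (by norm_num) h4 (by norm_num)
        (hle _ ((by norm_num : 15 ^ 10 * 15 ^ 10 ≤ (2 * 7 + 1) ^ 21).trans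
          ((Nat.pow_le_pow_left hQ 21).trans hV))) hrr hr2
    · have hQ := hq 23 (by norm_num) (dvd_refl 23)
      exact cn4_g 8 bk (23 ^ 8) (47 ^ 11) r V (by norm_num) h4 (by norm_num)
        (hle _ ((by norm_num : 47 ^ 11 * 47 ^ 11 ≤ (2 * 23 + 1) ^ 23).trans
          ((Nat.pow_le_pow_left hQ 23).trans hV))) hrr hr2
    · have hQ := hq 5 (by norm_num) (by norm_num)
      exact cn4_g 8 bk (25 ^ 8) (11 ^ 12) r V (by norm_num) h4 (by norm_num)
        (hle _ ((by norm_num : 11 ^ 12 * 11 ^ 12 ≤ (2 * 5 + 1) ^ 25).trans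
          ((Nat.pow_le_pow_left hQ 25).trans hV))) hrr hr2
    · obtain ⟨s, hs, hse⟩ := Nat.exists_prime_and_dvd (n := e) (by omega)
      have hQ := hq s hs hse
      have hs3 : 3 ≤ s := by
        have h8 := hs.two_le
        have h9 : s ≠ 2 := fun h => heo (h ▸ hse)
        omega
      have hQ7 : 7 ≤ p ^ a := by omega
      obtain ⟨k, hk⟩ : ∃ k, e = 2 * k + 1 := ⟨e / 2, by omega⟩
      have h8 := cn4_k k (by omega)
      rw [← hk] at h8
      refine cn4_g 8 bk (e ^ 8) (7 ^ k) r V (by norm_num) h4 h8 (hle _ ?_) hrr hr2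
      calc 7 ^ k * 7 ^ k = 7 ^ (2 * k) := by rw [← pow_add, two_mul]
        _ ≤ 7 ^ e := Nat.pow_le_pow_right (by norm_num) (by omega)
        _ ≤ V := (Nat.pow_le_pow_left hQ7 e).trans hV
  · have hex : ∃ l : ℕ, l.Prime ∧ 3 ≤ l ∧ l ∣ a ∧ ¬ l ∣ e := by
      by_contra hc
      apply hbg
      apply h5
      intro l hl hl3 hla
      by_contra hle
      exact hc ⟨l, hl, hl3, hla, hle⟩
    obtain ⟨l, hl, hl3, hla, hle'⟩ := hex
    have hbg4 := cn4_bg p a e V bg t hp hp3 ha he heo hd hV l hl hl3 hla hle' h6 h6' h7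
    have ha3 : 3 ≤ a := hl3.trans (Nat.le_of_dvd ha hla)
    have hQ27 : 27 ≤ p ^ a := by
      calc 27 = 3 ^ 3 := by norm_num
        _ ≤ 3 ^ a := Nat.pow_le_pow_right (by norm_num) ha3
        _ ≤ p ^ a := Nat.pow_le_pow_left hp3 a
    have hV27 : 27 ^ e ≤ V := (Nat.pow_le_pow_left hQ27 e).trans hV
    have hbk2 : 2 * bk ≤ V := by
      have hcase : e = 3 ∨ e = 5 ∨ e = 7 ∨ e = 9 ∨ 11 ≤ e := by omega
      rcases hcase with rfl | rfl | rfl | rfl | he11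
      · rw [h1 (by norm_num)]
        omega
      · have h8 : 5 ^ 4 ≤ r := hle _ ((by norm_num : 5 ^ 4 * 5 ^ 4 ≤ 27 ^ 5).trans hV27)
        exact (h2 (by norm_num)).trans ((Nat.mul_le_mul_right r h8).trans hrr)
      · have h8 : 7 ^ 4 ≤ r := hle _ ((by norm_num : 7 ^ 4 * 7 ^ 4 ≤ 27 ^ 7).trans hV27)
        exact (h2 (by norm_num)).trans ((Nat.mul_le_mul_right r h8).trans hrr)
      · have h8 : 9 ^ 4 ≤ r := hle _ ((by norm_num : 9 ^ 4 * 9 ^ 4 ≤ 27 ^ 9).trans hV27)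
        have h9 := (h3 rfl).trans ((Nat.mul_le_mul_right r h8).trans hrr)
        omega
      · obtain ⟨k, hk⟩ : ∃ k, e = 2 * k + 1 := ⟨e / 2, by omega⟩
        have h8 := cn4_m k (by omega)
        rw [← hk] at h8
        have h9 : 5 * 27 ^ k ≤ r := by
          apply hle
          calc 5 * 27 ^ k * (5 * 27 ^ k) = 25 * 27 ^ (2 * k) := by
                rw [two_mul, pow_add]; ring
            _ ≤ 27 * 27 ^ (2 * k) := Nat.mul_le_mul_right _ (by norm_num)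
            _ = 27 ^ e := by rw [hk, pow_succ, mul_comm]
            _ ≤ V := hV27
        have h10 : e ^ 8 ≤ 4 * r := by omega
        have h11 : e ^ 8 * r ≤ 4 * r * r := Nat.mul_le_mul_right r h10
        have h12 : 4 * r * r = 4 * (r * r) := by ring
        omega
    omega

/-- A vector which no Sylow subgroup fixes. -/
theorem cn (h : QP ρ U) (hs : Group.IsSolvable L) (ho : ¬ 2 ∣ Nat.card L) (hp3 : 3 ≤ p)
    (hna : ¬ ∀ x y : L, x * y * x⁻¹ * y⁻¹ ∈ U) :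
    ∃ w : W, w ≠ 0 ∧ ∀ r : ℕ, r.Prime → 3 ≤ r → ¬ r ∣ Nat.card U → ∀ R : Sylow r L,
      (∀ x ∈ (R : Subgroup L), ρ x w = w) → ∀ x ∈ (R : Subgroup L), x = 1 := by
  classical
  obtain ⟨E, n, M, hE⟩ := qp_E h hs
  have hcyc := qp_cyc h
  have hprg : Prg U E := ⟨hcyc, hE.UE, hE.cU, hE.com, hE.cen⟩
  obtain ⟨e, he0, he, hep⟩ := sq_ex hprg
  have hex : ∃ x, (∀ u ∈ U, x * u = u * x) ∧ x ∉ U := by
    by_contra hcon
    push Not at hcon
    apply hna
    intro x y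
    apply hcon
    intro u hu
    have h1 := qp_abq h x y
    rw [Subgroup.mem_centralizer_iff] at h1
    exact (h1 u hu).symm
  have hn : 0 < n := hE.pos hex
  have heo := cn_odd ho e he
  have he2 : 3 ≤ e := by
    by_contra hlt
    have h1 : e = 1 := by omega
    rw [h1, one_pow, Subgroup.relIndex_eq_one] at he
    have h2 := hE.mU ⟨0, hn⟩
    exact absurd (le_trans (hE.mE ⟨0, hn⟩) he) (not_le_of_gt h2)
  obtain ⟨a, ha0, hUa, _, hAA, ⟨d, hd0, hWd⟩, _⟩ := qp_gal h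
  have hV : (p ^ a) ^ e ≤ Nat.card W := by
    rw [← hAA]
    exact qp_dim h hE e he
  have hdv : ∀ s : ℕ, s.Prime → s ∣ e → s ∣ p ^ a - 1 := fun s hsp hse =>
    (hep s hsp hse).trans hUa
  obtain ⟨b1, b2, b3, b4⟩ := bad_cen h hs ho hE hn e he
  obtain ⟨g1, t, g2, g2', g3⟩ := bad_gal h hs ho hp3 hE hn e a he hAA
  have key := cn_num p a e (Nat.card W) _ _ t (Fact.out : p.Prime) hp3 ha0 he2 heo hdv hV b1 b2 b3
    b4 (fun hl => g1 fun l hlp hl3 hla => hep l hlp (hl l hlp hl3 hla)) g2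
    (fun h3 => g2' (hep 3 Nat.prime_three h3)) g3
  set A1 : Set W := {w | ∃ x : L, Pe U x ∧ (∀ u ∈ U, x * u = u * x) ∧ ρ x w = w} with hA1
  set A2 : Set W := {w | ∃ x : L, Pe U x ∧ (∃ u ∈ U, x * u ≠ u * x) ∧ ρ x w = w} with hA2
  have hc1 : Nat.card {w : W // ∃ x : L, Pe U x ∧ (∀ u ∈ U, x * u = u * x) ∧ ρ x w = w} =
    A1.ncard := rfl
  have hc2 : Nat.card {w : W // ∃ x : L, Pe U x ∧ (∃ u ∈ U, x * u ≠ u * x) ∧ ρ x w = w} =
    A2.ncard := rfl
  rw [hc1, hc2] at key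
  have hex2 : ∃ w : W, w ∉ (A1 ∪ A2) ∪ {0} := by
    by_contra hcon
    push Not at hcon
    have h1 : (A1 ∪ A2) ∪ {0} = (Set.univ : Set W) := Set.eq_univ_of_forall hcon
    have h2 : ((A1 ∪ A2) ∪ {0}).ncard ≤ A1.ncard + A2.ncard + 1 := by
      refine (Set.ncard_union_le _ _).trans ?_
      rw [Set.ncard_singleton]
      have := Set.ncard_union_le A1 A2
      omega
    rw [h1, Set.ncard_univ] at h2
    omega
  obtain ⟨w, hw⟩ := hex2
  simp only [Set.mem_union, Set.mem_singleton_iff, not_or] at hw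
  refine ⟨w, hw.2, ?_⟩
  intro r hr hr11 hrU R hfix x hx
  have : Fact r.Prime := ⟨hr⟩
  by_contra hx1
  obtain ⟨k, hk⟩ := (IsPGroup.iff_orderOf.mp R.isPGroup') ⟨x, hx⟩
  rw [Subgroup.orderOf_mk] at hk
  have hk0 : k ≠ 0 := by
    intro h0
    rw [h0, pow_zero, orderOf_eq_one_iff] at hk
    exact hx1 hk
  obtain ⟨k, rfl⟩ := Nat.exists_eq_succ_of_ne_zero hk0
  have hy1 : x ^ (r ^ k) ≠ 1 := by
    intro h0
    have h1 := orderOf_dvd_of_pow_eq_one h0
    rw [hk] at h1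
    have h2 := Nat.le_of_dvd (pow_pos hr.pos k) h1
    have h3 : r ^ k < r ^ (k + 1) := Nat.pow_lt_pow_right hr.one_lt (Nat.lt_succ_self k)
    exact absurd h2 (not_le_of_gt h3)
  have hyr : (x ^ (r ^ k)) ^ r = 1 := by
    rw [← pow_mul, ← pow_succ]
    have := pow_orderOf_eq_one x
    rw [hk] at this
    exact this
  have hyR : x ^ (r ^ k) ∈ (R : Subgroup L) := pow_mem hx _
  have hPe : Pe U (x ^ (r ^ k)) := ⟨hy1, r, hr, hr11, hrU, hyr⟩
  by_cases hcu : ∀ u ∈ U, x ^ (r ^ k) * u = u * x ^ (r ^ k)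
  · exact hw.1.1 ⟨_, hPe, hcu, hfix _ hyR⟩
  · push Not at hcu
    exact hw.1.2 ⟨_, hPe, hcu, hfix _ hyR⟩

end

end Pool.Agent.Nao
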