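import Pool.Agent.Nas.Ob

/-! Subsets which no Sylow subgroup of a transitive group of odd order stabilizes. -/

set_option autoImplicit false

namespace Pool.Agent.Nao

open Pool.Agent.Nan Pool.Agent.Nas

section
variable {Y J : Type} [Group Y] [Finite Y] [Finite J] [MulAction Y J]

/-- `Δ` contains `j₀`, `j₁`, and no Sylow `r`-subgroup, `r ≥ 3`, which acts non-trivially, stabilizes it. -/
def Gd (Y : Type) {J : Type} [Group Y] [MulAction Y J] (j₀ j₁ : J) (Δ : Finset J) : Prop :=
  j₀ ∈ Δ ∧ j₁ ∈ Δ ∧ (Nontrivial J → 2 ≤ Δ.card) ∧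
    ∀ r : ℕ, r.Prime → 3 ≤ r → ∀ R : Sylow r Y,
      (∀ x ∈ (R : Subgroup Y), ∀ j ∈ Δ, x • j ∈ Δ) → ∀ x ∈ (R : Subgroup Y), ∀ j : J, x • j = j

omit [Finite Y] in
private theorem pl1_comm (x n : Y) (r s : ℕ) (hr : r.Prime) (hs : s.Prime) (hrs : s ≠ r)
    (hx : x ^ r = 1) (k : ℕ) (hk0 : 0 < k) (hkr : k < r) (c : Y)
    (hc : x ^ k * n * (x ^ k)⁻¹ = n * c) (hcx : Commute c x) (hcs : c ^ s = 1) :
    x * n = n * x := by
  have hck : Commute (x ^ k) c := (hcx.symm).pow_left k
  have hind : ∀ m : ℕ, (x ^ k) ^ m * n * ((x ^ k) ^ m)⁻¹ = n * c ^ m := by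
    intro m
    induction m with
    | zero => simp
    | succ m ih =>
      have h1 : (x ^ k) ^ (m + 1) * n * ((x ^ k) ^ (m + 1))⁻¹ =
          (x ^ k) * ((x ^ k) ^ m * n * ((x ^ k) ^ m)⁻¹) * (x ^ k)⁻¹ := by
        rw [pow_succ' (x ^ k) m]; group
      rw [h1, ih]
      have h2 : (x ^ k) * (n * c ^ m) * (x ^ k)⁻¹ =
          (x ^ k * n * (x ^ k)⁻¹) * ((x ^ k) * c ^ m * (x ^ k)⁻¹) := by group
      have h3 : (x ^ k) * c ^ m * (x ^ k)⁻¹ = c ^ m := by
        have : Commute (x ^ k) (c ^ m) := hck.pow_right m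
        rw [this.eq]; group
      rw [h2, h3, hc, mul_assoc, ← pow_succ']
  have h4 := hind r
  have h5 : (x ^ k) ^ r = 1 := by rw [← pow_mul, mul_comm, pow_mul, hx, one_pow]
  rw [h5] at h4
  have h6 : c ^ r = 1 := by
    have : n * 1 = n * c ^ r := by simpa using h4
    exact (mul_left_cancel this).symm
  have h7 : c = 1 := by
    have h8 := orderOf_dvd_of_pow_eq_one h6
    have h9 := orderOf_dvd_of_pow_eq_one hcs
    have h10 : Nat.Coprime r s := (Nat.coprime_primes hr hs).2 (Ne.symm hrs)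
    exact orderOf_eq_one_iff.1 (Nat.eq_one_of_dvd_coprimes h10 h8 h9)
  have h11 : x ^ k * n = n * x ^ k := by
    rw [h7, mul_one] at hc
    exact mul_inv_eq_iff_eq_mul.1 hc
  have hcop : Nat.Coprime k r := by
    refine ((Nat.Prime.coprime_iff_not_dvd hr).2 ?_).symm
    intro hd
    have := Nat.le_of_dvd hk0 hd
    omega
  obtain ⟨m, -, hm⟩ := Nat.exists_mul_mod_eq_one_of_coprime hcop hr.one_lt
  have h12 : (x ^ k) ^ m = x := by
    rw [← pow_mul, ← Nat.mod_add_div (k * m) r, hm, pow_add, pow_mul, hx, one_pow, mul_one, pow_one]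
  have h13 : Commute (x ^ k) n := h11
  have h14 := h13.pow_left m
  rw [h12] at h14
  exact h14.eq

/-- The number of fixed points of an element divides the degree. -/
private theorem fix_dvd {N : Subgroup Y} (hN : Ab N)
    (htr : ∀ j j' : J, ∃ x ∈ N, x • j = j') (hreg : ∀ x ∈ N, ∀ j : J, x • j = j → x = 1)
    (x : Y) (j₀ : J) (hj₀ : x • j₀ = j₀) :
    Nat.card {j : J // x • j = j} ∣ Nat.card J ∧ Nat.card J = Nat.card N := by
  have hNn : N.Normal := hN.nor
  have hxinv : x⁻¹ • j₀ = j₀ := by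
    conv_lhs => rw [← hj₀]
    rw [inv_smul_smul]
  have hbij : Function.Bijective (fun n : N => (n : Y) • j₀) := by
    constructor
    · intro a b hab
      have h1 : ((b : Y)⁻¹ * (a : Y)) • j₀ = j₀ := by
        rw [mul_smul]
        have : (a : Y) • j₀ = (b : Y) • j₀ := hab
        rw [this, inv_smul_smul]
      have h2 := hreg _ (N.mul_mem (N.inv_mem b.2) a.2) j₀ h1
      exact Subtype.ext (inv_mul_eq_one.1 h2).symm
    · intro j
      obtain ⟨n, hn, hnj⟩ := htr j₀ j
      exact ⟨⟨n, hn⟩, hnj⟩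
  set C : Subgroup N := (Subgroup.centralizer {x}).subgroupOf N with hC
  have hmemC : ∀ n : N, n ∈ C ↔ x * n = n * x := by
    intro n
    rw [hC, Subgroup.mem_subgroupOf, Subgroup.mem_centralizer_singleton_iff]
    exact eq_comm
  have hfixC : ∀ n : N, x • ((n : Y) • j₀) = (n : Y) • j₀ ↔ n ∈ C := by
    intro n
    rw [hmemC]
    constructor
    · intro h1
      have h2 : ((n : Y)⁻¹ * (x * n * x⁻¹)) • j₀ = j₀ := by
        rw [mul_smul, mul_smul, mul_smul, hxinv, h1, inv_smul_smul]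
      have h3 := hreg _ (N.mul_mem (N.inv_mem n.2) (hNn.conj_mem _ n.2 x)) j₀ h2
      have h4 : x * (n : Y) * x⁻¹ = n := (inv_mul_eq_one.1 h3).symm
      exact mul_inv_eq_iff_eq_mul.1 h4
    · intro h1
      rw [smul_smul, h1, mul_smul, hj₀]
  have hcardFix : Nat.card {j : J // x • j = j} = Nat.card C := by
    symm
    refine Nat.card_congr ?_
    exact (Equiv.ofBijective _ hbij).subtypeEquiv (fun n => (hfixC n).symm)
  have hcardJ : Nat.card J = Nat.card N := (Nat.card_congr (Equiv.ofBijective _ hbij)).symm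
  rw [hcardFix, hcardJ]
  exact ⟨Subgroup.card_subgroup_dvd_card C, rfl⟩

theorem fix_pt [Nontrivial J] (hs : Group.IsSolvable Y)
    (hf : ∀ y : Y, (∀ j : J, y • j = j) → y = 1) (hp : MulAction.IsPreprimitive Y J) (r : ℕ)
    (hr : r.Prime) (hr3 : 3 ≤ r) (x : Y) (hx : x ^ r = 1) (hx1 : x ≠ 1) :
    3 * Nat.card {j : J // x • j = j} ≤ Nat.card J := by
  obtain ⟨N, s, hN, hs', hexp, htr, hreg, hcen, -⟩ := prim_reg hs hf hp
  rcases isEmpty_or_nonempty {j : J // x • j = j} with he | ⟨⟨j₀, hj₀⟩⟩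
  · simp
  have hNn : N.Normal := hN.nor
  have hxinv : x⁻¹ • j₀ = j₀ := by
    conv_lhs => rw [← hj₀]
    rw [inv_smul_smul]
  -- the bijection
  have hbij : Function.Bijective (fun n : N => (n : Y) • j₀) := by
    constructor
    · intro a b hab
      have h1 : ((b : Y)⁻¹ * (a : Y)) • j₀ = j₀ := by
        rw [mul_smul]
        have : (a : Y) • j₀ = (b : Y) • j₀ := hab
        rw [this, inv_smul_smul]
      have h2 := hreg _ (N.mul_mem (N.inv_mem b.2) a.2) j₀ h1
      exact Subtype.ext (inv_mul_eq_one.1 h2).symm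
    · intro j
      obtain ⟨n, hn, hnj⟩ := htr j₀ j
      exact ⟨⟨n, hn⟩, hnj⟩
  set C : Subgroup N := (Subgroup.centralizer {x}).subgroupOf N with hC
  have hmemC : ∀ n : N, n ∈ C ↔ x * n = n * x := by
    intro n
    rw [hC, Subgroup.mem_subgroupOf, Subgroup.mem_centralizer_singleton_iff]
    exact eq_comm
  have hfixC : ∀ n : N, x • ((n : Y) • j₀) = (n : Y) • j₀ ↔ n ∈ C := by
    intro n
    rw [hmemC]
    constructor
    · intro h1
      have h2 : ((n : Y)⁻¹ * (x * n * x⁻¹)) • j₀ = j₀ := by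
        rw [mul_smul, mul_smul, mul_smul, hxinv, h1, inv_smul_smul]
      have h3 := hreg _ (N.mul_mem (N.inv_mem n.2) (hNn.conj_mem _ n.2 x)) j₀ h2
      have h4 : x * (n : Y) * x⁻¹ = n := (inv_mul_eq_one.1 h3).symm
      exact mul_inv_eq_iff_eq_mul.1 h4
    · intro h1
      rw [smul_smul, h1, mul_smul, hj₀]
  have hcardFix : Nat.card {j : J // x • j = j} = Nat.card C := by
    symm
    refine Nat.card_congr ?_
    exact (Equiv.ofBijective _ hbij).subtypeEquiv (fun n => (hfixC n).symm)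
  have hcardJ : Nat.card J = Nat.card N := (Nat.card_congr (Equiv.ofBijective _ hbij)).symm
  have hmul : Nat.card C * C.index = Nat.card N := Subgroup.card_mul_index C
  -- an element of `N` which does not commute with `x`
  have hxN : x ∉ N := fun h => hx1 (hreg x h j₀ hj₀)
  obtain ⟨n, hn, hnx⟩ : ∃ n ∈ N, ¬ x * n = n * x := by
    by_contra hcon
    push Not at hcon
    exact hxN (hcen x hcon)
  have hidx : 3 ≤ C.index := by
    rcases eq_or_ne s r with hsr | hsr
    · subst hsr
      have : Fact s.Prime := ⟨hs'⟩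
      have hpg : IsPGroup s N := fun a => ⟨1, by
        rw [pow_one]; exact Subtype.ext (by simpa using hexp a a.2)⟩
      obtain ⟨m, hm⟩ := hpg.index C
      have hm0 : m ≠ 0 := by
        rintro rfl
        rw [pow_zero, Subgroup.index_eq_one] at hm
        exact hnx ((hmemC ⟨n, hn⟩).1 (by rw [hm]; trivial))
      rw [hm]
      exact hr3.trans (Nat.le_self_pow hm0 s)
    · have hinj : Function.Injective (fun i : Fin r =>
          (QuotientGroup.mk (⟨x ^ (i : ℕ) * n * (x ^ (i : ℕ))⁻¹,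
            hNn.conj_mem n hn _⟩ : N) : N ⧸ C)) := by
        have key : ∀ i i' : Fin r, i < i' →
            (QuotientGroup.mk (⟨x ^ (i : ℕ) * n * (x ^ (i : ℕ))⁻¹,
              hNn.conj_mem n hn _⟩ : N) : N ⧸ C) ≠
            QuotientGroup.mk (⟨x ^ (i' : ℕ) * n * (x ^ (i' : ℕ))⁻¹,
              hNn.conj_mem n hn _⟩ : N) := by
          intro i i' hii heq
          rw [QuotientGroup.eq, hmemC] at heq
          have hk0 : 0 < (i' : ℕ) - i := Nat.sub_pos_of_lt hii
          have hkr : (i' : ℕ) - i < r := by have := i'.2; omega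
          have hsum : (i' : ℕ) = i + (i' - i) := by have : (i : ℕ) < i' := hii; omega
          set k := (i' : ℕ) - i with hk
          refine hnx (pl1_comm x n r s hr hs' hsr hx k hk0 hkr
            (n⁻¹ * (x ^ k * n * (x ^ k)⁻¹)) (by group) ?_ ?_)
          · have h1 : Commute x ((x ^ (i : ℕ) * n * (x ^ (i : ℕ))⁻¹)⁻¹ *
                (x ^ (i' : ℕ) * n * (x ^ (i' : ℕ))⁻¹)) := heq
            have h2 : (x ^ (i : ℕ))⁻¹ * ((x ^ (i : ℕ) * n * (x ^ (i : ℕ))⁻¹)⁻¹ *
                (x ^ (i' : ℕ) * n * (x ^ (i' : ℕ))⁻¹)) * x ^ (i : ℕ) =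
                n⁻¹ * (x ^ k * n * (x ^ k)⁻¹) := by
              rw [hsum, pow_add]; group
            rw [← h2]
            have h3 : Commute x (x ^ (i : ℕ)) := (Commute.refl x).pow_right _
            exact ((h3.inv_right.mul_right h1).mul_right h3).symm
          · exact hexp _ (N.mul_mem (N.inv_mem hn) (hNn.conj_mem n hn _))
        intro i i' heq
        rcases lt_trichotomy i i' with h | h | h
        · exact absurd heq (key i i' h)
        · exact h
        · exact absurd heq.symm (key i' i h)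
      have h1 := Nat.card_le_card_of_injective _ hinj
      rw [Nat.card_fin] at h1
      exact hr3.trans h1
  rw [hcardFix, hcardJ, ← hmul, mul_comm]
  exact Nat.mul_le_mul_left _ hidx

omit [Finite Y] [Finite J] in
private theorem pl2_fix {r : ℕ} (hr : r.Prime) (x : Y) (hx : x ^ r = 1) (Δ : Finset J)
    (hc : Δ.card < r) (hs : ∀ j ∈ Δ, x • j ∈ Δ) : ∀ j ∈ Δ, x • j = j := by
  intro j hj
  have hmem : ∀ i : ℕ, x ^ i • j ∈ Δ := by
    intro i
    induction i with
    | zero => simpa using hj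
    | succ i ih => rw [pow_succ', mul_smul]; exact hs _ ih
  obtain ⟨a, ha, b, hb, hab, he⟩ := Finset.exists_ne_map_eq_of_card_lt_of_maps_to
    (s := Finset.range r) (t := Δ) (f := fun i => x ^ i • j) (by simpa using hc)
    (fun i _ => hmem i)
  have ha' : a < r := by simpa using ha
  have hb' : b < r := by simpa using hb
  have key : ∀ a b : ℕ, a < b → b < r → x ^ a • j = x ^ b • j → x • j = j := by
    intro a b hlt hbr he
    have h1 : x ^ (b - a) • j = j := by
      have h2 : x ^ b = x ^ a * x ^ (b - a) := by rw [← pow_add]; congr 1; omega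
      rw [h2, mul_smul] at he
      exact (MulAction.injective (x ^ a) he).symm
    have hco : Nat.Coprime r (b - a) := Nat.coprime_of_lt_prime (by omega) (by omega) hr
    have p1 : Function.IsPeriodicPt (fun i : J => x • i) (b - a) j := by
      show (fun i : J => x • i)^[b - a] j = j
      rw [smul_iterate]
      exact h1
    have p2 : Function.IsPeriodicPt (fun i : J => x • i) r j := by
      show (fun i : J => x • i)^[r] j = j
      rw [smul_iterate, hx]
      exact one_smul _ _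
    have p3 := p2.gcd p1
    rw [hco] at p3
    exact p3
  rcases lt_or_gt_of_ne hab with h | h
  · exact key a b h hb' he
  · exact key b a h ha' he.symm

omit [Finite Y] in
private theorem pl2_el {r : ℕ} (R : Sylow r Y) (x : Y) (hx : x ∈ (R : Subgroup Y)) (h1 : x ≠ 1) :
    ∃ y ∈ (R : Subgroup Y), y ^ r = 1 ∧ y ≠ 1 := by
  classical
  have hex : ∃ k : ℕ, x ^ (r ^ k) = 1 := by
    obtain ⟨k, hk⟩ := R.isPGroup' ⟨x, hx⟩
    refine ⟨k, ?_⟩
    have := congrArg (Subtype.val) hk
    simpa using this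
  have hk0 : Nat.find hex ≠ 0 := by
    intro h0
    have h2 := Nat.find_spec hex
    rw [h0] at h2
    exact h1 (by simpa using h2)
  obtain ⟨k, hk⟩ := Nat.exists_eq_succ_of_ne_zero hk0
  refine ⟨x ^ (r ^ k), Subgroup.pow_mem _ hx _, ?_, ?_⟩
  · have h2 := Nat.find_spec hex
    rw [hk] at h2
    rw [← pow_mul, ← pow_succ]
    exact h2
  · exact Nat.find_min hex (by omega)

private theorem pl2_cnt (r n : ℕ) (hr : r.Prime) (hr3 : 3 ≤ r) (hn : n = Nat.card J)
    (x : Y) (hx : x ^ r = 1) (hx1 : x ≠ 1)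
    (hfp : ∀ y : Y, y ^ r = 1 → y ≠ 1 → 3 * Nat.card {j : J // y • j = j} ≤ Nat.card J) :
    Nat.card {Δ : Finset J // ∀ j ∈ Δ, x • j ∈ Δ} ≤ 2 ^ (5 * n / 9) := by
  classical
  let _ : Fintype Y := Fintype.ofFinite Y
  let _ : Fintype J := Fintype.ofFinite J
  set G := Subgroup.zpowers x with hG
  let _ : Fintype G := Fintype.ofFinite G
  let _ : Fintype (Quotient (MulAction.orbitRel G J)) := Fintype.ofFinite _
  have hB := MulAction.sum_card_fixedBy_eq_card_orbits_mul_card_group G J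
  have hcG : Fintype.card G = r := by
    have := Fact.mk hr
    rw [← Nat.card_eq_fintype_card, Nat.card_zpowers]
    exact orderOf_eq_prime hx hx1
  have hone : ∀ g : G, 3 * Fintype.card (MulAction.fixedBy J g) ≤
      n + (if g = 1 then 2 * n else 0) := by
    intro g
    split_ifs with hg
    · have : Fintype.card (MulAction.fixedBy J g) ≤ n := by
        rw [hn, Nat.card_eq_fintype_card]
        exact Fintype.card_subtype_le _
      omega
    · have hgr : (g : Y) ^ r = 1 := by
        obtain ⟨g, hg'⟩ := g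
        obtain ⟨k, hk⟩ := Subgroup.mem_zpowers_iff.1 hg'
        show g ^ r = 1
        rw [← hk, ← zpow_natCast, ← zpow_mul, mul_comm, zpow_mul, zpow_natCast, hx, one_zpow]
      have hg1 : (g : Y) ≠ 1 := fun h => hg (Subtype.ext h)
      have h3 := hfp g hgr hg1
      have h4 : Fintype.card (MulAction.fixedBy J g) = Nat.card {j : J // (g : Y) • j = j} := by
        rw [← Nat.card_eq_fintype_card]
        rfl
      rw [h4, hn]
      omega
  have hsum : 3 * (Fintype.card (Quotient (MulAction.orbitRel G J)) * r) ≤ r * n + 2 * n := by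
    rw [← hcG, ← hB, Finset.mul_sum]
    refine (Finset.sum_le_sum (fun g _ => hone g)).trans ?_
    rw [Finset.sum_add_distrib, Finset.sum_ite_eq' Finset.univ (1 : G) (fun _ => 2 * n)]
    simp
  have horb : 9 * Fintype.card (Quotient (MulAction.orbitRel G J)) ≤ 5 * n := by
    have hrpos : 0 < r := hr.pos
    refine Nat.le_of_mul_le_mul_right ?_ hrpos
    calc 9 * Fintype.card (Quotient (MulAction.orbitRel G J)) * r
        = 3 * (3 * (Fintype.card (Quotient (MulAction.orbitRel G J)) * r)) := by ring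
      _ ≤ 3 * (r * n + 2 * n) := Nat.mul_le_mul_left 3 hsum
      _ = 3 * (r * n) + 2 * (3 * n) := by ring
      _ ≤ 3 * (r * n) + 2 * (r * n) :=
        Nat.add_le_add_left (Nat.mul_le_mul_left 2 (Nat.mul_le_mul_right n hr3)) _
      _ = 5 * n * r := by ring
  have hinv : ∀ Δ : Finset J, (∀ j ∈ Δ, x • j ∈ Δ) → ∀ g : G, ∀ j ∈ Δ, g • j ∈ Δ := by
    intro Δ hΔ g j hj
    obtain ⟨g, hg'⟩ := g
    show g • j ∈ Δ
    have hg2 : g ∈ Submonoid.powers x := mem_powers_iff_mem_zpowers.2 hg'
    obtain ⟨k, hk⟩ := hg2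
    have hk' : x ^ k = g := hk
    rw [← hk']
    clear hk hk' hg'
    induction k with
    | zero => simpa using hj
    | succ k ih => rw [pow_succ', mul_smul]; exact hΔ _ ih
  let F : {Δ : Finset J // ∀ j ∈ Δ, x • j ∈ Δ} → Set (Quotient (MulAction.orbitRel G J)) :=
    fun Δ => {q | ∃ j ∈ Δ.1, Quotient.mk (MulAction.orbitRel G J) j = q}
  have hsub : ∀ Δ Δ' : {Δ : Finset J // ∀ j ∈ Δ, x • j ∈ Δ}, F Δ = F Δ' → Δ.1 ⊆ Δ'.1 := by
    intro Δ Δ' h j hj
    have h1 : Quotient.mk (MulAction.orbitRel G J) j ∈ F Δ := ⟨j, hj, rfl⟩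
    rw [h] at h1
    obtain ⟨j', hj', he⟩ := h1
    have h2 : MulAction.orbitRel G J j j' := (Quotient.exact he.symm)
    obtain ⟨g, hg⟩ := MulAction.orbitRel_apply.1 h2
    have hg' : g • j' = j := hg
    rw [← hg']
    exact hinv Δ'.1 Δ'.2 g j' hj'
  have hF : Function.Injective F := by
    intro Δ Δ' h
    exact Subtype.ext (Finset.Subset.antisymm (hsub _ _ h) (hsub _ _ h.symm))
  have hc := Nat.card_le_card_of_injective F hF
  refine hc.trans ?_
  rw [Nat.card_eq_fintype_card, Fintype.card_set]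
  exact Nat.pow_le_pow_right (by norm_num) (by omega)

private theorem pl2_num (n : ℕ) (hn : 49 ≤ n) : n ^ 4 * 2 ^ (5 * n / 9) < 2 ^ (n + 1) := by
  obtain ⟨k, i, hi, rfl⟩ : ∃ k i : ℕ, i < 9 ∧ n = 49 + i + 9 * k :=
    ⟨(n - 49) / 9, (n - 49) % 9, Nat.mod_lt _ (by norm_num), by omega⟩
  clear hn
  induction k with
  | zero => interval_cases i <;> norm_num
  | succ k ih =>
    set m := 49 + i + 9 * k with hm
    have h1 : 49 + i + 9 * (k + 1) = m + 9 := by omega
    rw [h1]
    have h2 : (m + 9) ^ 4 ≤ (2 * m) ^ 4 := Nat.pow_le_pow_left (by omega) 4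
    have h3 : 5 * (m + 9) / 9 = 5 * m / 9 + 5 := by omega
    rw [h3, pow_add]
    calc (m + 9) ^ 4 * (2 ^ (5 * m / 9) * 2 ^ 5) ≤ (2 * m) ^ 4 * (2 ^ (5 * m / 9) * 2 ^ 5) :=
          Nat.mul_le_mul_right _ h2
      _ = 2 ^ 9 * (m ^ 4 * 2 ^ (5 * m / 9)) := by ring
      _ < 2 ^ 9 * 2 ^ (m + 1) := Nat.mul_lt_mul_of_pos_left ih (by norm_num)
      _ = 2 ^ (m + 9 + 1) := by rw [← pow_add]; congr 1; omega

/-- Small degrees. -/
private theorem pl2_small [DecidableEq J] [Nontrivial J] (hs : Group.IsSolvable Y) (ho : ¬ 2 ∣ Nat.card Y)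
    (hf : ∀ y : Y, (∀ j : J, y • j = j) → y = 1) (hp : MulAction.IsPreprimitive Y J)
    (hn : Nat.card J < 49) (j₀ j₁ : J) (hne : j₀ ≠ j₁) (r : ℕ) (hr : r.Prime) (hr3 : 3 ≤ r)
    (R : Sylow r Y) (hst : ∀ x ∈ (R : Subgroup Y), ∀ j ∈ ({j₀, j₁} : Finset J),
      x • j ∈ ({j₀, j₁} : Finset J)) (x : Y) (hxR : x ∈ (R : Subgroup Y)) (hx : x ^ r = 1)
    (hx1 : x ≠ 1) : False := by
  haveI : Fact r.Prime := ⟨hr⟩
  haveI : Fintype J := Fintype.ofFinite J
  have hc2 : ({j₀, j₁} : Finset J).card < r := by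
    rw [Finset.card_pair hne]
    omega
  have hfx := pl2_fix hr x hx {j₀, j₁} hc2 (hst x hxR)
  have hx0 : x • j₀ = j₀ := hfx j₀ (by simp)
  have hx1' : x • j₁ = j₁ := hfx j₁ (by simp)
  obtain ⟨N, s, hN, hs', hexp, htr, hreg, hcen, -⟩ := prim_reg hs hf hp
  haveI : Fact s.Prime := ⟨hs'⟩
  haveI : N.Normal := hN.nor
  have hpg : IsPGroup s N := fun a => ⟨1, by
    rw [pow_one]; exact Subtype.ext (by simpa using hexp a a.2)⟩
  have hsr : s ≠ r := by
    rintro rfl
    have h1 : IsPGroup s (N ⊔ (R : Subgroup Y) : Subgroup Y) :=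
      IsPGroup.to_sup_of_normal_left hpg R.isPGroup'
    have h2 : N ⊔ (R : Subgroup Y) = R := R.is_maximal' h1 le_sup_right
    have h3 : N ≤ (R : Subgroup Y) := by
      rw [← h2]
      exact le_sup_left
    obtain ⟨n, hnN, hnj⟩ := htr j₀ j₁
    have h4 := pl2_fix hr n (hexp n hnN) {j₀, j₁} hc2 (hst n (h3 hnN)) j₀ (by simp)
    exact hne (h4.symm.trans hnj)
  obtain ⟨hdv, hJN⟩ := fix_dvd hN htr hreg x j₀ hx0
  obtain ⟨d, hd⟩ := IsPGroup.iff_card.1 hpg
  rw [← hJN] at hd
  rw [hd] at hdv hn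
  obtain ⟨c, hcd, hc⟩ := (Nat.dvd_prime_pow hs').1 hdv
  -- `c < d`
  have hlt : c < d := by
    rcases Nat.lt_or_ge c d with h | h
    · exact h
    exfalso
    have h1 : c = d := le_antisymm hcd h
    have h2 : Nat.card {j : J // x • j = j} = Nat.card J := by rw [hc, hd, h1]
    apply hx1
    apply hf
    intro j
    by_contra hj
    have h3 : Nat.card {j : J // x • j = j} < Nat.card J := Finite.card_subtype_lt hj
    omega
  -- at least two fixed points
  have hfix2 : 2 ≤ Nat.card {j : J // x • j = j} := by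
    have h1 : 1 < Fintype.card {j : J // x • j = j} := by
      rw [Fintype.one_lt_card_iff]
      exact ⟨⟨j₀, hx0⟩, ⟨j₁, hx1'⟩, fun h => hne (congrArg Subtype.val h)⟩
    rw [Nat.card_eq_fintype_card]
    exact h1
  have hc1 : 1 ≤ c := by
    rcases Nat.eq_zero_or_pos c with h | h
    · rw [hc, h, pow_zero] at hfix2
      omega
    · exact h
  -- the congruence
  have hmod : s ^ d ≡ s ^ c [MOD r] := by
    have hpz : IsPGroup r (Subgroup.zpowers x) := by
      intro g
      refine ⟨1, ?_⟩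
      obtain ⟨g, hg⟩ := g
      obtain ⟨k, hk⟩ := Subgroup.mem_zpowers_iff.1 hg
      apply Subtype.ext
      show g ^ r ^ 1 = 1
      rw [← hk, pow_one, ← zpow_natCast, ← zpow_mul, mul_comm, zpow_mul, zpow_natCast, hx,
        one_zpow]
    have h1 := hpz.card_modEq_card_fixedPoints J
    have h2 : Nat.card (MulAction.fixedPoints (Subgroup.zpowers x) J) =
        Nat.card {j : J // x • j = j} := by
      apply Nat.card_congr
      apply Equiv.subtypeEquivRight
      intro j
      constructor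
      · intro h
        exact h ⟨x, Subgroup.mem_zpowers x⟩
      · rintro h ⟨g, hg⟩
        have h3 : Subgroup.zpowers x ≤ MulAction.stabilizer Y j :=
          Subgroup.zpowers_le.2 (show x ∈ MulAction.stabilizer Y j from h)
        exact h3 hg
    rw [h2, hd, hc] at h1
    exact h1
  have hs2 : s ≠ 2 := by
    intro h2
    apply ho
    have h3 : s ∣ Nat.card Y := by
      have h4 : s ∣ Nat.card N := by
        rw [← hJN, hd]
        exact dvd_pow_self s (by omega)
      exact h4.trans (Subgroup.card_subgroup_dvd_card N)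
    exact h2 ▸ h3
  have hs3 : 3 ≤ s := by
    have := hs'.two_le
    omega
  have hd3 : d ≤ 3 := by
    by_contra h
    have h1 : 3 ^ 4 ≤ s ^ d :=
      (Nat.pow_le_pow_left hs3 4).trans (Nat.pow_le_pow_right (by omega) (by omega))
    omega
  have hs6 : s ≤ 6 := by
    by_contra h
    have h1 : 7 ^ 2 ≤ s ^ d :=
      (Nat.pow_le_pow_left (by omega) 2).trans (Nat.pow_le_pow_right (by omega) (by omega))
    omega
  have hdvd : r ∣ s ^ d - s ^ c :=
    (Nat.modEq_iff_dvd' (Nat.pow_le_pow_right (by omega) hlt.le)).1 hmod.symm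
  have hr48 : r ≤ 48 := by
    have h1 : s ^ c < s ^ d := Nat.pow_lt_pow_right (by omega) hlt
    have h2 := Nat.le_of_dvd (by omega) hdvd
    omega
  interval_cases s <;> first
    | (exfalso; revert hs'; norm_num; done)
    | skip
  · interval_cases d <;> interval_cases c <;> norm_num at hdvd <;> interval_cases r <;> first
      | omega
      | (revert hr; norm_num)
  · interval_cases d <;> interval_cases c <;> norm_num at hdvd hn <;> interval_cases r <;> first
      | omega
      | (revert hr; norm_num)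

private theorem pl2_main [Nontrivial J] (hs : Group.IsSolvable Y) (ho : ¬ 2 ∣ Nat.card Y)
    (hf : ∀ y : Y, (∀ j : J, y • j = j) → y = 1) (hp : MulAction.IsPreprimitive Y J)
    (j₀ j₁ : J) (hne : j₀ ≠ j₁) : ∃ Δ : Finset J, Gd Y j₀ j₁ Δ := by
  classical
  let _ : Fintype Y := Fintype.ofFinite Y
  let _ : Fintype J := Fintype.ofFinite J
  by_cases hn : Nat.card J < 49
  · -- small degree
    refine ⟨{j₀, j₁}, by simp, by simp, fun _ => (Finset.card_pair hne).ge, ?_⟩
    intro r hr hr3 R hR x hx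
    by_contra hcon
    have hx1 : x ≠ 1 := by
      rintro rfl
      exact hcon (fun j => one_smul _ _)
    obtain ⟨y, hy, hyr, hy1⟩ := pl2_el R x hx hx1
    exact pl2_small hs ho hf hp hn j₀ j₁ hne r hr hr3 R hR y hy hyr hy1
  -- it is enough to find `Δ` which no element of prime order `r ≥ 3` stabilizes
  suffices h : ∃ Δ : Finset J, j₀ ∈ Δ ∧ j₁ ∈ Δ ∧ ∀ r : ℕ, r.Prime → 3 ≤ r → ∀ x : Y,
      x ^ r = 1 → x ≠ 1 → ¬ ∀ j ∈ Δ, x • j ∈ Δ by
    obtain ⟨Δ, h0, h1, h2⟩ := h
    refine ⟨Δ, h0, h1, fun _ => ?_, ?_⟩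
    · have : ({j₀, j₁} : Finset J) ⊆ Δ := by
        intro j hj
        rcases Finset.mem_insert.1 hj with rfl | hj
        · exact h0
        · rw [Finset.mem_singleton.1 hj]; exact h1
      have h3 := Finset.card_le_card this
      rw [Finset.card_pair hne] at h3
      exact h3
    · intro r hr hr3 R hR x hx
      by_contra hcon
      have hx1 : x ≠ 1 := by
        rintro rfl
        exact hcon (fun j => one_smul _ _)
      obtain ⟨y, hy, hyr, hy1⟩ := pl2_el R x hx hx1
      exact h2 r hr hr3 y hyr hy1 (hR y hy)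
  · -- large degree: counting
    by_contra hcon
    push Not at hcon
    have hn' : 49 ≤ Nat.card J := by omega
    let A := {Δ : Finset J // j₀ ∈ Δ ∧ j₁ ∈ Δ}
    let X := {x : Y // ∃ r : ℕ, r.Prime ∧ 3 ≤ r ∧ x ^ r = 1 ∧ x ≠ 1}
    have hbad : ∀ Δ : A, ∃ x : X, ∀ j ∈ Δ.1, x.1 • j ∈ Δ.1 := by
      rintro ⟨Δ, h0, h1⟩
      obtain ⟨r, hr, hr3, x, hx, hx1, hst⟩ := hcon Δ h0 h1
      exact ⟨⟨x, r, hr, hr3, hx, hx1⟩, hst⟩
    choose φ hφ using hbad
    have hinvX : ∀ x : X, ∃ r : ℕ, r.Prime ∧ 3 ≤ r ∧ (x.1⁻¹) ^ r = 1 ∧ x.1⁻¹ ≠ 1 := by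
      rintro ⟨x, r, hr, hr3, hx, hx1⟩
      exact ⟨r, hr, hr3, by rw [inv_pow, hx, inv_one], fun h => hx1 (inv_eq_one.1 h)⟩
    let ι : X → X := fun x => ⟨x.1⁻¹, hinvX x⟩
    have hιne : ∀ x : X, ι x ≠ x := by
      rintro ⟨x, r, hr, hr3, hx, hx1⟩ h
      have h1 : x⁻¹ = x := congrArg Subtype.val h
      have h2 : x ^ 2 = 1 := by
        rw [pow_two]
        nth_rewrite 1 [← h1]
        exact inv_mul_cancel x
      have h3 : orderOf x = 1 := Nat.eq_one_of_dvd_coprimes
        ((Nat.coprime_primes hr Nat.prime_two).2 (by omega)) (orderOf_dvd_of_pow_eq_one hx)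
        (orderOf_dvd_of_pow_eq_one h2)
      exact hx1 (orderOf_eq_one_iff.1 h3)
    have hιst : ∀ (x : X) (Δ : Finset J), (∀ j ∈ Δ, x.1 • j ∈ Δ) → ∀ j ∈ Δ, (ι x).1 • j ∈ Δ := by
      rintro ⟨x, r, hr, hr3, hx, hx1⟩ Δ hst j hj
      have h1 : ∀ i : ℕ, x ^ i • j ∈ Δ := by
        intro i
        induction i with
        | zero => simpa using hj
        | succ i ih => rw [pow_succ', mul_smul]; exact hst _ ih
      have h2 : x⁻¹ = x ^ (r - 1) := by
        rw [inv_eq_iff_mul_eq_one, ← pow_succ', show r - 1 + 1 = r by omega]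
        exact hx
      show x⁻¹ • j ∈ Δ
      rw [h2]
      exact h1 _
    let F : A × Bool → (x : X) × {Δ : Finset J // ∀ j ∈ Δ, x.1 • j ∈ Δ} := fun z =>
      if z.2 then ⟨φ z.1, ⟨z.1.1, hφ z.1⟩⟩ else ⟨ι (φ z.1), ⟨z.1.1, hιst _ _ (hφ z.1)⟩⟩
    have hF2 : ∀ z, ((F z).2 : Finset J) = z.1.1 := by
      rintro ⟨a, b⟩
      cases b <;> rfl
    have hF : Function.Injective F := by
      rintro ⟨a, b⟩ ⟨a', b'⟩ hab
      have h5 : ((F (a, b)).2 : Finset J) = ((F (a', b')).2 : Finset J) := by rw [hab]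
      rw [hF2, hF2] at h5
      have h6 : a = a' := Subtype.ext h5
      subst h6
      have h7 : (F (a, b)).1 = (F (a, b')).1 := by rw [hab]
      cases b <;> cases b'
      · rfl
      · exact absurd h7 (hιne (φ a))
      · exact absurd h7.symm (hιne (φ a))
      · rfl
    have hA := Nat.card_le_card_of_injective F hF
    have hsig : Nat.card ((x : X) × {Δ : Finset J // ∀ j ∈ Δ, x.1 • j ∈ Δ}) ≤
        Nat.card Y * 2 ^ (5 * Nat.card J / 9) := by
      rw [Nat.card_sigma]
      calc ∑ x : X, Nat.card {Δ : Finset J // ∀ j ∈ Δ, x.1 • j ∈ Δ}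
          ≤ ∑ x : X, 2 ^ (5 * Nat.card J / 9) := by
            refine Finset.sum_le_sum ?_
            rintro ⟨x, r, hr, hr3, hx, hx1⟩ _
            exact pl2_cnt r (Nat.card J) hr hr3 rfl x hx hx1
              (fun y hy hy1 => fix_pt hs hf hp r hr hr3 y hy hy1)
        _ = Fintype.card X * 2 ^ (5 * Nat.card J / 9) := by
            rw [Finset.sum_const, Finset.card_univ, smul_eq_mul]
        _ ≤ Nat.card Y * 2 ^ (5 * Nat.card J / 9) := by
            refine Nat.mul_le_mul_right _ ?_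
            rw [Nat.card_eq_fintype_card]
            exact Fintype.card_subtype_le _
    rw [Nat.card_prod, Nat.card_eq_fintype_card (α := Bool), Fintype.card_bool] at hA
    let E : Finset J → A × (Prop × Prop) := fun S =>
      (⟨insert j₀ (insert j₁ S), by simp, by simp⟩, (j₀ ∈ S, j₁ ∈ S))
    have hE : Function.Injective E := by
      intro S T hST
      have h6 : insert j₀ (insert j₁ S) = insert j₀ (insert j₁ T) :=
        congrArg (fun z : A × (Prop × Prop) => (z.1 : A).1) hST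
      have h7 : (j₀ ∈ S) = (j₀ ∈ T) := congrArg (fun z : A × (Prop × Prop) => z.2.1) hST
      have h8 : (j₁ ∈ S) = (j₁ ∈ T) := congrArg (fun z : A × (Prop × Prop) => z.2.2) hST
      ext j
      by_cases e0 : j = j₀
      · rw [e0]; exact iff_of_eq h7
      by_cases e1 : j = j₁
      · rw [e1]; exact iff_of_eq h8
      have h9 : j ∈ insert j₀ (insert j₁ S) ↔ j ∈ insert j₀ (insert j₁ T) := by rw [h6]
      simpa [e0, e1] using h9
    have hEc := Nat.card_le_card_of_injective E hE
    have hEl : Nat.card (Finset J) = 2 ^ Nat.card J := by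
      rw [Nat.card_eq_fintype_card, Fintype.card_finset, Nat.card_eq_fintype_card]
    have hEr : Nat.card (A × (Prop × Prop)) = Nat.card A * 4 := by
      rw [Nat.card_prod]
      congr 1
      rw [Nat.card_prod]
      simp
    rw [hEl, hEr] at hEc
    have hY := prim_card (Nat.card J) (ob (Nat.card J)) le_rfl hs hf hp
    have hnum := pl2_num (Nat.card J) hn'
    have h10 : 2 ^ (Nat.card J + 1) ≤ Nat.card J ^ 4 * 2 ^ (5 * Nat.card J / 9) := by
      calc 2 ^ (Nat.card J + 1) = 2 ^ Nat.card J * 2 := pow_succ _ _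
        _ ≤ Nat.card A * 4 * 2 := Nat.mul_le_mul_right 2 hEc
        _ = Nat.card A * 2 * 4 := by ring
        _ ≤ (Nat.card Y * 2 ^ (5 * Nat.card J / 9)) * 4 :=
            Nat.mul_le_mul_right 4 (hA.trans hsig)
        _ = (4 * Nat.card Y) * 2 ^ (5 * Nat.card J / 9) := by ring
        _ ≤ Nat.card J ^ 4 * 2 ^ (5 * Nat.card J / 9) := Nat.mul_le_mul_right _ hY
    omega

/-- The primitive case. -/
private theorem pl_prim [Nontrivial J] (hs : Group.IsSolvable Y) (ho : ¬ 2 ∣ Nat.card Y)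
    (hf : ∀ y : Y, (∀ j : J, y • j = j) → y = 1) (hp : MulAction.IsPreprimitive Y J)
    (j₀ j₁ : J) : ∃ Δ : Finset J, Gd Y j₀ j₁ Δ := by
  by_cases hne : j₀ = j₁
  · obtain ⟨j₂, hj₂⟩ := exists_ne j₀
    obtain ⟨Δ, h0, _, h2, h3⟩ := pl2_main hs ho hf hp j₀ j₂ hj₂.symm
    exact ⟨Δ, h0, hne ▸ h0, h2, h3⟩
  · exact pl2_main hs ho hf hp j₀ j₁ hne

/-- The action of the stabilizer of `c` on the fiber over `c`. -/
@[reducible] private def pl3_act {Y J C : Type} [Group Y] [MulAction Y J] [MulAction Y C] (π : J → C)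
    (hπ : ∀ (y : Y) (j : J), π (y • j) = y • π j) (c : C) :
    MulAction (MulAction.stabilizer Y c) {j : J // π j = c} where
  smul y k := ⟨(y : Y) • (k : J), by rw [hπ, k.2]; exact y.2⟩
  one_smul := fun k => Subtype.ext (one_smul Y (k : J))
  mul_smul := fun y z k => Subtype.ext (mul_smul (y : Y) (z : Y) (k : J))

private theorem pl3_step {Y J C : Type} [Group Y] [Finite Y] [Finite J] [MulAction Y J]
    [MulAction Y C] [Nontrivial C] (htC : MulAction.IsPretransitive Y C) (π : J → C)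
    (hπ : ∀ (y : Y) (j : J), π (y • j) = y • π j) (hsur : Function.Surjective π) (j₀ j₁ : J)
    (T : Finset C) (hT : Gd Y (π j₀) (π j₁) T)
    (hF : ∀ (c : C) (k₀ k₁ : {j : J // π j = c}), ∃ Δ : Finset {j : J // π j = c},
      @Gd (MulAction.stabilizer Y c) _ _ (pl3_act π hπ c) k₀ k₁ Δ) :
    ∃ Δ : Finset J, Gd Y j₀ j₁ Δ := by
  classical
  haveI : Fintype J := Fintype.ofFinite J
  -- base points
  have hk : ∀ (c : C) (i : J), ∃ k : {j : J // π j = c}, π i = c → (k : J) = i := by
    intro c i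
    by_cases h : π i = c
    · exact ⟨⟨i, h⟩, fun _ => rfl⟩
    · obtain ⟨j, hj⟩ := hsur c
      exact ⟨⟨j, hj⟩, fun h' => absurd h' h⟩
  choose k hkk using hk
  have hD : ∀ c : C, ∃ Δ : Finset {j : J // π j = c},
      @Gd (MulAction.stabilizer Y c) _ _ (pl3_act π hπ c) (k c j₀) (k c j₁) Δ :=
    fun c => hF c _ _
  choose D hDG using hD
  let Δ : Finset J := Finset.univ.filter fun j => π j ∈ T ∧ (⟨j, rfl⟩ : {i : J // π i = π j}) ∈ D (π j)
  have hmem : ∀ (c : C) (i : {j : J // π j = c}), i ∈ D c → c ∈ T → (i : J) ∈ Δ := by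
    rintro c ⟨i, rfl⟩ hi hc
    exact Finset.mem_filter.mpr ⟨Finset.mem_univ _, hc, hi⟩
  have hmemT : ∀ j ∈ Δ, π j ∈ T := fun j hj => (Finset.mem_filter.mp hj).2.1
  have hmemD : ∀ (c : C) (i : {j : J // π j = c}), (i : J) ∈ Δ → i ∈ D c := by
    rintro c ⟨i, rfl⟩ hi
    exact (Finset.mem_filter.mp hi).2.2
  refine ⟨Δ, ?_, ?_, ?_, ?_⟩
  · have h1 := hmem (π j₀) (k (π j₀) j₀) (hDG (π j₀)).1 hT.1
    rwa [hkk (π j₀) j₀ rfl] at h1
  · have h1 := hmem (π j₁) (k (π j₁) j₁) (hDG (π j₁)).2.1 hT.2.1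
    rwa [hkk (π j₁) j₁ rfl] at h1
  · intro _
    refine le_trans (hT.2.2.1 inferInstance) ?_
    have h1 : T ⊆ Δ.image π := by
      intro c hc
      have h2 := hmem c (k c j₀) (hDG c).1 hc
      exact Finset.mem_image.mpr ⟨_, h2, (k c j₀).2⟩
    exact le_trans (Finset.card_le_card h1) Finset.card_image_le
  · intro r hr hr11 R hR
    haveI : Fact r.Prime := ⟨hr⟩
    -- trivial on `C`
    have h1 : ∀ x ∈ (R : Subgroup Y), ∀ c : C, x • c = c := by
      refine hT.2.2.2 r hr hr11 R ?_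
      intro x hx c hc
      have h2 := hmem c (k c j₀) (hDG c).1 hc
      have h3 := hmemT _ (hR x hx _ h2)
      rwa [hπ, (k c j₀).2] at h3
    -- trivial on the fiber over `c₀`
    set c₀ : C := π j₀ with hc₀
    have hle : (R : Subgroup Y) ≤ MulAction.stabilizer Y c₀ := fun x hx =>
      MulAction.mem_stabilizer_iff.mpr (h1 x hx c₀)
    have h4 : ∀ x ∈ (R : Subgroup Y), ∀ j : J, π j = c₀ → x • j = j := by
      intro x hx j hj
      letI := pl3_act π hπ c₀
      have h5 := (hDG c₀).2.2.2 r hr hr11 (R.subtype hle) (by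
        intro z hz i hi
        have hz' : (z : Y) ∈ (R : Subgroup Y) := by
          rw [Sylow.coe_subtype, Subgroup.mem_subgroupOf] at hz
          exact hz
        apply hmemD
        exact hR (z : Y) hz' (i : J) (hmem c₀ i hi hT.1)) ⟨x, hle hx⟩ (by
        rw [Sylow.coe_subtype, Subgroup.mem_subgroupOf]
        exact hx) ⟨j, hj⟩
      exact congrArg Subtype.val h5
    -- the kernel on `C`
    let K : Subgroup Y := (MulAction.toPermHom Y C).ker
    have hK : ∀ y : Y, y ∈ K ↔ ∀ c : C, y • c = c := by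
      intro y
      constructor
      · intro hy c
        have h6 : MulAction.toPermHom Y C y = 1 := hy
        have h7 := Equiv.congr_fun h6 c
        exact h7
      · intro hy
        show MulAction.toPermHom Y C y = 1
        ext c
        exact hy c
    have hRK : (R : Subgroup Y) ≤ K := fun x hx => (hK x).mpr (h1 x hx)
    intro x hx j
    obtain ⟨y, hy⟩ := htC.exists_smul_eq c₀ (π j)
    have hRK' : ((y⁻¹ • R : Sylow r Y) : Subgroup Y) ≤ K := by
      intro z hz
      rw [Sylow.coe_subgroup_smul] at hz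
      have hz' : y * z * y⁻¹ ∈ (R : Subgroup Y) := by
        rw [Subgroup.mem_pointwise_smul_iff_inv_smul_mem] at hz
        simpa [MulAut.conj_apply] using hz
      rw [hK]
      intro c
      have h8 := h1 _ hz' (y • c)
      rw [mul_smul, mul_smul, inv_smul_smul] at h8
      exact MulAction.injective y h8
    obtain ⟨κ, hκ⟩ := MulAction.exists_smul_eq K (R.subtype hRK) ((y⁻¹ • R).subtype hRK')
    have h9 : y⁻¹ * x * y ∈ ((y⁻¹ • R : Sylow r Y) : Subgroup Y) := by
      rw [Sylow.coe_subgroup_smul, Subgroup.mem_pointwise_smul_iff_inv_smul_mem]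
      have h10 : (MulAut.conj y⁻¹)⁻¹ • (y⁻¹ * x * y) = x := by
        rw [← map_inv, inv_inv, MulAut.smul_def, MulAut.conj_apply]
        group
      rw [h10]
      exact hx
    have h11 : (⟨y⁻¹ * x * y, hRK' h9⟩ : K) ∈
        ((κ • (R.subtype hRK) : Sylow r K) : Subgroup K) := by
      rw [hκ, Sylow.coe_subtype, Subgroup.mem_subgroupOf]
      exact h9
    rw [Sylow.coe_subgroup_smul, Subgroup.mem_pointwise_smul_iff_inv_smul_mem,
      Sylow.coe_subtype, Subgroup.mem_subgroupOf] at h11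
    have h12 : (κ : Y)⁻¹ * (y⁻¹ * x * y) * (κ : Y) ∈ (R : Subgroup Y) := by
      have h13 : (((MulAut.conj κ)⁻¹ • (⟨y⁻¹ * x * y, hRK' h9⟩ : K) : K) : Y) =
          (κ : Y)⁻¹ * (y⁻¹ * x * y) * (κ : Y) := by
        rw [← map_inv, MulAut.smul_def, MulAut.conj_apply]
        simp
      rwa [h13] at h11
    have hκc : ∀ c : C, (κ : Y)⁻¹ • c = c := by
      intro c
      exact (hK _).mp (K.inv_mem κ.2) c
    have h14 : π ((κ : Y)⁻¹ • y⁻¹ • j) = c₀ := by
      rw [hπ, hκc, hπ, ← hy, inv_smul_smul]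
    have h15 := h4 _ h12 _ h14
    rw [mul_smul, smul_inv_smul, mul_smul] at h15
    have h16 := MulAction.injective ((κ : Y)⁻¹) h15
    rw [mul_smul, mul_smul, smul_inv_smul] at h16
    exact MulAction.injective (y⁻¹) h16

private theorem pl3_sys {Y J : Type} [Group Y] [Finite Y] [Finite J] [Nontrivial J] [MulAction Y J]
    (ht : MulAction.IsPretransitive Y J) (hnp : ¬ MulAction.IsPreprimitive Y J) :
    ∃ (C : Type) (_ : Finite C) (_ : Nontrivial C) (_ : MulAction Y C) (π : J → C),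
      MulAction.IsPretransitive Y C ∧ (∀ (y : Y) (j : J), π (y • j) = y • π j) ∧
      Function.Surjective π ∧ Nat.card C < Nat.card J ∧
      ∀ c, Nat.card {j : J // π j = c} < Nat.card J := by
  classical
  have h1 : ∃ B : Set J, MulAction.IsBlock Y B ∧ ¬ MulAction.IsTrivialBlock B := by
    by_contra hcon
    push Not at hcon
    exact hnp { toIsPretransitive := ht, isTrivialBlock_of_isBlock := fun {B} hB => hcon B hB }
  obtain ⟨B, hB, hB1⟩ := h1
  rw [MulAction.IsTrivialBlock, not_or] at hB1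
  obtain ⟨hB1, hB2⟩ := hB1
  rw [Set.not_subsingleton_iff] at hB1
  obtain ⟨b₀, hb₀, b₁, hb₁, hb⟩ := hB1
  obtain ⟨j₂, hj₂⟩ := (Set.ne_univ_iff_exists_notMem B).mp hB2
  choose g hg using fun j => ht.exists_smul_eq b₀ j
  open Pointwise in
  let S : Subgroup Y := MulAction.stabilizer Y B
  have hS : ∀ y : Y, y • b₀ ∈ B → y ∈ S := by
    intro y hy
    exact MulAction.mem_stabilizer_iff.mpr (hB.smul_eq_of_mem hb₀ hy)
  have hS' : ∀ y ∈ S, y • b₀ ∈ B := by
    intro y hy
    open Pointwise in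
    have h2 : y • B = B := MulAction.mem_stabilizer_iff.mp hy
    rw [← h2]
    exact Set.smul_mem_smul_set hb₀
  let π : J → Y ⧸ S := fun j => (g j : Y ⧸ S)
  have hπ1 : ∀ j (y : Y), y • b₀ = j → π j = (y : Y ⧸ S) := by
    intro j y hy
    apply QuotientGroup.eq.mpr
    apply hS
    have h3 : ((g j)⁻¹ * y) • b₀ = b₀ := by
      rw [mul_smul, hy]
      exact inv_smul_eq_iff.mpr (hg j).symm
    rw [h3]
    exact hb₀
  have hπB : ∀ j, j ∈ B ↔ π j = π b₀ := by
    intro j
    rw [hπ1 b₀ 1 (one_smul _ _)]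
    constructor
    · intro hj
      apply Eq.symm
      apply QuotientGroup.eq.mpr
      rw [inv_one, one_mul]
      apply hS
      rw [hg]
      exact hj
    · intro hj
      have h4 := QuotientGroup.eq.mp hj.symm
      rw [inv_one, one_mul] at h4
      have h5 := hS' _ h4
      rwa [hg] at h5
  have hne : π j₂ ≠ π b₀ := fun h => hj₂ ((hπB j₂).mpr h)
  haveI : Nontrivial (Y ⧸ S) := ⟨π j₂, π b₀, hne⟩
  have hsur : Function.Surjective π := by
    intro c
    obtain ⟨y, rfl⟩ := QuotientGroup.mk_surjective c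
    exact ⟨y • b₀, hπ1 _ y rfl⟩
  refine ⟨Y ⧸ S, inferInstance, inferInstance, inferInstance, π, inferInstance, ?_, hsur, ?_, ?_⟩
  · intro y j
    rw [hπ1 (y • j) (y * g j) (by rw [mul_smul, hg])]
    rfl
  · have hni : ¬ Function.Injective π := by
      intro hinj
      exact hb (hinj ((hπB b₁).mp hb₁).symm)
    haveI : Fintype J := Fintype.ofFinite J
    haveI : Fintype (Y ⧸ S) := Fintype.ofFinite _
    rw [Nat.card_eq_fintype_card, Nat.card_eq_fintype_card]
    exact Fintype.card_lt_of_surjective_not_injective π hsur hni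
  · intro c
    apply Finite.card_subtype_lt (x := if π j₂ = c then b₀ else j₂)
    split_ifs with h6
    · rw [← h6]
      exact fun h => hne h.symm
    · exact h6

private theorem pl3_all (n : ℕ) : ∀ (Y J : Type) (_ : Group Y) (_ : Finite Y) (_ : Finite J)
    (_ : MulAction Y J), Nat.card J ≤ n → Group.IsSolvable Y → ¬ 2 ∣ Nat.card Y →
    MulAction.IsPretransitive Y J →
    ∀ j₀ j₁ : J, ∃ Δ : Finset J, Gd Y j₀ j₁ Δ := by
  induction n with
  | zero =>
    intro Y J _ _ _ _ hn hs ho ht j₀ j₁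
    haveI : Nonempty J := ⟨j₀⟩
    have := Nat.card_pos (α := J)
    omega
  | succ n ih =>
    intro Y J _ _ _ _ hn hs ho ht j₀ j₁
    rcases subsingleton_or_nontrivial J with hJ | hJ
    · refine ⟨{j₀}, Finset.mem_singleton_self _, ?_, ?_, ?_⟩
      · rw [Subsingleton.elim j₁ j₀]
        exact Finset.mem_singleton_self _
      · intro h
        exact absurd hJ (not_subsingleton_iff_nontrivial.mpr h)
      · intro r _ _ R _ x _ j
        exact Subsingleton.elim _ _
    · by_cases hp : MulAction.IsPreprimitive Y J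
      · -- the image in the permutations
        let φ : Y →* Equiv.Perm J := MulAction.toPermHom Y J
        have hsur := φ.rangeRestrict_surjective
        haveI := hs
        have hs' : Group.IsSolvable φ.range := Group.isSolvable_of_surjective hsur
        let f : J →ₑ[φ.rangeRestrict] J := ⟨id, fun y j => rfl⟩
        have hp' : MulAction.IsPreprimitive φ.range J :=
          MulAction.IsPreprimitive.of_surjective (f := f) Function.surjective_id
        obtain ⟨Δ, h1, h2, h3, h4⟩ := pl_prim (Y := φ.range) (J := J) hs' (fun h2 => ho (h2.trans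
          (Subgroup.card_dvd_of_surjective _ hsur))) (by
          intro y hy
          apply Subtype.ext
          apply Equiv.ext
          intro j
          exact hy j) hp' j₀ j₁
        refine ⟨Δ, h1, h2, h3, ?_⟩
        intro r hr hr11 R hR x hx j
        haveI : Fact r.Prime := ⟨hr⟩
        refine h4 r hr hr11 (R.mapSurjective hsur) ?_ (φ.rangeRestrict x) ?_ j
        · intro z hz i hi
          rw [Sylow.coe_mapSurjective] at hz
          obtain ⟨y, hy, rfl⟩ := Subgroup.mem_map.mp hz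
          exact hR y hy i hi
        · rw [Sylow.coe_mapSurjective]
          exact Subgroup.mem_map_of_mem _ hx
      · obtain ⟨C, _, _, _, π, htC, hπ, hsur, hcC, hcF⟩ := pl3_sys ht hp
        obtain ⟨T, hT⟩ := ih Y C inferInstance inferInstance inferInstance inferInstance
          (by omega) hs ho htC (π j₀) (π j₁)
        refine pl3_step htC π hπ hsur j₀ j₁ T hT ?_
        intro c k₀ k₁
        have hcc := hcF c
        haveI := hs
        refine ih (MulAction.stabilizer Y c) {j : J // π j = c} inferInstance inferInstance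
          inferInstance (pl3_act π hπ c) (by omega) inferInstance
          (fun h2 => ho (h2.trans (Subgroup.card_subgroup_dvd_card _))) ?_ k₀ k₁
        letI := pl3_act π hπ c
        constructor
        intro a b
        obtain ⟨y, hy⟩ := ht.exists_smul_eq (a : J) (b : J)
        refine ⟨⟨y, ?_⟩, Subtype.ext hy⟩
        rw [MulAction.mem_stabilizer_iff]
        calc y • c = y • π (a : J) := by rw [a.2]
          _ = π (y • (a : J)) := (hπ _ _).symm
          _ = c := by rw [hy, b.2]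

/-- A subset which no Sylow subgroup stabilizes, for transitive groups of odd order. -/
theorem pl (hs : Group.IsSolvable Y) (ho : ¬ 2 ∣ Nat.card Y) (ht : MulAction.IsPretransitive Y J)
    (j₀ j₁ : J) : ∃ Δ : Finset J, Gd Y j₀ j₁ Δ :=
  pl3_all (Nat.card J) Y J inferInstance inferInstance inferInstance inferInstance le_rfl hs ho ht
    j₀ j₁

end

end Pool.Agent.Nao
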