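import Pool.Agent.Nao.Cn
import Pool.Agent.Nao.Pl

/-! Generic vectors of irreducible modules of groups of odd order. -/

set_option autoImplicit false

namespace Pool.Agent.Nao

open Pool.Agent.Nan Pool.Agent.Nas

section
variable {p : ℕ} [Fact p.Prime] {H X J : Type} [Group H] [Finite H] [AddCommGroup X]
  [Module (ZMod p) X] [Finite X] {ρ : Representation (ZMod p) H X}
  {W : J → Submodule (ZMod p) X} {UU : J → Subgroup H}

-- BEGIN gn1
/-- (gn1, size 3) PROOF. If the stabilizer of the block is abelian modulo `UU j` take any `v ≠ 0`. Otherwise `bs_qp`, `cn` for `L`, `U`. `r` does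
not divide `card U`: an element of `U` of order `r` would be the image of a `u ∈ UU j` with `Tv (u ^ r)`. A Sylow subgroup `R` of `H` which is in
`Nm ρ (W j)` is a Sylow subgroup of it, so is `g R g⁻¹`, and its image in `L` is a Sylow subgroup of `L`; if it fixes `v` then it is trivial. -/
theorem gn_blk (h : BS ρ W UU) (hs : Group.IsSolvable H) (ho : ¬ 2 ∣ Nat.card H)
    (hp3 : 3 ≤ p) (j : J) :
    ∃ v ∈ W j, v ≠ 0 ∧
      ((¬ ∀ x ∈ Nm ρ (W j), ∀ y ∈ Nm ρ (W j), x * y * x⁻¹ * y⁻¹ ∈ UU j) →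
        ∀ r : ℕ, r.Prime → 3 ≤ r → (∀ u ∈ UU j, Tv ρ (W j) (u ^ r) → Tv ρ (W j) u) →
          ∀ R : Sylow r H, (∀ x ∈ (R : Subgroup H), x ∈ Nm ρ (W j)) → ∀ g ∈ Nm ρ (W j),
            (∀ x ∈ (R : Subgroup H), ρ (g * x * g⁻¹) v = v) →
              ∀ x ∈ (R : Subgroup H), Tv ρ (W j) x) := by
  classical
  have : Nontrivial (W j) := Submodule.nontrivial_iff_ne_bot.mpr (h.ne j)
  by_cases hab : ∀ x ∈ Nm ρ (W j), ∀ y ∈ Nm ρ (W j), x * y * x⁻¹ * y⁻¹ ∈ UU j
  · obtain ⟨w, hw⟩ := exists_ne (0 : W j)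
    exact ⟨w, w.2, fun h0 => hw (Subtype.ext h0), fun hn => absurd hab hn⟩
  · obtain ⟨L, iL, fL, ρL, π, U, hsur, hact, hQP, hU⟩ := bs_qp h j
    have := hs
    have : Group.IsSolvable L := Group.isSolvable_of_surjective (f := π) hsur
    have hna : ¬ ∀ x y : L, x * y * x⁻¹ * y⁻¹ ∈ U := by
      intro hall
      apply hab
      intro x hx y hy
      have h1 := hall (π ⟨x, hx⟩) (π ⟨y, hy⟩)
      rw [← map_mul, ← map_inv, ← map_mul, ← map_inv, ← map_mul] at h1
      exact (hU _).mp h1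
    have hoL : ¬ 2 ∣ Nat.card L := fun h2 => ho ((h2.trans
      (Subgroup.card_dvd_of_surjective π hsur)).trans (Subgroup.card_subgroup_dvd_card _))
    obtain ⟨w, hw0, hw⟩ := cn hQP inferInstance hoL hp3 hna
    refine ⟨(w : X), w.2, fun h0 => hw0 (Subtype.ext h0), fun _ => ?_⟩
    intro r hr hr3 hur R hR g hg hfix x hx
    have : Fact r.Prime := ⟨hr⟩
    have htriv : ∀ y : Nm ρ (W j), π y = 1 → Tv ρ (W j) (y : H) := by
      intro y hy v hv
      have h1 := hact y ⟨v, hv⟩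
      rw [hy, map_one] at h1
      exact h1.symm
    have hrU : ¬ r ∣ Nat.card U := by
      intro hd
      obtain ⟨z, hz⟩ := exists_prime_orderOf_dvd_card' r hd
      obtain ⟨u, hu⟩ := hsur (z : L)
      have huU : (u : H) ∈ UU j := (hU u).mp (by rw [hu]; exact z.2)
      have hzr : (z : L) ^ r = 1 := by
        have := pow_orderOf_eq_one z
        rw [hz] at this
        exact congrArg Subtype.val this
      have hur1 : Tv ρ (W j) ((u : H) ^ r) := by
        have := htriv (u ^ r) (by rw [map_pow, hu, hzr])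
        exact this
      have hut := hur (u : H) huU hur1
      have hz1 : (z : L) = 1 := by
        apply hQP.fai
        intro v
        rw [← hu]
        apply Subtype.ext
        rw [hact]
        exact hut v v.2
      have hz2 : z = 1 := Subtype.ext hz1
      rw [hz2, orderOf_one] at hz
      exact hr.one_lt.ne hz
    have hle : (R : Subgroup H) ≤ Nm ρ (W j) := fun y hy => hR y hy
    have key := hw r hr hr3 hrU (((⟨g, hg⟩ : Nm ρ (W j)) • R.subtype hle).mapSurjective hsur)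
      (by
        intro y hy
        rw [Sylow.coe_mapSurjective] at hy
        obtain ⟨y', hy', rfl⟩ := hy
        rw [SetLike.mem_coe, Sylow.coe_subgroup_smul, Subgroup.mem_pointwise_smul_iff_inv_smul_mem] at hy'
        rw [← map_inv, MulAut.smul_def, MulAut.conj_apply, inv_inv, Sylow.coe_subtype,
          Subgroup.mem_subgroupOf] at hy'
        have h1 := hfix _ hy'
        apply Subtype.ext
        rw [hact]
        have h2 : g * ((((⟨g, hg⟩ : Nm ρ (W j))⁻¹ * y' * ⟨g, hg⟩ : Nm ρ (W j))) : H) * g⁻¹ = (y' : H) := by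
          rw [Subgroup.coe_mul, Subgroup.coe_mul, Subgroup.coe_inv]
          group
        rw [h2] at h1
        exact h1)
    have hgx : π (⟨g, hg⟩ * ⟨x, hR x hx⟩ * (⟨g, hg⟩ : Nm ρ (W j))⁻¹) = 1 := by
      apply key
      rw [Sylow.coe_mapSurjective]
      refine ⟨_, ?_, rfl⟩
      rw [SetLike.mem_coe, Sylow.coe_subgroup_smul, Subgroup.mem_pointwise_smul_iff_inv_smul_mem,
        ← map_inv, MulAut.smul_def, MulAut.conj_apply, inv_inv, Sylow.coe_subtype,
        Subgroup.mem_subgroupOf]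
      have h3 : ((⟨g, hg⟩ : Nm ρ (W j))⁻¹ * (⟨g, hg⟩ * ⟨x, hR x hx⟩ * (⟨g, hg⟩ : Nm ρ (W j))⁻¹) * ⟨g, hg⟩)
          = ⟨x, hR x hx⟩ := by group
      rw [h3]
      exact hx
    have hx1 : π ⟨x, hR x hx⟩ = 1 := by
      rw [map_mul, map_mul, map_inv] at hgx
      have h4 : π ⟨g, hg⟩ * π ⟨x, hR x hx⟩ = π ⟨g, hg⟩ := by
        have := mul_inv_eq_one.mp hgx
        exact this
      exact mul_eq_left.mp h4
    exact htriv _ hx1
-- END gn1

-- BEGIN gn2
/-- (gn2, size 3) PROOF. `R` is in the kernel `C` of the action of `H` on the blocks. `R` is a Sylow subgroup of `Nm ρ (W j)` and of `C`. If `R` is trivial on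
one block `W j` then `r` does not divide the order of the image of `C` (normal in `H`) in `GL (W j)`; the blocks are conjugate, so `R` is trivial on all
the blocks. -/
theorem syl_all (h : BS ρ W UU) (r : ℕ) (hr : r.Prime) (R : Sylow r H)
    (hR : ∀ x ∈ (R : Subgroup H), ∀ j, x ∈ Nm ρ (W j)) (j : J)
    (hj : ∀ x ∈ (R : Subgroup H), Tv ρ (W j) x) : ∀ x ∈ (R : Subgroup H), ∀ v, ρ x v = v := by
  classical
  have : Fact r.Prime := ⟨hr⟩
  set C : Subgroup H := ⨅ j', Nm ρ (W j') with hC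
  have hmC : ∀ x, x ∈ C ↔ ∀ j', x ∈ Nm ρ (W j') := by
    intro x
    rw [hC, Subgroup.mem_iInf]
  have hinv : ∀ (g : H) (S : Submodule (ZMod p) X), (S.map (ρ g⁻¹)).map (ρ g) = S := by
    intro g S
    calc (S.map (ρ g⁻¹)).map (ρ g) = S.map (ρ g * ρ g⁻¹) := (Submodule.map_comp _ _ _).symm
      _ = S := by
        rw [← map_mul, mul_inv_cancel, map_one]
        exact Submodule.map_id S
  have hmm : ∀ (g g' : H) (S : Submodule (ZMod p) X), S.map (ρ (g * g')) = (S.map (ρ g')).map (ρ g) := by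
    intro g g' S
    rw [map_mul]
    exact Submodule.map_comp _ _ _
  have hnC : ∀ g x : H, x ∈ C → g * x * g⁻¹ ∈ C := by
    intro g x hx
    rw [hmC] at hx ⊢
    intro j'
    rw [mem_Nm, hmm, hmm]
    obtain ⟨j'', hj''⟩ := h.prm g⁻¹ j'
    have h1 := hx j''
    rw [mem_Nm] at h1
    rw [hj'', h1, ← hj'', hinv]
  have hRC : (R : Subgroup H) ≤ C := fun x hx => (hmC x).mpr (hR x hx)
  have main : ∀ j', ∀ x ∈ (R : Subgroup H), Tv ρ (W j') x := by
    intro j' x hx w hw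
    obtain ⟨h0, hh0⟩ := h.tra j j'
    have hR2 : ((h0 • R : Sylow r H) : Subgroup H) ≤ C := by
      intro y hy
      rw [Sylow.coe_subgroup_smul, Subgroup.mem_pointwise_smul_iff_inv_smul_mem, ← map_inv,
        MulAut.smul_def, MulAut.conj_apply, inv_inv] at hy
      have h1 := hnC h0 _ (hRC hy)
      have h2 : h0 * (h0⁻¹ * y * h0) * h0⁻¹ = y := by group
      rw [h2] at h1
      exact h1
    obtain ⟨c, hc⟩ := MulAction.exists_smul_eq C ((h0 • R : Sylow r H).subtype hR2) (R.subtype hRC)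
    have hx1 : (⟨x, hRC hx⟩ : C) ∈ ((R.subtype hRC : Sylow r C) : Subgroup C) := by
      rw [Sylow.coe_subtype, Subgroup.mem_subgroupOf]
      exact hx
    rw [← hc, Sylow.coe_subgroup_smul, Subgroup.mem_pointwise_smul_iff_inv_smul_mem, ← map_inv,
      MulAut.smul_def, MulAut.conj_apply, inv_inv, Sylow.coe_subtype, Subgroup.mem_subgroupOf,
      Sylow.coe_subgroup_smul, Subgroup.mem_pointwise_smul_iff_inv_smul_mem, ← map_inv,
      MulAut.smul_def, MulAut.conj_apply, inv_inv, Subgroup.coe_mul, Subgroup.coe_mul,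
      Subgroup.coe_inv] at hx1
    have hcj : (c : H) ∈ Nm ρ (W j') := (hmC _).mp c.2 j'
    have hW : (W j).map (ρ ((c : H) * h0)) = W j' := by
      rw [hmm, hh0]
      exact hcj
    rw [← hW] at hw
    obtain ⟨w0, hw0, rfl⟩ := hw
    have h5 := hj _ hx1 w0 hw0
    have h6 : x * ((c : H) * h0) = ((c : H) * h0) * (h0⁻¹ * ((c : H)⁻¹ * x * c) * h0) := by group
    calc ρ x (ρ ((c : H) * h0) w0) = ρ (x * ((c : H) * h0)) w0 := by rw [map_mul ρ x]; rfl
      _ = ρ (((c : H) * h0) * (h0⁻¹ * ((c : H)⁻¹ * x * c) * h0)) w0 := by rw [h6]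
      _ = ρ ((c : H) * h0) (ρ (h0⁻¹ * ((c : H)⁻¹ * x * c) * h0) w0) := by rw [map_mul ρ ((c : H) * h0)]; rfl
      _ = ρ ((c : H) * h0) w0 := by rw [h5]
  intro x hx v
  have hv : v ∈ ⨆ j', W j' := by rw [h.sup]; exact Submodule.mem_top
  have hle : (⨆ j', W j') ≤ LinearMap.eqLocus (ρ x) LinearMap.id := by
    refine iSup_le fun j' w hw => ?_
    rw [LinearMap.mem_eqLocus]
    exact main j' x hx w hw
  have h7 := hle hv
  rw [LinearMap.mem_eqLocus] at h7
  exact h7
-- END gn2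

-- BEGIN gn3
/-- (gn3, size 3) PROOF. `u ∈ UU j` acts on `W j` with order `r`; `UU j` is normal in `Nm ρ (W j)`, and `R` is a Sylow subgroup of `Nm ρ (W j)`, so `R ⊓ UU j` is
a Sylow subgroup of `UU j`; `r` divides the order of the image of `UU j` in `GL (W j)`, so `R ⊓ UU j` is not in the kernel. -/
theorem syl_lin (h : BS ρ W UU) (r : ℕ) (hr : r.Prime) (R : Sylow r H) (j : J)
    (hR : ∀ x ∈ (R : Subgroup H), x ∈ Nm ρ (W j))
    (hu : ∃ u ∈ UU j, Tv ρ (W j) (u ^ r) ∧ ¬ Tv ρ (W j) u) :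
    ∃ x ∈ (R : Subgroup H), x ∈ UU j ∧ ¬ Tv ρ (W j) x := by
  classical
  have : Fact r.Prime := ⟨hr⟩
  obtain ⟨u, huU, hur, hun⟩ := hu
  have hle : (R : Subgroup H) ≤ Nm ρ (W j) := fun y hy => hR y hy
  have hTm : ∀ a b : H, Tv ρ (W j) a → Tv ρ (W j) b → Tv ρ (W j) (a * b) := by
    intro a b ha hb w hw
    rw [map_mul]
    show ρ a (ρ b w) = w
    rw [hb w hw, ha w hw]
  have hT1 : Tv ρ (W j) (1 : H) := by
    intro w _
    rw [map_one]
    rfl
  have hTi : ∀ a : H, Tv ρ (W j) a → Tv ρ (W j) a⁻¹ := by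
    intro a ha w hw
    have h1 : ρ a⁻¹ (ρ a w) = w := by
      rw [← Module.End.mul_apply, ← map_mul, inv_mul_cancel, map_one]
      rfl
    rw [ha w hw] at h1
    exact h1
  have hTp : ∀ (a : H) (k : ℕ), Tv ρ (W j) a → Tv ρ (W j) (a ^ k) := by
    intro a k ha
    induction k with
    | zero => rw [pow_zero]; exact hT1
    | succ k ih => rw [pow_succ]; exact hTm _ _ ih ha
  have hTz : ∀ (a : H) (k : ℤ), Tv ρ (W j) a → Tv ρ (W j) (a ^ k) := by
    intro a k ha
    cases k with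
    | ofNat k => rw [Int.ofNat_eq_natCast, zpow_natCast]; exact hTp a k ha
    | negSucc k => rw [zpow_negSucc]; exact hTi _ (hTp a _ ha)
  have hTc : ∀ g a : H, g ∈ Nm ρ (W j) → Tv ρ (W j) (g * a * g⁻¹) → Tv ρ (W j) a := by
    intro g a hg ha w hw
    have h1 : ρ g w ∈ W j := by
      have h2 : (W j).map (ρ g) = W j := hg
      rw [← h2]
      exact Submodule.mem_map_of_mem hw
    have h3 := ha _ h1
    have h4 : ρ (g * a * g⁻¹) (ρ g w) = ρ g (ρ a w) := by
      rw [← Module.End.mul_apply, ← map_mul, ← Module.End.mul_apply, ← map_mul]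
      congr 2
      group
    rw [h4] at h3
    have h5 : ρ g⁻¹ (ρ g (ρ a w)) = ρ g⁻¹ (ρ g w) := by rw [h3]
    have h6 : ∀ z, ρ g⁻¹ (ρ g z) = z := by
      intro z
      rw [← Module.End.mul_apply, ← map_mul, inv_mul_cancel, map_one]
      rfl
    rw [h6, h6] at h5
    exact h5
  have ho : orderOf u ≠ 0 := (orderOf_pos u).ne'
  obtain ⟨k, m, hm, hkm⟩ := Nat.exists_eq_pow_mul_and_not_dvd ho r hr.ne_one
  have hcop : Nat.Coprime r m := (Nat.Prime.coprime_iff_not_dvd hr).mpr hm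
  have hu1 : ¬ Tv ρ (W j) (u ^ m) := by
    intro ht
    apply hun
    have hb := Nat.gcd_eq_gcd_ab r m
    rw [Nat.Coprime.gcd_eq_one hcop] at hb
    have h1 : u = (u ^ r) ^ (Nat.gcdA r m) * (u ^ m) ^ (Nat.gcdB r m) := by
      rw [← zpow_natCast u r, ← zpow_natCast u m, ← zpow_mul, ← zpow_mul, ← zpow_add, ← hb]
      simp
    rw [h1]
    exact hTm _ _ (hTz _ _ hur) (hTz _ _ ht)
  have huN : u ^ m ∈ Nm ρ (W j) := pow_mem (h.uN j huU) m
  have hupow : (u ^ m) ^ (r ^ k) = 1 := by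
    rw [← pow_mul, mul_comm m, ← hkm, pow_orderOf_eq_one]
  set y : Nm ρ (W j) := ⟨u ^ m, huN⟩ with hy
  have hyp : IsPGroup r (Subgroup.zpowers y) := by
    have hyr : y ^ (r ^ k) = 1 := Subtype.ext hupow
    refine IsPGroup.iff_orderOf.mpr ?_
    intro g
    obtain ⟨g, hg⟩ := g
    obtain ⟨t, rfl⟩ := hg
    have h2 : (y ^ t) ^ (r ^ k) = 1 := by
      rw [← zpow_natCast, ← zpow_mul, mul_comm, zpow_mul, zpow_natCast, hyr, one_zpow]
    have h3 : orderOf (y ^ t) ∣ r ^ k := orderOf_dvd_of_pow_eq_one h2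
    obtain ⟨l, _, hl⟩ := (Nat.dvd_prime_pow hr).mp h3
    exact ⟨l, (Subgroup.orderOf_mk _ _).trans hl⟩
  obtain ⟨Q, hQ⟩ := hyp.exists_le_sylow
  obtain ⟨g, hg⟩ := MulAction.exists_smul_eq (Nm ρ (W j)) (R.subtype hle) Q
  have hyQ : y ∈ (Q : Subgroup (Nm ρ (W j))) := hQ (Subgroup.mem_zpowers y)
  rw [← hg, Sylow.coe_subgroup_smul, Subgroup.mem_pointwise_smul_iff_inv_smul_mem, ← map_inv,
    MulAut.smul_def, MulAut.conj_apply, inv_inv, Sylow.coe_subtype, Subgroup.mem_subgroupOf,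
    Subgroup.coe_mul, Subgroup.coe_mul, Subgroup.coe_inv] at hyQ
  refine ⟨_, hyQ, ?_, ?_⟩
  · have h8 := h.uNor j (g : H)⁻¹ (inv_mem g.2) (u ^ m) (pow_mem huU m)
    rw [inv_inv] at h8
    exact h8
  · intro ht
    apply hu1
    apply hTc (g : H)⁻¹ (u ^ m) (inv_mem g.2)
    rw [inv_inv]
    exact ht
-- END gn3

-- BEGIN gn4
/-- (gn4, size 5) Generic vectors. PROOF. `H` acts on `J` (`h • j = j'` iff `(W j).map (ρ h) = W j'`; `W` is injective by `ind`, `ne`), transitively: `pl` gives `Δ`.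
`v j` from `gn_blk`. Let `r ≥ 3` be a prime which is not of type `B`, and let `R` fix `T = ∑ j ∈ Δ, ρ (k j) (v j)`. `Δ` is the set of the `j` for which the component of
`T` in `W j` is not zero (`ρ (k j) (v j) ∈ W j`), so `R` stabilizes `Δ`, so it acts trivially on `J` (`Gd`), and every `x ∈ R` fixes the components `ρ (k j) (v j)`, `j ∈ Δ`.
`R` is not trivial on `X` (`Bt`; all Sylow subgroups are conjugate), so not trivial on `W j` for a fixed `j ∈ Δ` (`syl_all`). (1) If there are `j'` and `u ∈ UU j'` with `Tv (u ^ r)`, `¬ Tv u`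
then the same holds for `j` (conjugation, `uCj`), so by `syl_lin` some `x ∈ R` is in `UU j` and not trivial on `W j`; it fixes the vector `ρ (k j) (v j) ≠ 0`, contradiction to
`bs_fpf`. (2) Otherwise `Ufr`, so `Abq` is false (for all Sylow subgroups the blocks are fixed: conjugates), for one `j'` and so for `j` (conjugation): `gn_blk` with
`g = (k j)⁻¹` gives a contradiction. -/
theorem gen [Finite J] (h : BS ρ W UU) (hs : Group.IsSolvable H)
    (ho : ¬ 2 ∣ Nat.card H) (hp3 : 3 ≤ p) (j₀ j₁ : J) :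
    ∃ (Δ : Finset J) (v : J → X), j₀ ∈ Δ ∧ j₁ ∈ Δ ∧ (Nontrivial J → 2 ≤ Δ.card) ∧
      (∀ j, v j ∈ W j ∧ v j ≠ 0) ∧ ∀ k : J → H, (∀ j, k j ∈ Nm ρ (W j)) → ∀ r : ℕ, r.Prime → 3 ≤ r →
        ¬ Bt ρ W UU r → ∀ R : Sylow r H,
          ¬ ∀ x ∈ (R : Subgroup H), ρ x (∑ j ∈ Δ, ρ (k j) (v j)) = ∑ j ∈ Δ, ρ (k j) (v j) := by
  classical
  have : Fintype J := Fintype.ofFinite J
  have hWinj : Function.Injective W := h.ind.injective h.ne
  have hex := h.prm
  choose act hact using hex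
  have hact1 : ∀ j, act 1 j = j := by
    intro j
    apply hWinj
    rw [← hact, map_one]
    exact Submodule.map_id _
  have hactm : ∀ g g' j, act (g * g') j = act g (act g' j) := by
    intro g g' j
    apply hWinj
    rw [← hact, ← hact, ← hact, map_mul]
    exact Submodule.map_comp _ _ _
  letI : MulAction H J := { smul := act, one_smul := hact1, mul_smul := hactm }
  have hW : ∀ (g : H) (j : J), (W j).map (ρ g) = W (g • j) := hact
  have htr : MulAction.IsPretransitive H J := by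
    refine ⟨fun j j' => ?_⟩
    obtain ⟨g, hg⟩ := h.tra j j'
    exact ⟨g, hWinj (by rw [← hW, hg])⟩
  obtain ⟨Δ, hΔ0, hΔ1, hΔ2, hΔ3⟩ := pl (Y := H) hs ho htr j₀ j₁
  have hblk := fun j => gn_blk h hs ho hp3 j
  choose v hvW hv0 hvB using hblk
  refine ⟨Δ, v, hΔ0, hΔ1, hΔ2, fun j => ⟨hvW j, hv0 j⟩, ?_⟩
  intro k hk r hr hr3 hB R hfix
  haveI : Fact r.Prime := ⟨hr⟩
  have hinv : ∀ (g : H) (w : X), ρ g⁻¹ (ρ g w) = w := by
    intro g w
    rw [← Module.End.mul_apply, ← map_mul, inv_mul_cancel, map_one, Module.End.one_apply]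
  have hinv' : ∀ (g : H) (w : X), ρ g (ρ g⁻¹ w) = w := by
    intro g w
    rw [← Module.End.mul_apply, ← map_mul, mul_inv_cancel, map_one, Module.End.one_apply]
  have hmem : ∀ (g : H) (j : J) (w : X), w ∈ W j → ρ g w ∈ W (g • j) := by
    intro g j w hw
    rw [← hW]
    exact Submodule.mem_map_of_mem hw
  have hNm : ∀ (g : H) (j : J), g ∈ Nm ρ (W j) ↔ g • j = j := by
    intro g j
    rw [mem_Nm, hW]
    exact hWinj.eq_iff
  set t : J → X := fun j => ρ (k j) (v j) with ht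
  have htW : ∀ j, t j ∈ W j := by
    intro j
    have h1 := hmem (k j) j (v j) (hvW j)
    rwa [(hNm (k j) j).1 (hk j)] at h1
  have ht0 : ∀ j, t j ≠ 0 := by
    intro j h1
    apply hv0 j
    have h2 := hinv (k j) (v j)
    change ρ (k j) (v j) = 0 at h1
    rw [h1, map_zero] at h2
    exact h2.symm
  -- the components
  have hcomp : ∀ x : H, ρ x (∑ j ∈ Δ, t j) = ∑ j ∈ Δ, t j → ∀ j ∈ Δ,
      x • j ∈ Δ ∧ (x • j = j → ρ x (t j) = t j) := by
    intro x hx
    have h1 : ∑ i : J, (if x⁻¹ • i ∈ Δ then ρ x (t (x⁻¹ • i)) else 0) =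
        ∑ i : J, (if i ∈ Δ then t i else 0) := by
      have h2 : ∑ i : J, (if x⁻¹ • i ∈ Δ then ρ x (t (x⁻¹ • i)) else 0) =
          ∑ i : J, (if i ∈ Δ then ρ x (t i) else 0) :=
        Fintype.sum_equiv (MulAction.toPerm x⁻¹) _ _ (fun i => rfl)
      rw [h2, ← Finset.sum_filter, ← Finset.sum_filter]
      have h3 : (Finset.univ.filter fun i => i ∈ Δ) = Δ := by
        ext i
        simp
      rw [h3, ← map_sum]
      exact hx
    have h4 := ((iSupIndep_iff_finsetSum_eq_imp_eq W).1 h.ind) Finset.univ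
      (fun i => if x⁻¹ • i ∈ Δ then ρ x (t (x⁻¹ • i)) else 0) (fun i => if i ∈ Δ then t i else 0)
      (fun i _ => by
        refine ⟨?_, ?_⟩
        · split_ifs
          · have h5 := hmem x (x⁻¹ • i) _ (htW (x⁻¹ • i))
            rwa [smul_inv_smul] at h5
          · exact zero_mem _
        · split_ifs
          · exact htW i
          · exact zero_mem _) h1
    intro j hj
    have h5 := h4 (x • j) (Finset.mem_univ _)
    simp only [inv_smul_smul, hj, if_true] at h5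
    refine ⟨?_, fun h6 => ?_⟩
    · by_contra h6
      rw [if_neg h6] at h5
      apply ht0 j
      have h7 := hinv x (t j)
      rw [h5, map_zero] at h7
      exact h7.symm
    · rw [h6, if_pos hj] at h5
      exact h5
  have hstab : ∀ x ∈ (R : Subgroup H), ∀ j ∈ Δ, x • j ∈ Δ := fun x hx j hj => (hcomp x (hfix x hx) j hj).1
  have hRJ := hΔ3 r hr hr3 R hstab
  have hfixj : ∀ x ∈ (R : Subgroup H), ∀ j ∈ Δ, ρ x (t j) = t j := fun x hx j hj =>
    (hcomp x (hfix x hx) j hj).2 (hRJ x hx j)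
  have hRN : ∀ x ∈ (R : Subgroup H), ∀ j, x ∈ Nm ρ (W j) := fun x hx j => (hNm x j).2 (hRJ x hx j)
  -- conjugates of `R`
  have hconj : ∀ (R' : Sylow r H), ∃ g : H, ∀ x ∈ (R' : Subgroup H), g⁻¹ * x * g ∈ (R : Subgroup H) := by
    intro R'
    obtain ⟨g, hg⟩ := MulAction.exists_smul_eq H R R'
    refine ⟨g, fun x hx => ?_⟩
    rw [← hg, Sylow.coe_subgroup_smul, Subgroup.mem_pointwise_smul_iff_inv_smul_mem, ← map_inv,
      MulAut.smul_def, MulAut.conj_apply, inv_inv] at hx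
    exact hx
  have hR1 : ¬ ∀ x ∈ (R : Subgroup H), ∀ w, ρ x w = w := by
    intro h1
    apply hB
    left
    intro R' x hx w
    obtain ⟨g, hg⟩ := hconj R'
    have h2 := h1 _ (hg x hx) (ρ g⁻¹ w)
    have h3 : ρ (g⁻¹ * x * g) (ρ g⁻¹ w) = ρ g⁻¹ (ρ x w) := by
      rw [map_mul, map_mul, Module.End.mul_apply, Module.End.mul_apply, hinv']
    rw [h3] at h2
    have h4 := congrArg (ρ g) h2
    rwa [hinv', hinv'] at h4
  have hR2 : ¬ ∀ x ∈ (R : Subgroup H), Tv ρ (W j₀) x := fun h1 =>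
    hR1 (syl_all h r hr R hRN j₀ h1)
  by_cases hU : Ufr ρ W UU r
  · -- the stabilizers are not abelian modulo `UU`
    have hA : ¬ Abq ρ W UU := by
      intro h1
      apply hB
      right
      refine ⟨?_, h1, hU⟩
      intro R' x hx j
      obtain ⟨g, hg⟩ := hconj R'
      have h2 := hRJ _ (hg x hx) (g⁻¹ • j)
      rw [hW]
      congr 1
      rw [mul_smul, mul_smul, smul_inv_smul] at h2
      have h3 := congrArg (fun i => g • i) h2
      simpa using h3
    unfold Abq at hA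
    push Not at hA
    obtain ⟨j', x, hx, y, hy, hxy⟩ := hA
    obtain ⟨g, hg⟩ := h.tra j' j₀
    have hgj : g • j' = j₀ := hWinj (by rw [← hW, hg])
    have hgj' : g⁻¹ • j₀ = j' := by rw [← hgj, inv_smul_smul]
    have hcj : ∀ z ∈ Nm ρ (W j'), g * z * g⁻¹ ∈ Nm ρ (W j₀) := by
      intro z hz
      rw [hNm] at hz ⊢
      rw [mul_smul, mul_smul, hgj', hz, hgj]
    have hn : ¬ ∀ x ∈ Nm ρ (W j₀), ∀ y ∈ Nm ρ (W j₀), x * y * x⁻¹ * y⁻¹ ∈ UU j₀ := by
      intro h1
      apply hxy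
      have h2 := h1 _ (hcj x hx) _ (hcj y hy)
      have h3 := h.uCj g⁻¹ j₀ j' (by rw [hW, hgj']) _ h2
      have h4 : g⁻¹ * (g * x * g⁻¹ * (g * y * g⁻¹) * (g * x * g⁻¹)⁻¹ * (g * y * g⁻¹)⁻¹) * g⁻¹⁻¹ =
          x * y * x⁻¹ * y⁻¹ := by group
      rwa [h4] at h3
    refine hR2 (hvB j₀ hn r hr hr3 (hU j₀) R (fun x hx => hRN x hx j₀) (k j₀)⁻¹
      (inv_mem (hk j₀)) ?_)
    intro x hx
    have h1 := hfixj x hx j₀ hΔ0
    have h2 : ρ ((k j₀)⁻¹ * x * (k j₀)⁻¹⁻¹) (v j₀) = ρ (k j₀)⁻¹ (ρ x (t j₀)) := by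
      rw [inv_inv, map_mul, map_mul, Module.End.mul_apply, Module.End.mul_apply]
    rw [h2, h1]
    exact hinv _ _
  · -- an element of order `r` in the linear part
    unfold Ufr at hU
    push Not at hU
    obtain ⟨j', u, hu, hur, hu1⟩ := hU
    obtain ⟨g, hg⟩ := h.tra j' j₀
    have hgj : g • j' = j₀ := hWinj (by rw [← hW, hg])
    have hgj' : g⁻¹ • j₀ = j' := by rw [← hgj, inv_smul_smul]
    have hu2 := h.uCj g j' j₀ hg u hu
    have h1 : Tv ρ (W j₀) ((g * u * g⁻¹) ^ r) := by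
      intro w hw
      have h2 : ρ g⁻¹ w ∈ W j' := by
        have := hmem g⁻¹ j₀ w hw
        rwa [hgj'] at this
      rw [conj_pow, map_mul, map_mul, Module.End.mul_apply, Module.End.mul_apply, hur _ h2, hinv']
    have h2 : ¬ Tv ρ (W j₀) (g * u * g⁻¹) := by
      intro h3
      apply hu1
      intro w hw
      have h4 : ρ g w ∈ W j₀ := by
        have := hmem g j' w hw
        rwa [hgj] at this
      have h5 := h3 _ h4
      rw [map_mul, map_mul, Module.End.mul_apply, Module.End.mul_apply, hinv] at h5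
      have h6 := congrArg (ρ g⁻¹) h5
      rwa [hinv, hinv] at h6
    obtain ⟨x, hxR, hxU, hx1⟩ := syl_lin h r hr R j₀ (fun x hx => hRN x hx j₀) ⟨_, hu2, h1, h2⟩
    exact hx1 (bs_fpf h j₀ x hxU (t j₀) (htW j₀) (ht0 j₀) (hfixj x hxR j₀ hΔ0))
-- END gn4

-- BEGIN gn5
/-- (gn5, size 2) One block, semilinear case. PROOF. `W j = ⊤`. `r` is not of type `B`, the Sylow subgroups fix the block and `Abq` holds, so `Ufr` fails: `syl_lin` gives
an `x ∈ R` in `UU j`, not trivial; then `ρ x - 1` is injective (`bs_fpf`). -/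
theorem gen_one [Subsingleton J] (h : BS ρ W UU) (hab : Abq ρ W UU) (r : ℕ) (hr : r.Prime)
    (hB : ¬ Bt ρ W UU r) (R : Sylow r H) :
    ∃ x ∈ (R : Subgroup H), (∃ j, x ∈ UU j) ∧ ∀ v, ρ x v = v → v = 0 := by
  have hfix : ∀ x : H, ∀ j, (W j).map (ρ x) = W j := by
    intro x j
    obtain ⟨j', hj'⟩ := h.prm x j
    rw [hj', Subsingleton.elim j' j]
  have hU : ¬ Ufr ρ W UU r := fun hU => hB (Or.inr ⟨fun R x _ j => hfix x j, hab, hU⟩)
  unfold Ufr at hU
  push Not at hU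
  obtain ⟨j, u, hu, hu1, hu2⟩ := hU
  obtain ⟨x, hx, hxU, hxT⟩ := syl_lin h r hr R j (fun x _ => hfix x j) ⟨u, hu, hu1, hu2⟩
  refine ⟨x, hx, ⟨j, hxU⟩, fun v hv => ?_⟩
  by_contra hv0
  have htop : (⊤ : Submodule (ZMod p) X) ≤ W j := by
    rw [← h.sup]
    refine iSup_le fun j' => ?_
    rw [Subsingleton.elim j' j]
  exact hxT (bs_fpf h j x hxU v (htop Submodule.mem_top) hv0 hv)
-- END gn5

end

end Pool.Agent.Nao
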