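import Pool.Agent.Nas.Ha
import Pool.Agent.Nas.St

/-! The special vector, groups of odd order. -/

set_option autoImplicit false

namespace Pool.Agent.Nao

open Pool.Agent.Nan Pool.Agent.Nas

section
variable {p : ℕ} [Fact p.Prime] {H : Type} [Group H] [Finite H]

private theorem sp_num1 (a : ℕ) : a ^ 15 ≤ 4 ^ 15 * 9 ^ a := by
  rcases Nat.lt_or_ge a 7 with h1 | h2
  · interval_cases a <;> norm_num
  · induction a, h2 using Nat.le_induction with
    | base => norm_num
    | succ a h2 ih =>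
      have h3 : (7 * (a + 1)) ^ 15 ≤ (8 * a) ^ 15 := Nat.pow_le_pow_left (by omega) 15
      rw [mul_pow, mul_pow] at h3
      have h4 : (9 : ℕ) ^ (a + 1) = 9 ^ a * 9 := pow_succ _ _
      rw [h4]
      norm_num at h3 ih ⊢
      omega

private theorem sp_num (a u z t3 t5 N b3 b5 : ℕ) (h1 : 2 * u + 1 ≤ z) (h2 : z ^ 3 ≤ N)
    (h3 : t3 ^ 3 ≤ N) (h4 : t5 ^ 5 ≤ N) (h5 : 3 ^ a ≤ N) (h6 : 2 * b3 ≤ 2 * u * (z * t3))
    (h7 : 4 * b5 ≤ a * u * (z * t5)) : b3 + b5 < N := by
  have hN : 0 < N := lt_of_lt_of_le (by positivity) h5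
  have h8 : 2 * b3 < N := by
    rcases Nat.eq_zero_or_pos t3 with h0 | h0
    · rw [h0, mul_zero, mul_zero] at h6
      omega
    · have h9 : z * z * t3 ≤ N := by
        have h10 : (z * z * t3) ^ 3 ≤ N ^ 3 := by
          calc (z * z * t3) ^ 3 = z ^ 3 * z ^ 3 * t3 ^ 3 := by ring
            _ ≤ N * N * N := Nat.mul_le_mul (Nat.mul_le_mul h2 h2) h3
            _ = N ^ 3 := by ring
        exact (Nat.pow_le_pow_iff_left (by norm_num)).1 h10
      have h10 : (2 * u + 1) * (z * t3) ≤ z * z * t3 := by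
        rw [mul_assoc z z t3]
        exact Nat.mul_le_mul_right _ h1
      have h11 : (2 * u + 1) * (z * t3) = 2 * u * (z * t3) + z * t3 := by ring
      have h12 : 0 < z * t3 := Nat.mul_pos (by omega) h0
      omega
  have h9 : 2 * b5 ≤ N := by
    have h10 : a * z * z * t5 ≤ 4 * N := by
      have h11 : (a * z * z * t5) ^ 15 ≤ (4 * N) ^ 15 := by
        have h12 : a ^ 15 ≤ 4 ^ 15 * N ^ 2 := by
          refine (sp_num1 a).trans (Nat.mul_le_mul_left _ ?_)
          calc 9 ^ a = (3 ^ a) ^ 2 := by rw [← pow_mul, mul_comm, pow_mul]; norm_num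
            _ ≤ N ^ 2 := Nat.pow_le_pow_left h5 2
        calc (a * z * z * t5) ^ 15 = a ^ 15 * (z ^ 3) ^ 10 * (t5 ^ 5) ^ 3 := by ring
          _ ≤ 4 ^ 15 * N ^ 2 * N ^ 10 * N ^ 3 := Nat.mul_le_mul (Nat.mul_le_mul h12
              (Nat.pow_le_pow_left h2 10)) (Nat.pow_le_pow_left h4 3)
          _ = (4 * N) ^ 15 := by ring
      exact (Nat.pow_le_pow_iff_left (by norm_num)).1 h11
    have h11 : a * (2 * u) * (z * t5) ≤ a * z * z * t5 := by
      calc a * (2 * u) * (z * t5) ≤ a * z * (z * t5) :=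
            Nat.mul_le_mul_right _ (Nat.mul_le_mul_left _ (by omega))
        _ = a * z * z * t5 := by ring
    have h12 : a * (2 * u) * (z * t5) = 2 * (a * u * (z * t5)) := by ring
    omega
  omega

/-- Double counting. -/
private theorem sp_dbl {L Y : Type} [Group L] [Finite L] [AddCommGroup Y] [Module (ZMod p) Y]
    [Fintype Y] {ρ : Representation (ZMod p) L Y} (Z : Submodule (ZMod p) Y) [DecidableEq Y]
    (T : Finset L) (hTZ : ∀ x ∈ T, ∀ z ∈ Z, ρ x z ∈ Z) (c t : ℕ)
    (hpow : ∀ x ∈ T, ∀ i < c, x ^ (i + 1) ∈ T) (hord : ∀ x ∈ T, c < orderOf x)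
    (ht : ∀ x ∈ T, Nat.card {w : Y // ρ x w = w} ≤ t)
    (hpre : ∀ f : Y →ₗ[ZMod p] Y, Nat.card {m : Y // f m ∈ Z} ≤
      Nat.card Z * Nat.card {m : Y // f m = 0})
    (Bd : Finset Y) (hBd : ∀ m ∈ Bd, ∃ x ∈ T, ρ x m - m ∈ Z) :
    c * Bd.card ≤ T.card * (Nat.card Z * t) := by
  classical
  rw [mul_comm c]
  refine Finset.card_mul_le_card_mul (fun (m : Y) (x : L) => ρ x m - m ∈ Z) ?_ ?_
  · intro m hm
    obtain ⟨x, hxT, hxm⟩ := hBd m hm
    have hZi : ∀ i : ℕ, ∀ z ∈ Z, ρ (x ^ i) z ∈ Z := by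
      intro i
      induction i with
      | zero =>
        intro z hz
        rw [pow_zero, map_one]
        exact hz
      | succ i ih =>
        intro z hz
        rw [pow_succ, map_mul, Module.End.mul_apply]
        exact ih _ (hTZ x hxT z hz)
    have hpm : ∀ i : ℕ, ρ (x ^ i) m - m ∈ Z := by
      intro i
      induction i with
      | zero =>
        rw [pow_zero, map_one, Module.End.one_apply, sub_self]
        exact zero_mem _
      | succ i ih =>
        have h1 : ρ (x ^ (i + 1)) m - m = ρ (x ^ i) (ρ x m - m) + (ρ (x ^ i) m - m) := by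
          rw [pow_succ, map_mul, Module.End.mul_apply, map_sub]
          abel
        rw [h1]
        exact add_mem (hZi i _ hxm) ih
    have h3 : ((Finset.range c).image fun i => x ^ (i + 1)) ⊆
        Finset.bipartiteAbove (fun (m : Y) (x : L) => ρ x m - m ∈ Z) T m := by
      intro y hy
      obtain ⟨i, hi, rfl⟩ := Finset.mem_image.1 hy
      rw [Finset.mem_range] at hi
      rw [Finset.mem_bipartiteAbove]
      exact ⟨hpow x hxT i hi, hpm _⟩
    have h4 : ((Finset.range c).image fun i => x ^ (i + 1)).card = c := by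
      rw [Finset.card_image_of_injOn, Finset.card_range]
      intro i hi j hj hij
      rw [Finset.coe_range, Set.mem_Iio] at hi hj
      have hij' : x ^ (i + 1) = x ^ (j + 1) := hij
      have hco := hord x hxT
      have h5 := pow_injOn_Iio_orderOf (x := x) (show i + 1 ∈ Set.Iio (orderOf x) by
        rw [Set.mem_Iio]; omega) (show j + 1 ∈ Set.Iio (orderOf x) by
        rw [Set.mem_Iio]; omega) hij'
      omega
    calc c = _ := h4.symm
      _ ≤ _ := Finset.card_le_card h3
  · intro x hx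
    calc (Finset.bipartiteBelow (fun (m : Y) (x : L) => ρ x m - m ∈ Z) Bd x).card
        ≤ (Finset.univ.filter fun m : Y => ρ x m - m ∈ Z).card := by
          apply Finset.card_le_card
          intro m hm
          rw [Finset.mem_bipartiteBelow] at hm
          exact Finset.mem_filter.2 ⟨Finset.mem_univ _, hm.2⟩
      _ = Nat.card {m : Y // (ρ x - 1 : Module.End (ZMod p) Y) m ∈ Z} := by
          rw [Nat.card_eq_fintype_card, Fintype.card_subtype]
          rfl
      _ ≤ Nat.card Z * Nat.card {m : Y // (ρ x - 1 : Module.End (ZMod p) Y) m = 0} := hpre _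
      _ ≤ Nat.card Z * t := by
          apply Nat.mul_le_mul_left
          refine le_trans (le_of_eq ?_) (ht x hx)
          refine Nat.card_congr (Equiv.subtypeEquivRight fun m => ?_)
          show ρ x m - m = 0 ↔ _
          exact sub_eq_zero

/-- the preimage of a subspace -/
private theorem sp_pre {Y : Type} [AddCommGroup Y] [Module (ZMod p) Y] [Finite Y]
    (f : Y →ₗ[ZMod p] Y) (Z : Submodule (ZMod p) Y) :
    Nat.card {m : Y // f m ∈ Z} ≤ Nat.card Z * Nat.card {m : Y // f m = 0} := by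
  classical
  -- choose preimages
  have hch : ∀ z : Z, (∃ m, f m = z) → ∃ m, f m = z := fun z h => h
  let g : Z → Y := fun z => if h : ∃ m, f m = z then h.choose else 0
  have hg : ∀ m : Y, ∀ hm : f m ∈ Z, f (g ⟨f m, hm⟩) = f m := by
    intro m hm
    have h : ∃ m', f m' = ((⟨f m, hm⟩ : Z) : Y) := ⟨m, rfl⟩
    show f (if h : ∃ m', f m' = ((⟨f m, hm⟩ : Z) : Y) then h.choose else 0) = f m
    rw [dif_pos h]
    exact h.choose_spec
  rw [← Nat.card_prod]
  refine Nat.card_le_card_of_injective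
    (fun m : {m : Y // f m ∈ Z} => (⟨⟨f m.1, m.2⟩, ⟨m.1 - g ⟨f m.1, m.2⟩, by
      rw [map_sub, hg, sub_self]⟩⟩ : Z × {m : Y // f m = 0})) ?_
  rintro ⟨m, hm⟩ ⟨m', hm'⟩ h
  rw [Prod.mk.injEq] at h
  obtain ⟨h1, h2⟩ := h
  have h3 := Subtype.ext_iff.1 h2
  simp only at h3
  rw [h1] at h3
  exact Subtype.ext (sub_left_injective h3)

/-- At most two automorphisms of order three. -/
private theorem sp_cyc {K : Type} [Field K] [Finite K] [CharP K p] [DecidableEq (K ≃+* K)]
    [Fintype (K ≃+* K)] :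
    (Finset.univ.filter fun τ : K ≃+* K => τ ≠ 1 ∧ τ ^ 3 = 1).card ≤ 2 := by
  classical
  let _ := ZMod.algebra K p
  have : Fintype (K ≃ₐ[ZMod p] K) := Fintype.ofFinite _
  let e : (K ≃+* K) ≃* (K ≃ₐ[ZMod p] K) :=
    { toFun := fun f => AlgEquiv.ofRingEquiv (f := f) fun r => by
        have h1 : (f : K →+* K).comp (algebraMap (ZMod p) K) = algebraMap (ZMod p) K :=
          Subsingleton.elim _ _
        exact congrArg (fun g : ZMod p →+* K => g r) h1
      invFun := fun f => f.toRingEquiv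
      left_inv := fun f => by ext c; rfl
      right_inv := fun f => by ext c; rfl
      map_mul' := fun f g => by ext c; rfl }
  have h1 : IsCyclic (K ≃ₐ[ZMod p] K) := inferInstance
  have h2 := IsCyclic.card_pow_eq_one_le (α := K ≃ₐ[ZMod p] K) (n := 3) (by norm_num)
  have h3 : (insert (1 : K ≃+* K) (Finset.univ.filter fun τ : K ≃+* K => τ ≠ 1 ∧ τ ^ 3 = 1)).card ≤
      (Finset.univ.filter fun a : K ≃ₐ[ZMod p] K => a ^ 3 = 1).card := by
    apply Finset.card_le_card_of_injOn e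
    · intro τ hτ
      rw [Finset.mem_coe, Finset.mem_insert] at hτ
      rw [Finset.mem_coe, Finset.mem_filter]
      refine ⟨Finset.mem_univ _, ?_⟩
      rcases hτ with rfl | hτ
      · rw [map_one, one_pow]
      · rw [← map_pow, (Finset.mem_filter.1 hτ).2.2, map_one]
    · exact e.injective.injOn
  rw [Finset.card_insert_of_notMem (by simp)] at h3
  omega

/-- the version for a quasi-primitive group -/
private theorem sp_aux {L Y : Type} [Group L] [Finite L] [AddCommGroup Y] [Module (ZMod p) Y]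
    [Finite Y] [Nontrivial Y] {ρ : Representation (ZMod p) L Y} {U : Subgroup L} (h : QP ρ U)
    (hp : 3 ≤ p) (ho : ¬ 2 ∣ Nat.card L) (hab : ∀ x y : L, x * y * x⁻¹ * y⁻¹ ∈ U)
    (S : Subgroup L)
    (Z : Submodule (ZMod p) Y) (hZ : Z ≠ ⊥) (hZS : ∀ x ∈ S, ∀ z ∈ Z, ρ x z ∈ Z)
    (hc : Nat.card Z ^ 3 ≤ Nat.card Y) :
    ∃ m : Y, ∀ x ∈ S, ∀ s : ℕ, s.Prime → 3 ≤ s → (∀ u ∈ U, u ^ s = 1 → u = 1) → x ^ s = 1 →
      ρ x m - m ∈ Z → x = 1 := by
  classical
  obtain ⟨a, ha, -, hidx, -, ⟨d, hd, hcard⟩, hgal⟩ := qp_gal h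
  -- the centralizer of `U` is `U`
  have hcent : Subgroup.centralizer (U : Set L) = U := by
    apply le_antisymm
    · intro z hz
      rw [Subgroup.mem_centralizer_iff] at hz
      have hzU : z ∈ U ⊔ Subgroup.zpowers z := Subgroup.mem_sup_right (Subgroup.mem_zpowers z)
      refine h.mx (U ⊔ Subgroup.zpowers z) ⟨⟨?_⟩, ?_⟩ le_sup_left hzU
      · intro n hn g
        have h1 : g * n * g⁻¹ = g * n * g⁻¹ * n⁻¹ * n := by group
        rw [h1]
        exact mul_mem (Subgroup.mem_sup_left (hab g n)) hn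
      · have h1 : U ⊔ Subgroup.zpowers z ≤ Subgroup.centralizer (U : Set L) := by
          refine sup_le (fun u hu => ?_) ?_
          · rw [Subgroup.mem_centralizer_iff]
            intro u' hu'
            exact h.ab.com u' hu' u hu
          · rw [Subgroup.zpowers_le, Subgroup.mem_centralizer_iff]
            exact hz
        have h2 : U ⊔ Subgroup.zpowers z ≤ Subgroup.centralizer ({z} : Set L) := by
          refine sup_le (fun u hu => ?_) ?_
          · rw [Subgroup.mem_centralizer_iff]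
            rintro _ rfl
            exact (hz u hu).symm
          · rw [Subgroup.zpowers_le, Subgroup.mem_centralizer_iff]
            rintro _ rfl
            rfl
        intro x hx
        have h3 : U ⊔ Subgroup.zpowers z ≤ Subgroup.centralizer ({x} : Set L) := by
          refine sup_le (fun u hu => ?_) ?_
          · rw [Subgroup.mem_centralizer_iff]
            rintro _ rfl
            exact (Subgroup.mem_centralizer_iff.1 (h1 hx) u hu).symm
          · rw [Subgroup.zpowers_le, Subgroup.mem_centralizer_iff]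
            rintro _ rfl
            exact (Subgroup.mem_centralizer_iff.1 (h2 hx) z rfl).symm
        intro y hy
        exact Subgroup.mem_centralizer_iff.1 (h3 hy) x rfl
    · intro u hu
      rw [Subgroup.mem_centralizer_iff]
      intro u' hu'
      exact h.ab.com u' hu' u hu
  have hUn : U.Normal := h.ab.nor
  -- the order of `S ⊓ U`
  set u := Nat.card (U.subgroupOf S) with hu
  have hSU : 2 * u + 1 ≤ Nat.card Z := by
    obtain ⟨z0, hz0, hz1⟩ := Submodule.exists_mem_ne_zero_of_ne_bot hZ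
    have hinj : ∀ g g' : U.subgroupOf S, ρ ((g : S) : L) z0 = ρ ((g' : S) : L) z0 → g = g' := by
      intro g g' h2
      have hg : ((g : S) : L) ∈ U := g.2
      have hg' : ((g' : S) : L) ∈ U := g'.2
      have h3 : ρ (((g' : S) : L)⁻¹ * ((g : S) : L)) z0 = z0 := by
        rw [map_mul, Module.End.mul_apply, h2, ← Module.End.mul_apply, ← map_mul, inv_mul_cancel,
          map_one, Module.End.one_apply]
      have h4 := qp_fpf h U h.ab _ (mul_mem (inv_mem hg') hg) z0 hz1 h3
      have h5 : ((g : S) : L) = ((g' : S) : L) := by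
        rw [inv_mul_eq_one] at h4
        exact h4.symm
      exact Subtype.ext (Subtype.ext h5)
    -- `-1` is not in the image of `S ⊓ U`
    have hneg : ∀ g g' : U.subgroupOf S, ρ ((g : S) : L) z0 ≠ - ρ ((g' : S) : L) z0 := by
      intro g g' h2
      have hg : ((g : S) : L) ∈ U := g.2
      have hg' : ((g' : S) : L) ∈ U := g'.2
      set w := ((g' : S) : L)⁻¹ * ((g : S) : L) with hw
      have hwU : w ∈ U := mul_mem (inv_mem hg') hg
      have h3 : ρ w z0 = - z0 := by
        rw [hw, map_mul, Module.End.mul_apply, h2, map_neg, ← Module.End.mul_apply, ← map_mul,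
          inv_mul_cancel, map_one, Module.End.one_apply]
      have h4 : ρ (w ^ 2) z0 = z0 := by
        rw [pow_two, map_mul, Module.End.mul_apply, h3, map_neg, h3, neg_neg]
      have h5 := qp_fpf h U h.ab _ (pow_mem hwU 2) z0 hz1 h4
      have h6 : w = 1 := by
        have h7 : orderOf w ∣ 2 := orderOf_dvd_of_pow_eq_one h5
        have h8 : orderOf w ∣ Nat.card L := orderOf_dvd_natCard w
        rcases (Nat.dvd_prime Nat.prime_two).1 h7 with h9 | h9
        · exact orderOf_eq_one_iff.1 h9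
        · rw [h9] at h8
          exact absurd h8 ho
      rw [h6, map_one, Module.End.one_apply] at h3
      have h7 : (2 : ZMod p) • z0 = 0 := by
        rw [two_smul]
        nth_rewrite 1 [h3]
        exact neg_add_cancel z0
      rcases smul_eq_zero.1 h7 with h8 | h8
      · have h9 : ((2 : ℕ) : ZMod p) = 0 := by exact_mod_cast h8
        rw [ZMod.natCast_eq_zero_iff] at h9
        have := Nat.le_of_dvd (by norm_num) h9
        omega
      · exact hz1 h8
    have h1 : Nat.card (Option ((U.subgroupOf S) × Bool)) ≤ Nat.card Z := by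
      refine Nat.card_le_card_of_injective
        (fun o : Option ((U.subgroupOf S) × Bool) => (match o with
          | none => (0 : Z)
          | some (g, true) => ⟨ρ ((g : S) : L) z0, hZS _ (g : S).2 z0 hz0⟩
          | some (g, false) => ⟨- ρ ((g : S) : L) z0, neg_mem (hZS _ (g : S).2 z0 hz0)⟩ : Z)) ?_
      have hne0 : ∀ g : U.subgroupOf S, ρ ((g : S) : L) z0 ≠ 0 := by
        intro g h0
        apply hz1
        have h2 : ρ (((g : S) : L)⁻¹) (ρ ((g : S) : L) z0) = z0 := by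
          rw [← Module.End.mul_apply, ← map_mul, inv_mul_cancel, map_one, Module.End.one_apply]
        rw [h0, map_zero] at h2
        exact h2.symm
      rintro (_ | ⟨g, b⟩) (_ | ⟨g', b'⟩) hgg
      · rfl
      · exfalso
        cases b'
        · exact hne0 g' (neg_eq_zero.1 (congrArg Subtype.val hgg).symm)
        · exact hne0 g' (congrArg Subtype.val hgg).symm
      · exfalso
        cases b
        · exact hne0 g (neg_eq_zero.1 (congrArg Subtype.val hgg))
        · exact hne0 g (congrArg Subtype.val hgg)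
      · cases b <;> cases b'
        · have h2 : - ρ ((g : S) : L) z0 = - ρ ((g' : S) : L) z0 := congrArg Subtype.val hgg
          rw [hinj g g' (neg_injective h2)]
        · have h2 : - ρ ((g : S) : L) z0 = ρ ((g' : S) : L) z0 := congrArg Subtype.val hgg
          exact absurd h2.symm (hneg g' g)
        · have h2 : ρ ((g : S) : L) z0 = - ρ ((g' : S) : L) z0 := congrArg Subtype.val hgg
          exact absurd h2 (hneg g g')
        · have h2 : ρ ((g : S) : L) z0 = ρ ((g' : S) : L) z0 := congrArg Subtype.val hgg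
          rw [hinj g g' h2]
    have h2 : Nat.card (Option ((U.subgroupOf S) × Bool)) = 2 * u + 1 := by
      rw [Finite.card_option, Nat.card_prod, Nat.card_eq_fintype_card (α := Bool),
        Fintype.card_bool, mul_comm]
    omega
  -- the order of `S`
  have hS1 : Nat.card S ≤ a * u := by
    have h2 : U.relIndex S ≤ a := by
      refine Nat.le_of_dvd ha ((Subgroup.relIndex_dvd_index_of_normal U S).trans ?_)
      rwa [hcent] at hidx
    have h3 : Nat.card (U.subgroupOf S) * U.relIndex S = Nat.card S :=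
      Subgroup.card_mul_index (U.subgroupOf S)
    rw [← h3, mul_comm]
    exact Nat.mul_le_mul_right _ h2
  have := Fintype.ofFinite L
  have := Fintype.ofFinite Y
  -- the elements of order three
  let T3 : Finset L := Finset.univ.filter fun x => x ∈ S ∧ x ≠ 1 ∧ (∀ u ∈ U, u ^ 3 = 1 → u = 1) ∧
    x ^ 3 = 1
  let T5 : Finset L := Finset.univ.filter fun x => x ∈ S ∧ x ≠ 1 ∧
    ∃ s : ℕ, s.Prime ∧ 5 ≤ s ∧ (∀ u ∈ U, u ^ s = 1 → u = 1) ∧ x ^ s = 1
  have hT3 : T3.card ≤ 2 * u := by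
    obtain ⟨K, iF, iFin, iCh, iMod, χ, σ, hχ, hχρ, hσρ, hσ, hgen⟩ := qp_fld h
    have hf1 : Finite (K ≃+* K) := Finite.of_injective (fun f : K ≃+* K => (f : K → K))
      (fun f g hfg => RingEquiv.ext fun x => congrFun hfg x)
    have : Fintype (K ≃+* K) := Fintype.ofFinite _
    have hker : ∀ g : L, σ g = 1 ↔ g ∈ U := by
      intro g
      rw [hσ]
      constructor
      · intro h1
        rw [← hcent, Subgroup.mem_centralizer_iff]
        exact fun u hu => (h1 u hu).symm
      · intro h1 u hu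
        exact h.ab.com g h1 u hu
    have h1 : T3.card ≤ u * (T3.image σ).card := by
      apply Finset.card_le_mul_card_image
      intro b hb
      obtain ⟨x, hx, rfl⟩ := Finset.mem_image.1 hb
      have hxS : x ∈ S := (Finset.mem_filter.1 hx).2.1
      rw [hu, Nat.card_eq_fintype_card]
      have h2 : ∀ y : {y // y ∈ T3.filter fun y => σ y = σ x}, x⁻¹ * y.1 ∈ S ∧ x⁻¹ * y.1 ∈ U := by
        rintro ⟨y, hy⟩
        obtain ⟨hyT, hyx⟩ := Finset.mem_filter.1 hy
        refine ⟨mul_mem (inv_mem hxS) (Finset.mem_filter.1 hyT).2.1, ?_⟩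
        rw [← hker, map_mul, map_inv, hyx, inv_mul_cancel]
      rw [← Fintype.card_coe]
      refine Fintype.card_le_of_injective (fun y =>
        (⟨⟨x⁻¹ * y.1, (h2 y).1⟩, (h2 y).2⟩ : U.subgroupOf S)) ?_
      intro y y' hyy
      have h3 : x⁻¹ * y.1 = x⁻¹ * y'.1 :=
        congrArg (fun z : U.subgroupOf S => ((z : S) : L)) hyy
      exact Subtype.ext (mul_left_cancel h3)
    have h2 : (T3.image σ).card ≤ 2 := by
      refine le_trans (Finset.card_le_card ?_) (sp_cyc (p := p) (K := K))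
      intro τ hτ
      obtain ⟨x, hx, rfl⟩ := Finset.mem_image.1 hτ
      obtain ⟨-, hxS, hx1, hxU, hx3⟩ := Finset.mem_filter.1 hx
      refine Finset.mem_filter.2 ⟨Finset.mem_univ _, ?_, ?_⟩
      · rw [Ne, hker]
        exact fun hxu => hx1 (hxU x hxu hx3)
      · rw [← map_pow, hx3, map_one]
    calc T3.card ≤ u * (T3.image σ).card := h1
      _ ≤ u * 2 := Nat.mul_le_mul_left _ h2
      _ = 2 * u := mul_comm _ _
  have hT5 : T5.card ≤ a * u := by
    refine le_trans ?_ hS1
    rw [Nat.card_eq_fintype_card, ← Fintype.card_coe]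
    exact Fintype.card_le_of_injective
      (fun x : T5 => (⟨x.1, (Finset.mem_filter.1 x.2).2.1⟩ : S)) (fun x y hxy => by
        have := Subtype.ext_iff.1 hxy
        exact Subtype.ext this)
  -- fixed vectors
  have hfixc : ∀ k : ℕ, 0 < k → ∃ t : ℕ, t ^ k ≤ Nat.card Y ∧
      ∀ s : ℕ, s ^ k ≤ Nat.card Y → s ≤ t := by
    intro k hk
    refine ⟨Nat.findGreatest (fun s => s ^ k ≤ Nat.card Y) (Nat.card Y), ?_, ?_⟩
    · exact Nat.findGreatest_spec (P := fun s => s ^ k ≤ Nat.card Y) (m := 0) (Nat.zero_le _)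
        (by rw [zero_pow hk.ne']; exact Nat.zero_le _)
    · intro s hs2
      exact Nat.le_findGreatest ((Nat.le_self_pow hk.ne' s).trans hs2) hs2
  obtain ⟨t3, ht3, ht3'⟩ := hfixc 3 (by norm_num)
  obtain ⟨t5, ht5, ht5'⟩ := hfixc 5 (by norm_num)
  have hgal' : ∀ (k s : ℕ) (x : L), k ≤ s → s.Prime → x ≠ 1 → (∀ u ∈ U, u ^ s = 1 → u = 1) →
      x ^ s = 1 → Nat.card {w : Y // ρ x w = w} ^ k ≤ Nat.card Y := by
    intro k s x hks hs hx1 hxU hxs
    have hpos : 0 < Nat.card {w : Y // ρ x w = w} := by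
      have : Nonempty {w : Y // ρ x w = w} := ⟨⟨0, map_zero _⟩⟩
      exact Nat.card_pos
    refine (Nat.pow_le_pow_right hpos hks).trans (hgal s x hs hxs ?_)
    rw [hcent]
    exact fun hxu => hx1 (hxU x hxu hxs)
  have hordp : ∀ (s : ℕ) (x : L), s.Prime → x ≠ 1 → x ^ s = 1 → orderOf x = s := by
    intro s x hs hx1 hxs
    have : Fact s.Prime := ⟨hs⟩
    exact orderOf_eq_prime hxs hx1
  have hne1 : ∀ (s : ℕ) (x : L), s.Prime → x ≠ 1 → x ^ s = 1 → ∀ i : ℕ, i + 1 < s →
      x ^ (i + 1) ≠ 1 := by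
    intro s x hs hx1 hxs i his h0
    have h1 := Nat.le_of_dvd (Nat.succ_pos i) (orderOf_dvd_of_pow_eq_one h0)
    rw [hordp s x hs hx1 hxs] at h1
    omega
  have hpe : ∀ (s : ℕ) (x : L), x ^ s = 1 → ∀ i : ℕ, (x ^ i) ^ s = 1 := by
    intro s x hxs i
    rw [← pow_mul, mul_comm, pow_mul, hxs, one_pow]
  let B3 : Finset Y := Finset.univ.filter fun m => ∃ x ∈ T3, ρ x m - m ∈ Z
  let B5 : Finset Y := Finset.univ.filter fun m => ∃ x ∈ T5, ρ x m - m ∈ Z
  have hB3 : 2 * B3.card ≤ 2 * u * (Nat.card Z * t3) := by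
    refine le_trans (sp_dbl (ρ := ρ) Z T3 ?_ 2 t3 ?_ ?_ ?_ (fun f => sp_pre f Z) B3 ?_)
      (Nat.mul_le_mul_right _ hT3)
    · intro x hx z hz
      exact hZS x (Finset.mem_filter.1 hx).2.1 z hz
    · intro x hx i hi
      obtain ⟨-, hxS, hx1, hxU, hx3⟩ := Finset.mem_filter.1 hx
      exact Finset.mem_filter.2 ⟨Finset.mem_univ _, pow_mem hxS _,
        hne1 3 x Nat.prime_three hx1 hx3 i (by omega), hxU, hpe 3 x hx3 _⟩
    · intro x hx
      obtain ⟨-, hxS, hx1, hxU, hx3⟩ := Finset.mem_filter.1 hx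
      rw [hordp 3 x Nat.prime_three hx1 hx3]
      norm_num
    · intro x hx
      obtain ⟨-, hxS, hx1, hxU, hx3⟩ := Finset.mem_filter.1 hx
      exact ht3' _ (hgal' 3 3 x le_rfl Nat.prime_three hx1 hxU hx3)
    · intro m hm
      exact (Finset.mem_filter.1 hm).2
  have hB5 : 4 * B5.card ≤ a * u * (Nat.card Z * t5) := by
    refine le_trans (sp_dbl (ρ := ρ) Z T5 ?_ 4 t5 ?_ ?_ ?_ (fun f => sp_pre f Z) B5 ?_)
      (Nat.mul_le_mul_right _ hT5)
    · intro x hx z hz
      exact hZS x (Finset.mem_filter.1 hx).2.1 z hz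
    · intro x hx i hi
      obtain ⟨-, hxS, hx1, s, hs, hs5, hxU, hxs⟩ := Finset.mem_filter.1 hx
      exact Finset.mem_filter.2 ⟨Finset.mem_univ _, pow_mem hxS _,
        hne1 s x hs hx1 hxs i (by omega), s, hs, hs5, hxU, hpe s x hxs _⟩
    · intro x hx
      obtain ⟨-, hxS, hx1, s, hs, hs5, hxU, hxs⟩ := Finset.mem_filter.1 hx
      rw [hordp s x hs hx1 hxs]
      omega
    · intro x hx
      obtain ⟨-, hxS, hx1, s, hs, hs5, hxU, hxs⟩ := Finset.mem_filter.1 hx
      exact ht5' _ (hgal' 5 s x hs5 hs hx1 hxU hxs)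
    · intro m hm
      exact (Finset.mem_filter.1 hm).2
  have hY : 3 ^ a ≤ Nat.card Y := by
    rw [hcard]
    calc 3 ^ a ≤ p ^ a := Nat.pow_le_pow_left hp a
      _ = (p ^ a) ^ 1 := (pow_one _).symm
      _ ≤ (p ^ a) ^ d := Nat.pow_le_pow_right (by positivity) hd
  have hlt := sp_num a u (Nat.card Z) t3 t5 (Nat.card Y) B3.card B5.card hSU hc ht3 ht5 hY hB3 hB5
  have hB : (B3 ∪ B5).card < (Finset.univ : Finset Y).card := by
    refine lt_of_le_of_lt (Finset.card_union_le _ _) ?_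
    rwa [Finset.card_univ, ← Nat.card_eq_fintype_card]
  obtain ⟨m, -, hm⟩ := Finset.exists_mem_notMem_of_card_lt_card hB
  rw [Finset.mem_union, not_or] at hm
  refine ⟨m, fun x hx s hs1 hs2 hsU hs3 hs4 => ?_⟩
  by_contra h1
  have hs4' : s ≠ 4 := by
    intro h4
    rw [h4] at hs1
    norm_num at hs1
  rcases Nat.lt_or_ge s 5 with h5 | h5
  · have h3 : s = 3 := by omega
    subst h3
    exact hm.1 (Finset.mem_filter.2 ⟨Finset.mem_univ _, x, Finset.mem_filter.2
      ⟨Finset.mem_univ _, hx, h1, hsU, hs3⟩, hs4⟩)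
  · exact hm.2 (Finset.mem_filter.2 ⟨Finset.mem_univ _, x, Finset.mem_filter.2
      ⟨Finset.mem_univ _, hx, h1, s, hs1, h5, hsU, hs3⟩, hs4⟩)

/-- The special vector. -/
theorem spm (hp : 3 ≤ p) (ho : ¬ 2 ∣ Nat.card H) (F : Fam p H) (hJ : Subsingleton F.J)
    (hab : Abq F.ρ F.W F.UU)
    (S : Subgroup H) (Z : Submodule (ZMod p) F.X) (hZ : Z ≠ ⊥)
    (hZS : ∀ x ∈ S, ∀ z ∈ Z, F.ρ x z ∈ Z) (hZc : Nat.card Z ^ 3 ≤ Nat.card F.X) :
    ∃ m : F.X, ∀ x ∈ S, ∀ s : ℕ, s.Prime → 3 ≤ s → Ufr F.ρ F.W F.UU s →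
      (∀ y, F.ρ (x ^ s) y = y) →
      F.ρ x m - m ∈ Z → ∀ y, F.ρ x y = y := by
  classical
  have hsup := F.bs.sup
  have hne : Nonempty F.J := by
    by_contra h
    rw [not_nonempty_iff] at h
    rw [iSup_of_empty] at hsup
    exact bot_ne_top hsup
  obtain ⟨j⟩ := hne
  have hW : F.W j = ⊤ := by
    rw [← hsup]
    refine le_antisymm (le_iSup F.W j) (iSup_le fun j' => ?_)
    rw [Subsingleton.elim j' j]
  have hNm : ∀ g : H, g ∈ Nm F.ρ (F.W j) := by
    intro g
    rw [mem_Nm]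
    obtain ⟨j', hj'⟩ := F.bs.prm g j
    rw [hj', Subsingleton.elim j' j]
  obtain ⟨L, iL, iLf, ρL, π, U, hsurj, hcomp, hQ, hU⟩ := bs_qp F.bs j
  have : Nontrivial (F.W j) := (Submodule.nontrivial_iff_ne_bot).2 (F.bs.ne j)
  have hmem : ∀ y : F.X, y ∈ F.W j := fun y => by rw [hW]; exact Submodule.mem_top
  have hab' : ∀ x y : L, x * y * x⁻¹ * y⁻¹ ∈ U := by
    intro x y
    obtain ⟨g, rfl⟩ := hsurj x
    obtain ⟨k, rfl⟩ := hsurj y
    rw [← map_inv, ← map_inv, ← map_mul, ← map_mul, ← map_mul, hU]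
    exact hab j g g.2 k k.2
  let S' : Subgroup L := (S.subgroupOf (Nm F.ρ (F.W j))).map π
  let Z' : Submodule (ZMod p) (F.W j) := Z.comap (F.W j).subtype
  have hZ' : Z' ≠ ⊥ := by
    obtain ⟨z, hz, hz0⟩ := Submodule.exists_mem_ne_zero_of_ne_bot hZ
    intro h0
    have h1 : (⟨z, hmem z⟩ : F.W j) ∈ Z' := hz
    rw [h0, Submodule.mem_bot] at h1
    exact hz0 (Subtype.ext_iff.1 h1)
  have hZS' : ∀ x ∈ S', ∀ z ∈ Z', ρL x z ∈ Z' := by
    rintro _ ⟨g, hg, rfl⟩ z hz
    show ((ρL (π g) z : F.W j) : F.X) ∈ Z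
    rw [hcomp]
    exact hZS g hg z hz
  have hc' : Nat.card Z' ^ 3 ≤ Nat.card (F.W j) := by
    have h1 : Nat.card Z' ≤ Nat.card Z :=
      Nat.card_le_card_of_injective (fun z : Z' => (⟨((z : F.W j) : F.X), z.2⟩ : Z))
        (fun z z' hzz => by
          have h9 : ((z : F.W j) : F.X) = ((z' : F.W j) : F.X) := by
            have h10 := congrArg (fun z : Z => (z : F.X)) hzz
            exact h10
          exact Subtype.ext (Subtype.ext h9))
    have h2 : Nat.card F.X = Nat.card (F.W j) :=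
      Nat.card_congr (Equiv.subtypeUnivEquiv hmem).symm
    rw [← h2]
    exact (Nat.pow_le_pow_left h1 3).trans hZc
  have hoL : ¬ 2 ∣ Nat.card L := fun h2 => ho ((h2.trans
    (Subgroup.card_dvd_of_surjective π hsurj)).trans (Subgroup.card_subgroup_dvd_card _))
  obtain ⟨m, hm⟩ := sp_aux hQ hp hoL hab' S' Z' hZ' hZS' hc'
  refine ⟨m, fun x hx s hs1 hs2 hsU hs3 hs4 y => ?_⟩
  have hU2 : ∀ u ∈ U, u ^ s = 1 → u = 1 := by
    intro u huU hus
    obtain ⟨g, rfl⟩ := hsurj u
    have hgU : (g : H) ∈ F.UU j := (hU g).1 huU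
    refine hQ.fai _ fun w => Subtype.ext ?_
    rw [hcomp]
    refine hsU j (g : H) hgU ?_ w w.2
    intro w' hw'
    have h1 := hcomp (g ^ s) ⟨w', hw'⟩
    rw [map_pow, hus, map_one, Module.End.one_apply] at h1
    exact h1.symm
  have h1 : π ⟨x, hNm x⟩ ∈ S' := ⟨⟨x, hNm x⟩, hx, rfl⟩
  have h2 : (π ⟨x, hNm x⟩) ^ s = 1 := by
    rw [← map_pow]
    refine hQ.fai _ fun w => Subtype.ext ?_
    rw [hcomp]
    exact hs3 w
  have h3 : ρL (π ⟨x, hNm x⟩) m - m ∈ Z' := by
    show ((ρL (π ⟨x, hNm x⟩) m - m : F.W j) : F.X) ∈ Z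
    rw [Submodule.coe_sub, hcomp]
    exact hs4
  have h4 := hm _ h1 s hs1 hs2 hU2 h2 h3
  have h5 := hcomp ⟨x, hNm x⟩ ⟨y, hmem y⟩
  rw [h4, map_one, Module.End.one_apply] at h5
  exact h5.symm

end

end Pool.Agent.Nao
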