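import Pool.Agent.Nas.Ob

/-! Elements of odd prime order of irreducible linear groups of odd order and degree `≤ 4`. -/

set_option autoImplicit false

namespace Pool.Agent.Nao

open Pool.Agent.Nan Pool.Agent.Nas

private theorem zl2_card_dvd {G : Type} [Group G] [Finite G] (N : Subgroup G) [N.Normal] (l : ℕ)
    (hl : l.Prime) (hd : ¬ l ∣ N.index) (x : G) (hx : x ^ l = 1) : x ∈ N := by
  have hc : Nat.Coprime l N.index := (Nat.Prime.coprime_iff_not_dvd hl).2 hd
  have h1 : x ^ N.index ∈ N := Subgroup.pow_index_mem N x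
  have h2 : ((QuotientGroup.mk x : G ⧸ N)) ^ l = 1 := by
    rw [← QuotientGroup.mk_pow, hx]; rfl
  have h3 : ((QuotientGroup.mk x : G ⧸ N)) ^ N.index = 1 := by
    rw [← QuotientGroup.mk_pow]
    exact (QuotientGroup.eq_one_iff _).2 h1
  have h4 := orderOf_dvd_of_pow_eq_one h2
  have h5 := orderOf_dvd_of_pow_eq_one h3
  have h6 : orderOf (QuotientGroup.mk x : G ⧸ N) = 1 := Nat.eq_one_of_dvd_coprimes hc h4 h5
  exact (QuotientGroup.eq_one_iff _).1 (orderOf_eq_one_iff.1 h6)

private theorem zl2_not_dvd (l a : ℕ) (ha : 0 < a) (hal : a < l) : ¬ l ∣ a := by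
  intro h
  have := Nat.le_of_dvd ha h
  omega

theorem zl2_three (e l s k : ℕ) (he0 : 0 < e) (he4 : e ≤ 4) (he2 : ¬ 2 ∣ e) (hl : l.Prime)
    (hl3 : 3 ≤ l) (hs : s.Prime) (hk : 0 < k) (hse : s ^ k ∣ e) (hd : l ∣ s ^ (2 * k) - 1) :
    False := by
  have h1 : s ≤ s ^ k := Nat.le_self_pow hk.ne' s
  have h2 := hs.two_le
  have h3 := Nat.le_of_dvd he0 hse
  have h4 : s ^ k = 3 := by
    have h5 : e = 1 ∨ e = 3 := by omega
    rcases h5 with rfl | rfl
    · omega
    · rcases (Nat.dvd_prime Nat.prime_three).1 hse with h | h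
      · omega
      · exact h
  have h6 : s ^ (2 * k) = 9 := by rw [mul_comm, pow_mul, h4]; norm_num
  rw [h6] at hd
  have h7 : l ∣ 2 ^ 3 := by norm_num; exact hd
  have h8 := Nat.le_of_dvd (by norm_num) (hl.dvd_of_dvd_pow h7)
  omega

/-- An element of prime order `l > d` of an irreducible quasi-primitive group of odd order and
degree `d ≤ 4` is in `U`. -/
theorem zl_blk {p : ℕ} [Fact p.Prime] {L W : Type} [Group L] [Finite L] [AddCommGroup W]
    [Module (ZMod p) W] [Finite W] [Nontrivial W] {ρ : Representation (ZMod p) L W}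
    {U : Subgroup L} (h : QP ρ U) (hs : Group.IsSolvable L) (ho : ¬ 2 ∣ Nat.card L) (d : ℕ)
    (hd : d ≤ 4) (hW : Nat.card W = p ^ d) (l : ℕ) (hl : l.Prime) (hl3 : 3 ≤ l) (hdl : d < l)
    (x : L) (hx : x ^ l = 1) : x ∈ U := by
  have hp : p.Prime := Fact.out
  obtain ⟨a, ha, -, hidx, hAA, ⟨d', hd', hWd⟩, -⟩ := qp_gal h
  have had : a * d' = d := by
    rw [hW, ← pow_mul] at hWd
    exact (Nat.pow_right_injective hp.two_le hWd).symm
  have had2 : a ≤ d := by rw [← had]; exact Nat.le_mul_of_pos_right a hd'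
  have hUn : U.Normal := h.ab.nor
  have hxC : x ∈ Subgroup.centralizer (U : Set L) := by
    refine zl2_card_dvd _ l hl ?_ x hx
    intro hdvd
    exact zl2_not_dvd l a ha (by omega) (hdvd.trans hidx)
  obtain ⟨E, n, M, hE⟩ := qp_E h hs
  have hPrg : Prg U E := ⟨qp_cyc h, hE.UE, hE.cU, hE.com, hE.cen⟩
  obtain ⟨e, he0, he, -⟩ := sq_ex hPrg
  have hdim := qp_dim h hE e he
  have hed : e ≤ d := by
    rw [hAA, hW, ← pow_mul] at hdim
    have := (Nat.pow_le_pow_iff_right hp.one_lt).1 hdim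
    exact le_trans (Nat.le_mul_of_pos_left e ha) this
  have he2 : ¬ 2 ∣ e := by
    intro h2
    apply ho
    have h3 : U.relIndex E ∣ Nat.card L :=
      (Subgroup.relIndex_dvd_card U E).trans (Subgroup.card_subgroup_dvd_card E)
    rw [he] at h3
    exact (h2.trans (dvd_pow_self e two_ne_zero)).trans h3
  have hle : ¬ l ∣ e := zl2_not_dvd l e he0 (by omega)
  have hxu : ∀ u ∈ U, x * u = u * x := fun u hu => (Subgroup.mem_centralizer_iff.1 hxC u hu).symm
  have hxE : x ∈ E := by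
    by_contra hxE
    obtain ⟨s, k, hsp, hk, hske, hls⟩ := prm_act (qp_cyc h) hE e he l hl hle x hxu hx hxE
    exact zl2_three e l s k he0 (by omega) he2 hl hl3 hsp hk hske hls
  have hmem : (⟨x, hxE⟩ : E) ∈ U.subgroupOf E := by
    refine zl2_card_dvd (U.subgroupOf E) l hl ?_ ⟨x, hxE⟩ ?_
    · have h1 : (U.subgroupOf E).index = e ^ 2 := he
      rw [h1]
      exact fun h2 => hle (hl.dvd_of_dvd_pow h2)
    · apply Subtype.ext
      simpa using hx
  exact Subgroup.mem_subgroupOf.1 hmem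

private theorem zl3_fix {p : ℕ} [Fact p.Prime] {X S J : Type} [Group X] [Finite X] [AddCommGroup S]
    [Module (ZMod p) S] [Finite S] [Finite J] {ρ : Representation (ZMod p) X S}
    {W : J → Submodule (ZMod p) S} {UU : J → Subgroup X} (hB : BS ρ W UU)
    (l : ℕ) (hJ : Nat.card J < l) (hl : l.Prime) (x : X) (hx : x ^ l = 1)
    (j : J) : (W j).map (ρ x) = W j := by
  classical
  have := Fintype.ofFinite J
  have hinj : Function.Injective W := hB.ind.injective hB.ne
  choose f hf using fun j => hB.prm x j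
  have hit : ∀ n : ℕ, (W j).map (ρ (x ^ n)) = W (f^[n] j) := by
    intro n
    induction n with
    | zero =>
      simp only [pow_zero, map_one, Function.iterate_zero, id_eq]
      exact Submodule.map_id _
    | succ n ih =>
      rw [pow_succ', map_mul, Function.iterate_succ_apply', ← hf, ← ih]
      exact Submodule.map_comp _ _ _
  have hper : Function.IsPeriodicPt f l j := by
    have h1 := hit l
    rw [hx, map_one] at h1
    have h2 : (W j).map (1 : Module.End (ZMod p) S) = W j := Submodule.map_id _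
    rw [h2] at h1
    exact (hinj h1).symm
  have hmp := hper.minimalPeriod_dvd
  rcases (Nat.dvd_prime hl).1 hmp with h1 | h1
  · have h2 : Function.IsFixedPt f j := Function.minimalPeriod_eq_one_iff_isFixedPt.1 h1
    rw [hf, h2]
  · exfalso
    have h2 := Function.minimalPeriod_le_card (f := f) (x := j)
    rw [h1, ← Nat.card_eq_fintype_card] at h2
    omega

/-- As `zl` of Nas, for groups of odd order and degree `d ≤ 4`. -/
theorem zl {p : ℕ} [Fact p.Prime] {X S : Type} [Group X] [Finite X] [AddCommGroup S]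
    [Module (ZMod p) S] [Finite S] [Nontrivial S] (ρ : Representation (ZMod p) X S)
    (hs : Group.IsSolvable X) (ho : ¬ 2 ∣ Nat.card X) (hf : ∀ h, (∀ w, ρ h w = w) → h = 1) (hirr : Irrd ρ ⊤) (d : ℕ)
    (hd : d ≤ 4) (hS : Nat.card S = p ^ d) :
    ∃ A : Subgroup X, Ab A ∧ Nat.card A < Nat.card S ∧
      ∀ (l : ℕ) (x : X), l.Prime → 3 ≤ l → d < l → x ^ l = 1 → x ∈ A := by
  classical
  have hp : p.Prime := Fact.out
  obtain ⟨J, hJfin, W, UU, hB⟩ := bs_ex (ρ := ρ) hirr
  have := Fintype.ofFinite J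
  -- generating: trivial on all blocks is trivial
  have htriv : ∀ g : X, (∀ j, Tv ρ (W j) g) → g = 1 := by
    intro g hg
    apply hf
    intro w
    have hw : w ∈ (⨆ j, W j) := by rw [hB.sup]; exact Submodule.mem_top
    refine Submodule.iSup_induction W (motive := fun w => ρ g w = w) hw ?_ ?_ ?_
    · intro j w hw; exact hg j w hw
    · exact map_zero _
    · intro a b ha hb; rw [map_add, ha, hb]
  -- finrank
  have hfr : Module.finrank (ZMod p) S = d := by
    have h1 : Nat.card S = p ^ Module.finrank (ZMod p) S := by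
      have := Module.natCard_eq_pow_finrank (K := ZMod p) (V := S)
      rw [Nat.card_zmod] at this
      exact this
    rw [hS] at h1
    exact (Nat.pow_right_injective hp.two_le h1).symm
  have hJ : Nat.card J ≤ d := by
    have : Fintype {i : J // W i ≠ ⊥} := Fintype.ofFinite _
    have h1 := hB.ind.subtype_ne_bot_le_finrank
    rw [hfr, ← Nat.card_eq_fintype_card] at h1
    have h2 : Nat.card {i : J // W i ≠ ⊥} = Nat.card J :=
      Nat.card_congr (Equiv.subtypeUnivEquiv hB.ne)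
    omega
  refine ⟨⨅ j, UU j, ⟨⟨?_⟩, ?_⟩, ?_, ?_⟩
  · intro a ha g
    rw [Subgroup.mem_iInf] at ha ⊢
    intro j'
    obtain ⟨j, hj⟩ := hB.prm g⁻¹ j'
    have h1 : (W j).map (ρ g) = W j' := by
      rw [← hj]
      calc ((W j').map (ρ g⁻¹)).map (ρ g) = (W j').map (ρ g * ρ g⁻¹) :=
            (Submodule.map_comp _ _ _).symm
        _ = W j' := by
          rw [← map_mul, mul_inv_cancel, map_one]
          exact Submodule.map_id _
    exact hB.uCj g j j' h1 a (ha j)
  · intro a ha b hb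
    rw [Subgroup.mem_iInf] at ha hb
    have h1 : (b * a)⁻¹ * (a * b) = 1 := by
      apply htriv
      intro j w hw
      have h2 := hB.uCom j a (ha j) b (hb j) w hw
      calc ρ ((b * a)⁻¹ * (a * b)) w = ρ (b * a)⁻¹ (ρ a (ρ b w)) := by
            rw [map_mul, map_mul]; rfl
        _ = ρ (b * a)⁻¹ (ρ (b * a) w) := by rw [h2, map_mul]; rfl
        _ = w := by
          rw [← Module.End.mul_apply, ← map_mul, inv_mul_cancel, map_one]; rfl
    exact (inv_mul_eq_one.1 h1).symm
  · -- the cardinality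
    have hne : ∀ j, ∃ w ∈ W j, w ≠ 0 := fun j => (Submodule.ne_bot_iff _).1 (hB.ne j)
    choose v hv hv0 using hne
    have hinv : ∀ a ∈ (⨅ j, UU j : Subgroup X), ∀ j, ρ a (v j) ∈ W j := by
      intro a ha j
      rw [Subgroup.mem_iInf] at ha
      have h1 : (W j).map (ρ a) = W j := hB.uN j (ha j)
      rw [← h1]
      exact Submodule.mem_map_of_mem (hv j)
    let F : (⨅ j, UU j : Subgroup X) → S := fun a => ρ (a : X) (∑ j, v j)
    have hFinj : Function.Injective F := by
      intro a b hab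
      have h1 : ∑ j, ρ (a : X) (v j) = ∑ j, ρ (b : X) (v j) := by
        have : ρ (a : X) (∑ j, v j) = ρ (b : X) (∑ j, v j) := hab
        rwa [map_sum, map_sum] at this
      have h2 := (iSupIndep_iff_finsetSum_eq_imp_eq W).1 hB.ind Finset.univ
        (fun j => ρ (a : X) (v j)) (fun j => ρ (b : X) (v j))
        (fun j _ => ⟨hinv a a.2 j, hinv b b.2 j⟩) h1
      have h3 : ((b : X)⁻¹ * (a : X)) = 1 := by
        apply htriv
        intro j
        have hmem : (b : X)⁻¹ * (a : X) ∈ UU j :=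
          (UU j).mul_mem ((UU j).inv_mem (Subgroup.mem_iInf.1 b.2 j)) (Subgroup.mem_iInf.1 a.2 j)
        refine bs_fpf hB j _ hmem (v j) (hv j) (hv0 j) ?_
        have h4 : ρ (a : X) (v j) = ρ (b : X) (v j) := h2 j (Finset.mem_univ _)
        rw [map_mul, Module.End.mul_apply, h4, ← Module.End.mul_apply, ← map_mul,
          inv_mul_cancel, map_one]; rfl
      exact Subtype.ext (inv_mul_eq_one.1 h3).symm
    have hJne : Nonempty J := by
      by_contra hJe
      rw [not_nonempty_iff] at hJe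
      have h1 := hB.sup
      rw [iSup_of_empty] at h1
      exact bot_ne_top h1
    have hx0 : ∑ j, v j ≠ 0 := by
      intro h0
      obtain ⟨j⟩ := hJne
      exact hv0 j ((iSupIndep_iff_finsetSum_eq_zero_imp_eq_zero W).1 hB.ind Finset.univ v
        (fun j _ => hv j) h0 j (Finset.mem_univ _))
    have hF0 : ∀ a, F a ≠ 0 := by
      intro a h0
      apply hx0
      have h1 : ρ (a : X)⁻¹ (ρ (a : X) (∑ j, v j)) = 0 := by
        have : ρ (a : X) (∑ j, v j) = 0 := h0
        rw [this, map_zero]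
      rwa [← Module.End.mul_apply, ← map_mul, inv_mul_cancel, map_one] at h1
    have hlt : Nat.card (Set.range F) < Nat.card S := by
      have h1 : Set.range F ⊂ Set.univ := by
        rw [Set.ssubset_univ_iff]
        intro h2
        have : (0 : S) ∈ Set.range F := by rw [h2]; trivial
        obtain ⟨a, ha⟩ := this
        exact hF0 a ha
      have h3 := Set.ncard_lt_ncard h1 (Set.toFinite _)
      rwa [Set.ncard_univ, ← Nat.card_coe_set_eq] at h3
    rwa [Nat.card_range_of_injective hFinj] at hlt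
  · intro l x hl hl3 hdl hx
    rw [Subgroup.mem_iInf]
    intro j
    have hfix := zl3_fix hB l (by omega) hl x hx j
    obtain ⟨L, _, _, ρL, π, U, hπ, hπρ, hQP, hU⟩ := bs_qp hB j
    have : Nontrivial (W j) := (Submodule.nontrivial_iff_ne_bot).2 (hB.ne j)
    have hsN : Group.IsSolvable (Nm ρ (W j)) := by
      have := hs
      infer_instance
    have hsL : Group.IsSolvable L := by
      have := hsN
      exact Group.isSolvable_of_surjective hπ
    have hWc : Nat.card (W j) = p ^ Module.finrank (ZMod p) (W j) := by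
      have := Module.natCard_eq_pow_finrank (K := ZMod p) (V := W j)
      rw [Nat.card_zmod] at this
      exact this
    have hle : Module.finrank (ZMod p) (W j) ≤ d := (Submodule.finrank_le (W j)).trans hfr.le
    have hoL : ¬ 2 ∣ Nat.card L := fun h2 => ho ((h2.trans
      (Subgroup.card_dvd_of_surjective π hπ)).trans (Subgroup.card_subgroup_dvd_card _))
    have hxN : x ∈ Nm ρ (W j) := hfix
    have h1 : π ⟨x, hxN⟩ ∈ U := by
      refine zl_blk hQP hsL hoL _ (hle.trans hd) hWc l hl hl3 (by omega) _ ?_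
      rw [← map_pow]
      have : (⟨x, hxN⟩ : Nm ρ (W j)) ^ l = 1 := Subtype.ext (by simpa using hx)
      rw [this, map_one]
    exact (hU ⟨x, hxN⟩).1 h1

private theorem zl4_one {L : Type} [Group L] [Finite L] (hs : Group.IsSolvable L) (U M : Subgroup L)
    [U.Normal] (hM : M.Normal) (hU : U < M)
    (hmin : ∀ N : Subgroup L, N.Normal → U ≤ N → N ≤ M → N = U ∨ N = M)
    (ho : ¬ 2 ∣ Nat.card L) (d₀ : ℕ) (hd₀ : d₀ ≤ 4)
    (hd : ∀ s d : ℕ, s.Prime → U.relIndex M = s ^ d → d ≤ d₀) :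
    ∃ C B : Subgroup L, C ≤ B ∧ C.relIndex B ≤ U.relIndex M ∧
      (∀ x ∈ C, ∀ y ∈ M, x * y * x⁻¹ * y⁻¹ ∈ U) ∧
      (∀ x, (∀ y ∈ M, x * y * x⁻¹ * y⁻¹ ∈ U) → x ∈ C) ∧
      ∀ (l : ℕ) (x : L), l.Prime → 3 ≤ l → d₀ < l → x ^ l = 1 → x ∈ B := by
  obtain ⟨r, hr, S, iA, iM, iF, iN, ρ, q, q1, q2, q3, q4, q5, q6, q7⟩ := chief hs U M hM hU hmin
  let f : L →* Module.End (ZMod r) S := ρ
  have hf : ∀ g, f g = ρ g := fun g => rfl
  let ρ' : L ⧸ f.ker →* Module.End (ZMod r) S := QuotientGroup.lift f.ker f le_rfl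
  have h1 : ∀ g : L, ρ' (g : L ⧸ f.ker) = ρ g := fun g => rfl
  have hsL : Group.IsSolvable L := hs
  have hcS : ∃ d : ℕ, Nat.card S = r ^ d := ⟨Module.finrank (ZMod r) S, by
    have h2 := Module.natCard_eq_pow_finrank (K := ZMod r) (V := S)
    rwa [Nat.card_zmod] at h2⟩
  obtain ⟨d, hcd⟩ := hcS
  have hd10 : d ≤ d₀ := hd r d hr.out (by rw [← q6, hcd])
  have hoQ : ¬ 2 ∣ Nat.card (L ⧸ f.ker) := fun h2 =>
    ho (h2.trans (Subgroup.card_quotient_dvd_card f.ker))
  obtain ⟨A, -, hA2, hA3⟩ := zl (X := L ⧸ f.ker) (S := S) ρ' inferInstance hoQ (by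
      intro h hh
      obtain ⟨g, rfl⟩ := QuotientGroup.mk_surjective h
      rw [QuotientGroup.eq_one_iff, MonoidHom.mem_ker]
      apply LinearMap.ext
      intro w
      have := hh w
      rw [h1] at this
      rw [hf, this]
      rfl) (by
      intro W hW
      refine q5 W fun g _ w hw => ?_
      have := hW (g : L ⧸ f.ker) (Subgroup.mem_top _) w hw
      rw [h1] at this
      exact this) d (hd10.trans hd₀) hcd
  have hC : f.ker = (⊥ : Subgroup (L ⧸ f.ker)).comap (QuotientGroup.mk' f.ker) := by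
    rw [MonoidHom.comap_bot, QuotientGroup.ker_mk']
  refine ⟨f.ker, A.comap (QuotientGroup.mk' f.ker), ?_, ?_, ?_, ?_, ?_⟩
  · intro x hx
    rw [Subgroup.mem_comap]
    have : QuotientGroup.mk' f.ker x = 1 := by
      rw [← MonoidHom.mem_ker, QuotientGroup.ker_mk']
      exact hx
    rw [this]
    exact A.one_mem
  · have h2 : f.ker.relIndex (A.comap (QuotientGroup.mk' f.ker)) = Nat.card A := by
      calc f.ker.relIndex (A.comap (QuotientGroup.mk' f.ker))
          = ((⊥ : Subgroup (L ⧸ f.ker)).comap (QuotientGroup.mk' f.ker)).relIndex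
              (A.comap (QuotientGroup.mk' f.ker)) := by rw [← hC]
        _ = (⊥ : Subgroup (L ⧸ f.ker)).relIndex
              ((A.comap (QuotientGroup.mk' f.ker)).map (QuotientGroup.mk' f.ker)) := by
            rw [Subgroup.relIndex_comap]
        _ = Nat.card A := by
            rw [Subgroup.map_comap_eq_self_of_surjective (QuotientGroup.mk'_surjective f.ker),
              Subgroup.relIndex_bot_left]
    rw [h2, ← q6]
    exact hA2.le
  · intro x hx y hy
    have hxy : x * y * x⁻¹ ∈ M := hM.conj_mem y hy x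
    have h1 := q4 x ⟨y, hy⟩ ⟨x * y * x⁻¹, hxy⟩ rfl
    have h2 : ρ x = 1 := hx
    rw [h2, Module.End.one_apply] at h1
    have h3 : q (⟨x * y * x⁻¹, hxy⟩ * ⟨y, hy⟩⁻¹) = 0 := by
      have h4 := q1 (⟨x * y * x⁻¹, hxy⟩ * ⟨y, hy⟩⁻¹) ⟨y, hy⟩
      rw [inv_mul_cancel_right, h1] at h4
      exact left_eq_add.1 (by rw [add_comm] at h4; exact h4)
    exact (q3 _).1 h3
  · intro x hx
    rw [MonoidHom.mem_ker, hf]
    apply LinearMap.ext
    intro w
    obtain ⟨y, rfl⟩ := q2 w
    have hxy : x * y * x⁻¹ ∈ M := hM.conj_mem y y.2 x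
    have h1 := q4 x y ⟨x * y * x⁻¹, hxy⟩ rfl
    rw [← h1, Module.End.one_apply]
    have h3 : q (⟨x * y * x⁻¹, hxy⟩ * y⁻¹) = 0 := (q3 _).2 (hx y y.2)
    have h4 := q1 (⟨x * y * x⁻¹, hxy⟩ * y⁻¹) y
    rw [inv_mul_cancel_right, h3, zero_add] at h4
    exact h4
  · intro l x hl hl3 hdl hx
    rw [Subgroup.mem_comap]
    refine hA3 l _ hl hl3 (by omega) ?_
    rw [← map_pow, hx, map_one]

/-- As `cs_zl` of Nas, for groups of odd order, `d₀ ≤ 4`. -/
theorem cs_zl {L : Type} [Group L] [Finite L] (hs : Group.IsSolvable L) {U E : Subgroup L}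
    {n : ℕ} {M : Fin n → Subgroup L} (hN : U.Normal) (hE : SE U E n M)
    (ho : ¬ 2 ∣ Nat.card L) (d₀ : ℕ) (hd₀ : d₀ ≤ 4)
    (hd : ∀ i, ∀ s d : ℕ, s.Prime → U.relIndex (M i) = s ^ d → d ≤ d₀) :
    ∃ D : Subgroup L, E ≤ D ∧ E.relIndex D ≤ U.relIndex E ∧
      ∀ (l : ℕ) (x : L), l.Prime → 3 ≤ l → d₀ < l → (∀ u ∈ U, x * u = u * x) → x ^ l = 1 →
        x ∈ D := by
  have := hN
  have h1 : ∀ i, ∃ C B : Subgroup L, C ≤ B ∧ C.relIndex B ≤ U.relIndex (M i) ∧
      (∀ x ∈ C, ∀ y ∈ M i, x * y * x⁻¹ * y⁻¹ ∈ U) ∧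
      (∀ x, (∀ y ∈ M i, x * y * x⁻¹ * y⁻¹ ∈ U) → x ∈ C) ∧
      ∀ (l : ℕ) (x : L), l.Prime → 3 ≤ l → d₀ < l → x ^ l = 1 → x ∈ B := fun i =>
    zl4_one hs U (M i) (hE.mN i) (hE.mU i) (hE.mMin i) ho d₀ hd₀ (hd i)
  choose C B hCB hcard hC1 hC2 hB using h1
  have hbig : ∀ x : L, (∀ u ∈ U, x * u = u * x) → (∀ i, x ∈ C i) → x ∈ E := by
    intro x hxU hxC
    refine hE.big x hxU ?_
    let T : Subgroup L :=
      { carrier := {y | x * y * x⁻¹ * y⁻¹ ∈ U}
        one_mem' := by
          show x * 1 * x⁻¹ * 1⁻¹ ∈ U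
          simp
        mul_mem' := by
          intro y z hy hz
          have hy' : x * y * x⁻¹ * y⁻¹ ∈ U := hy
          have hz' : x * z * x⁻¹ * z⁻¹ ∈ U := hz
          show x * (y * z) * x⁻¹ * (y * z)⁻¹ ∈ U
          have h2 := U.mul_mem hy' (hN.conj_mem _ hz' y)
          have h3 : x * (y * z) * x⁻¹ * (y * z)⁻¹ =
            x * y * x⁻¹ * y⁻¹ * (y * (x * z * x⁻¹ * z⁻¹) * y⁻¹) := by group
          rw [h3]; exact h2
        inv_mem' := by
          intro y hy
          have hy' : x * y * x⁻¹ * y⁻¹ ∈ U := hy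
          show x * y⁻¹ * x⁻¹ * (y⁻¹)⁻¹ ∈ U
          have h2 := hN.conj_mem _ (U.inv_mem hy') y⁻¹
          have h3 : x * y⁻¹ * x⁻¹ * (y⁻¹)⁻¹ =
            y⁻¹ * (x * y * x⁻¹ * y⁻¹)⁻¹ * (y⁻¹)⁻¹ := by group
          rw [h3]; exact h2 }
    have hT := hE.gen T (by
      intro u hu
      show x * u * x⁻¹ * u⁻¹ ∈ U
      rw [hxU u hu, mul_inv_cancel_right, mul_inv_cancel]
      exact U.one_mem) (fun i y hy => hC1 i x (hxC i) y hy)
    exact fun y hy => hT hy
  let D : Subgroup L := Subgroup.centralizer (U : Set L) ⊓ ⨅ i, B i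
  have hDU : ∀ x ∈ D, ∀ u ∈ U, x * u = u * x := fun x hx u hu =>
    (Subgroup.mem_centralizer_iff.1 hx.1 u hu).symm
  have hDB : ∀ i, D ≤ B i := fun i => inf_le_right.trans (iInf_le _ i)
  refine ⟨D, ?_, ?_, ?_⟩
  · intro x hx
    refine ⟨?_, ?_⟩
    · show x ∈ Subgroup.centralizer (U : Set L)
      rw [Subgroup.mem_centralizer_iff]
      intro u hu
      exact (hE.cU x hx u hu).symm
    · show x ∈ (⨅ i, B i : Subgroup L)
      rw [Subgroup.mem_iInf]
      intro i
      exact hCB i (hC2 i x fun y hy => hE.com x hx y (hE.mE i hy))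
  · have h2 : (⨅ i, C i) ⊓ D ≤ E := by
      intro x hx
      refine hbig x (hDU x hx.2) fun i => ?_
      have h3 : x ∈ (⨅ i, C i : Subgroup L) := hx.1
      exact Subgroup.mem_iInf.1 h3 i
    have h3 : E.relIndex D ≤ ((⨅ i, C i) ⊓ D).relIndex D :=
      Nat.le_of_dvd (Nat.pos_of_ne_zero Subgroup.index_ne_zero_of_finite)
        (Subgroup.relIndex_dvd_of_le_left D h2)
    rw [Subgroup.inf_relIndex_right] at h3
    calc E.relIndex D ≤ (⨅ i, C i).relIndex D := h3
      _ ≤ ∏ i, (C i).relIndex D := Subgroup.relIndex_iInf_le _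
      _ ≤ ∏ i, U.relIndex (M i) := Finset.prod_le_prod' fun i _ =>
          le_trans (Subgroup.relIndex_le_of_le_right (hDB i)
            (Subgroup.index_ne_zero_of_finite)) (hcard i)
      _ = U.relIndex E := hE.card.symm
  · intro l x hl hl3 hdl hxU hx
    refine ⟨?_, ?_⟩
    · show x ∈ Subgroup.centralizer (U : Set L)
      rw [Subgroup.mem_centralizer_iff]
      intro u hu
      exact (hxU u hu).symm
    · show x ∈ (⨅ i, B i : Subgroup L)
      rw [Subgroup.mem_iInf]
      intro i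
      exact hB i l x hl hl3 hdl hx

end Pool.Agent.Nao
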